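import Pool.Agent.ShadowA.Targets
import Pool.Agent.Lib.PrekopaLeindler

set_option autoImplicit false

open MeasureTheory Set
open scoped ENNReal

namespace Pool.Agent.ShadowA

open Pool.Agent.Shadow

namespace PLB_

variable {n : ℕ}

lemma prekopa {f g h : E n → ℝ≥0∞} (hf : Measurable f) (hg : Measurable g) (hh : Measurable h)
    (H : ∀ x y, f x * g y ≤ h ((1 / 2 : ℝ) • (x + y)) ^ 2) :
    (∫⁻ x, f x) * (∫⁻ x, g x) ≤ (∫⁻ x, h x) ^ 2 := by
  have hm : Measurable (WithLp.toLp 2 : (Fin n → ℝ) → E n) :=
    (PiLp.volume_preserving_toLp (Fin n)).measurable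
  have key : ∀ F : E n → ℝ≥0∞, Measurable F → ∫⁻ x, F x = ∫⁻ x : Fin n → ℝ, F (WithLp.toLp 2 x) :=
    fun F hF => ((PiLp.volume_preserving_toLp (Fin n)).lintegral_comp hF).symm
  rw [key f hf, key g hg, key h hh]
  apply Pool.Agent.Lib.PL.prekopa_leindler n (hf.comp hm) (hg.comp hm) (hh.comp hm)
  intro x y
  exact H (WithLp.toLp 2 x) (WithLp.toLp 2 y)

end PLB_

theorem p_PLB : T_PLB := by
  intro n A B C hA hB hC H
  have h1 := PLB_.prekopa (n := n) (f := A.indicator 1) (g := B.indicator 1)
    (h := C.indicator 1) (measurable_one.indicator hA) (measurable_one.indicator hB)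
    (measurable_one.indicator hC) (by
      intro x y
      by_cases hx : x ∈ A
      · by_cases hy : y ∈ B
        · rw [indicator_of_mem hx, indicator_of_mem hy, indicator_of_mem (H x hx y hy)]
          simp
        · rw [indicator_of_notMem hy]; simp
      · rw [indicator_of_notMem hx]; simp)
  rwa [lintegral_indicator_one hA, lintegral_indicator_one hB, lintegral_indicator_one hC] at h1

end Pool.Agent.ShadowA
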