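import Pool.Agent.ShadowA.Basic

/-!
# Covering shadows in high dimension: targets
-/

set_option autoImplicit false

open Finset MeasureTheory

namespace Pool.Agent.ShadowA

open Pool.Agent.Shadow

/-- Balanced families in a hyperplane have nonpositive total gap. -/
def T_COV : Prop := ∀ (n : ℕ) (K L : Set (E n)), IsBody K → IsBody L → Covers L K →
  ∀ (ι : Type) [Fintype ι] (w : ι → E n) (q : E n), ‖q‖ = 1 → (∀ l, inner ℝ q (w l) = 0) →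
  ∑ l, w l = 0 → ∑ l, gap K L (w l) ≤ 0

/-- If all balanced tuples have nonpositive total gap, then `K` fits in `L`. -/
def T_FITN : Prop := ∀ (n : ℕ) (K L : Set (E n)), 1 ≤ n → IsBody K → IsBody L →
  (∀ τ : Fin (n + 1) → E n, ∑ k, τ k = 0 → tot K L τ ≤ 0) → volume K ≤ volume L

/-- A matrix bounded below is bounded above by its determinant. -/
def T_MATB : Prop := ∀ (n : ℕ) (A : Matrix (Fin n) (Fin n) ℝ) (c : ℝ), 0 < c →
  (∀ q : Fin n → ℝ, c * ∑ j, |q j| ≤ ∑ i, |A.mulVec q i|) →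
  0 < |A.det| ∧ ∀ i j, |A i j| ≤ |A.det| * (n.factorial * (max 1 (1 / c)) ^ n)

/-- Existence of a frame of maximal volume. -/
def T_FRM : Prop := ∀ (n : ℕ) (K L : Set (E n)), 2 ≤ n → IsBody K → IsBody L → Covers L K →
  (∃ τ : Fin (n + 1) → E n, ∑ k, τ k = 0 ∧ 0 < tot K L τ) →
  ∃ u : Fin (n + 1) → E n, Frame K L u

/-- The determinant of a modified frame. -/
def T_DET : Prop := ∀ (n : ℕ) (u τ : Fin (n + 1) → E n) (i m : Fin (n + 1)), i ≠ m →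
  ∑ k, u k = 0 → ∑ k, τ k = 0 → ∀ (w d : Fin (n + 1) → ℝ), τ m = vec u w →
  (∀ k, k ≠ i → k ≠ m → τ k = d k • u k) →
  detm τ = |w i - w m| * (∏ k ∈ (univ.erase i).erase m, |d k|) * detm u

/-- Every vector has nonnegative coordinates, one of them zero; and the values of a linear
functional on the frame may be prescribed. -/
def T_REP : Prop := ∀ (n : ℕ) (u : Fin (n + 1) → E n), ∑ k, u k = 0 → 0 < detm u →
  (∀ y : E n, ∃ μ : Fin (n + 1) → ℝ, (∀ k, 0 ≤ μ k) ∧ (∃ i, μ i = 0) ∧ y = vec u μ) ∧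
  (∀ c : Fin (n + 1) → ℝ, ∑ k, c k = 0 → ∃ v : E n, ∀ k, inner ℝ (u k) v = c k)

/-- The widths of `K` and `L` are not both small. -/
def T_WID : Prop := ∀ (n : ℕ) (K L : Set (E n)) (u : Fin (n + 1) → E n), 2 ≤ n → IsBody K →
  IsBody L → Covers L K → Frame K L u → ∀ (μ : Fin (n + 1) → ℝ) (i j : Fin (n + 1)),
  ((n : ℝ) + 1) * (μ j - μ i) ≤ hs K (vec u μ) + hs K (-vec u μ) +
    (hs L (vec u μ) + hs L (-vec u μ))

/-- The centroid is deep. -/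
def T_CEN : Prop := ∀ (n : ℕ) (K : Set (E n)), 2 ≤ n → IsBody K → volume K ≠ 0 →
  ∃ c : E n, ∀ y, (hs K y + hs K (-y)) / (4 * n) ≤ dep K y c

/-- `(c - v) / 2` is a deep point. -/
def DP {n : ℕ} (K L : Set (E n)) (u : Fin (n + 1) → E n) (c : E n) : Prop :=
  ∀ (v : E n) (μ : Fin (n + 1) → ℝ) (i j : Fin (n + 1)),
    (μ j - μ i) / 8 + gv K L v (vec u μ) / 2 ≤ dep K (vec u μ) ((1 / 2 : ℝ) • (c - v))

/-- Existence of the deep points. -/
def T_DPV : Prop := ∀ (n : ℕ) (K L : Set (E n)) (u : Fin (n + 1) → E n), 2 ≤ n → IsBody K →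
  IsBody L → Covers L K → Frame K L u → volume K ≠ 0 → volume L ≠ 0 → ∃ c : E n, DP K L u c

/-- Ties. -/
def T_TIE : Prop := ∀ (n : ℕ) (μ ν : Fin (n + 1) → ℝ) (i j : Fin (n + 1)), (∀ k, 0 ≤ μ k) →
  (∀ k, 0 ≤ ν k) → μ i = 0 → ν j = 0 → 0 < ν i → ∃ (t : ℝ) (m : Fin (n + 1)), 0 ≤ t ∧ t ≤ 1 ∧
    m ≠ i ∧ (∀ k, (1 - t) * ν i ≤ t * μ k + (1 - t) * ν k) ∧
    t * μ m + (1 - t) * ν m = (1 - t) * ν i

/-- The hypotheses on a pair of vectors with a tie. -/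
structure Tie {n : ℕ} (K L : Set (E n)) (u : Fin (n + 1) → E n) (v : E n)
    (μ ν : Fin (n + 1) → ℝ) (i m : Fin (n + 1)) (t : ℝ) : Prop where
  pos : ∀ k, 0 < gv K L v (u k)
  mu_nonneg : ∀ k, 0 ≤ μ k
  nu_nonneg : ∀ k, 0 ≤ ν k
  mu_sum : ∑ k, μ k * gv K L v (u k) = n + 1
  nu_sum : ∑ k, ν k * gv K L v (u k) = n + 1
  mu_i : μ i = 0
  ne : m ≠ i
  t_nonneg : 0 ≤ t
  t_le : t ≤ 1
  le : ∀ k, (1 - t) * ν i ≤ t * μ k + (1 - t) * ν k
  eq : t * μ m + (1 - t) * ν m = (1 - t) * ν i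

/-- The maximality of the frame applied to a pair of vectors with a tie. -/
def T_EMX : Prop := ∀ (n : ℕ) (K L : Set (E n)) (u : Fin (n + 1) → E n) (v : E n)
  (μ ν : Fin (n + 1) → ℝ) (i m : Fin (n + 1)) (t : ℝ), 2 ≤ n → IsBody K → IsBody L →
  Frame K L u → Tie K L u v μ ν i m t → ∀ (f A D : ℝ), f = (1 - t) * ν i →
  A = t * gv K L v (vec u μ) + (1 - t) * gv K L v (vec u ν) → D = (n + 1) * (1 - f) →
  0 ≤ D ∧ (0 ≤ A + D → ((A + D) / (n + 1)) ^ n *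
    (∏ k ∈ (univ.erase i).erase m, gv K L v (u k)) ≤ (D / (n - 1)) ^ (n - 1))

/-- The depths of the points of `K` for a pair of vectors with a tie. -/
def T_PAIR : Prop := ∀ (n : ℕ) (K L : Set (E n)) (u : Fin (n + 1) → E n) (v : E n)
  (μ ν : Fin (n + 1) → ℝ) (i m : Fin (n + 1)) (t : ℝ), 2 ≤ n → IsBody K → IsBody L →
  Covers L K → Frame K L u → Tie K L u v μ ν i m t → ∀ (f A D : ℝ), f = (1 - t) * ν i →
  A = t * gv K L v (vec u μ) + (1 - t) * gv K L v (vec u ν) → D = (n + 1) * (1 - f) →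
  ∀ x ∈ K, A + D ≤ t * dep K (vec u μ) x + (1 - t) * dep K (vec u ν) x

/-- The numerical contradiction. -/
def T_NUM : Prop := ∀ (n : ℕ) (lam s A D : ℝ), 2 ≤ n → 1 ≤ lam → 0 < s → 0 ≤ D →
  (1 - 1 / (n : ℝ)) * D + 1 / (8 * n) < lam * A →
  ((A + D) / (n + 1)) ^ n * s ≤ (D / (n - 1)) ^ (n - 1) →
  8 * lam * n * (n + 1) * Real.exp 2 ≤ s * Real.exp ((n - 1) / (1 + lam * n / (n - 1))) → False

/-- Violations in two different clusters exclude each other. -/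
def T_DSJ : Prop := ∀ (n : ℕ) (K L : Set (E n)) (u : Fin (n + 1) → E n) (c v : E n)
  (lam s : ℝ), 2 ≤ n → IsBody K → IsBody L → Covers L K → Frame K L u → DP K L u c → 1 ≤ lam →
  0 < s → (∀ k, 0 < gv K L v (u k)) →
  (∀ i m, i ≠ m → s ≤ ∏ k ∈ (univ.erase i).erase m, gv K L v (u k)) →
  8 * lam * n * (n + 1) * Real.exp 2 ≤ s * Real.exp ((n - 1) / (1 + lam * n / (n - 1))) →
  ∀ x ∈ K, ∀ i j, i ≠ j → Viol K L u lam ((1 / 2 : ℝ) • (c - v)) v x i →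
  Viol K L u lam ((1 / 2 : ℝ) • (c - v)) v x j → False

/-- No violation in the cluster `i` if its gap is tiny. -/
def T_TOP : Prop := ∀ (n : ℕ) (K L : Set (E n)) (u : Fin (n + 1) → E n) (c v : E n)
  (lam s : ℝ) (i : Fin (n + 1)), 2 ≤ n → IsBody K → IsBody L → Frame K L u → DP K L u c →
  1 ≤ lam → 0 < s → 8 * lam * (n + 1) * s ≤ 1 → gv K L v (u i) = s →
  (∀ k, k ≠ i → gv K L v (u k) = (n + 1 - s) / n) →
  ∀ x ∈ K, ¬ Viol K L u lam ((1 / 2 : ℝ) • (c - v)) v x i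

/-- Good points. -/
def T_GOOD : Prop := ∀ (n : ℕ) (K L : Set (E n)) (u : Fin (n + 1) → E n) (p v : E n) (lam : ℝ),
  2 ≤ n → Frame K L u → ∀ x, (∀ j, ¬ Viol K L u lam p v x j) →
  (1 - 1 / (n : ℝ)) • x + (1 / (n : ℝ)) • p ∈ lev K L lam v

/-- Midpoints and closedness. -/
def T_MID : Prop := ∀ (n : ℕ) (K L : Set (E n)) (u : Fin (n + 1) → E n) (c v : E n)
  (lam : ℝ) (j : Fin (n + 1)), 2 ≤ n → IsBody K → IsBody L → DP K L u c → 1 ≤ lam →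
  (∀ x ∈ K, ∀ x' ∈ K, ¬ Viol K L u lam ((1 / 2 : ℝ) • (c - v)) v x' j →
    ¬ Viol K L u (lam / 2) ((1 / 2 : ℝ) • (c - v)) v ((1 / 2 : ℝ) • (x + x')) j) ∧
  IsClosed {x | x ∈ K ∧ ¬ Viol K L u lam ((1 / 2 : ℝ) • (c - v)) v x j}

/-- Brunn-Minkowski inequality (from Prekopa-Leindler). -/
def T_PLB : Prop := ∀ (n : ℕ) (A B C : Set (E n)), MeasurableSet A → MeasurableSet B →
  MeasurableSet C → (∀ x ∈ A, ∀ y ∈ B, (1 / 2 : ℝ) • (x + y) ∈ C) →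
  volume A * volume B ≤ volume C ^ 2

/-- The volume of `L` in terms of the volumes of `K` and of a level set. -/
def T_BM : Prop := ∀ (n : ℕ) (K L : Set (E n)) (m : ℕ) (v : E n), IsBody K → IsBody L → 1 ≤ m →
  volume K ^ (m - 1) * volume (lev K L m v) ≤ volume L ^ m

/-- The choice of the translation. -/
def T_SEL : Prop := ∀ (n : ℕ) (K L : Set (E n)) (u : Fin (n + 1) → E n) (c : E n)
  (lam : ℝ), 2 ≤ n → IsBody K → IsBody L → Covers L K → Frame K L u → DP K L u c → 1 ≤ lam →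
  64 * Real.exp 2 * lam ^ 2 * n * (n + 1) ^ 2 ≤ Real.exp ((n - 1) / (1 + lam * n / (n - 1))) →
  ∃ v : E n,
    (∀ j, volume {x | x ∈ K ∧ Viol K L u lam ((1 / 2 : ℝ) • (c - v)) v x j} ≤ volume K / 2) ∧
    ∀ x ∈ K, ∀ i j, i ≠ j → Viol K L u lam ((1 / 2 : ℝ) • (c - v)) v x i →
      Viol K L u lam ((1 / 2 : ℝ) • (c - v)) v x j → False

/-- The volume of the level set. -/
def T_COMB : Prop := ∀ (n : ℕ) (K L : Set (E n)) (u : Fin (n + 1) → E n) (c : E n)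
  (m : ℕ), 2 ≤ n → IsBody K → IsBody L → Covers L K → Frame K L u → DP K L u c → 1 ≤ m →
  64 * Real.exp 2 * (2 * m) ^ 2 * n * (n + 1) ^ 2 ≤
    Real.exp ((n - 1) / (1 + 2 * m * n / (n - 1))) →
  ∃ v : E n, volume K ≤ 10 * volume (lev K L m v)

/-- The choice of the level. -/
def T_FNUM : Prop := ∀ n : ℕ, 2 ≤ n → 50 * Real.log n < n → ∃ m : ℕ, 1 ≤ m ∧
  64 * Real.exp 2 * (2 * m) ^ 2 * n * (n + 1) ^ 2 ≤
    Real.exp ((n - 1) / (1 + 2 * m * n / (n - 1))) ∧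
  Real.log 10 ≤ 50 * Real.log n / n * m

/-- The main theorem. -/
def T_MAIN : Prop := ∀ (n : ℕ) (K L : Set (E n)), 2 ≤ n → IsBody K → IsBody L → Covers L K →
  volume K ≤ ENNReal.ofReal ((n : ℝ) ^ (50 / (n : ℝ))) * volume L

end Pool.Agent.ShadowA
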