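import Pool.Agent.ShadowA.Targets

/-!
# Covering shadows in high dimension: Brunn-Minkowski for the level sets
-/

set_option autoImplicit false

open Finset MeasureTheory

namespace Pool.Agent.ShadowA

open Pool.Agent.Shadow

namespace BM_

lemma seq_ratio (b : ℕ → ℝ) (m : ℕ) (hpos : ∀ j ≤ m, 0 < b j)
    (hlc : ∀ j, b j * b (j + 2) ≤ b (j + 1) ^ 2) :
    ∀ j, j + 1 ≤ m → b (j + 1) * b 0 ≤ b j * b 1 := by
  intro j
  induction j with
  | zero => intro _; rw [zero_add, mul_comm]
  | succ j ih =>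
    intro hj
    have h1 := ih (by omega)
    have h2 := hlc j
    have p0 := hpos 0 (by omega)
    have pj := hpos j (by omega)
    have pj1 := hpos (j + 1) (by omega)
    have h3 : b j * (b (j + 1 + 1) * b 0) ≤ b j * (b (j + 1) * b 1) := by
      calc b j * (b (j + 1 + 1) * b 0) = (b j * b (j + 2)) * b 0 := by ring
        _ ≤ b (j + 1) ^ 2 * b 0 := mul_le_mul_of_nonneg_right h2 p0.le
        _ = b (j + 1) * (b (j + 1) * b 0) := by ring
        _ ≤ b (j + 1) * (b j * b 1) := mul_le_mul_of_nonneg_left h1 pj1.le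
        _ = b j * (b (j + 1) * b 1) := by ring
    exact le_of_mul_le_mul_left h3 pj

lemma seq_pow (b : ℕ → ℝ) (m : ℕ) (hpos : ∀ j ≤ m, 0 < b j)
    (hlc : ∀ j, b j * b (j + 2) ≤ b (j + 1) ^ 2) :
    ∀ j, j + 1 ≤ m → b 0 ^ j * b (j + 1) ≤ b 1 ^ (j + 1) := by
  intro j
  induction j with
  | zero => intro _; simp
  | succ j ih =>
    intro hj
    have h1 := ih (by omega)
    have h2 := seq_ratio b m hpos hlc (j + 1) hj
    have p0 := hpos 0 (by omega)
    have p1 := hpos 1 (by omega)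
    calc b 0 ^ (j + 1) * b (j + 1 + 1) = b 0 ^ j * (b (j + 1 + 1) * b 0) := by ring
      _ ≤ b 0 ^ j * (b (j + 1) * b 1) := mul_le_mul_of_nonneg_left h2 (by positivity)
      _ = (b 0 ^ j * b (j + 1)) * b 1 := by ring
      _ ≤ b 1 ^ (j + 1) * b 1 := mul_le_mul_of_nonneg_right h1 p1.le
      _ = b 1 ^ (j + 1 + 1) := by ring

variable {n : ℕ} {K L : Set (E n)}

lemma lev_zero (hK : IsBody K) (v : E n) : lev K L 0 v = K := by
  ext x
  constructor
  · intro hx
    apply mem_of_inner_le hK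
    intro y
    have := hx y
    rw [zero_mul] at this
    exact sub_nonneg.1 this
  · intro hx y
    rw [zero_mul]
    exact dep_nonneg hK hx y

lemma lev_one (hL : IsBody L) (v : E n) : lev K L 1 v = (fun x => x + v) ⁻¹' L := by
  ext x
  have e : ∀ y : E n, 1 * gv K L v y ≤ dep K y x ↔ inner ℝ y (x + v) ≤ hs L y := by
    intro y
    unfold gv gap dep
    rw [inner_add_right]
    constructor <;> intro h <;> linarith
  constructor
  · intro hx
    exact mem_of_inner_le hL fun y => (e y).1 (hx y)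
  · intro hx y
    exact (e y).2 (inner_le_hs hL hx y)

lemma lev_closed (t : ℝ) (v : E n) : IsClosed (lev K L t v) := by
  have : lev K L t v = ⋂ y : E n, {x | t * gv K L v y ≤ dep K y x} := by
    ext x
    simp [lev]
  rw [this]
  refine isClosed_iInter fun y => isClosed_le continuous_const ?_
  unfold dep
  fun_prop

lemma lev_conv {a b : ℝ} {v x y : E n} (hx : x ∈ lev K L a v) (hy : y ∈ lev K L b v) {t : ℝ}
    (h0 : 0 ≤ t) (h1 : t ≤ 1) : (1 - t) • x + t • y ∈ lev K L ((1 - t) * a + t * b) v := by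
  intro z
  have e : dep K z ((1 - t) • x + t • y) = (1 - t) * dep K z x + t * dep K z y := by
    unfold dep
    rw [inner_add_right, real_inner_smul_right, real_inner_smul_right]
    ring
  rw [e]
  have h2 := mul_le_mul_of_nonneg_left (hx z) (sub_nonneg.2 h1)
  have h3 := mul_le_mul_of_nonneg_left (hy z) h0
  linarith

lemma lev_bounded (hK : IsBody K) (hL : IsBody L) {t : ℝ} (ht : 0 ≤ t) (v : E n) :
    Bornology.IsBounded (lev K L t v) := by
  obtain ⟨R, hR0, hR⟩ := hs_lip hK
  obtain ⟨S, hS0, hS⟩ := hs_lip hL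
  refine isBounded_iff_forall_norm_le.2 ⟨R + t * (R + S + ‖v‖), fun x hx => ?_⟩
  have h1 := hx x
  unfold gv gap dep at h1
  have h2 := (abs_le.1 (hR x 0)).2
  have h3 := (abs_le.1 (hR x 0)).1
  have h4 := (abs_le.1 (hS x 0)).2
  rw [hs_zero hK, sub_zero, sub_zero] at h2 h3
  rw [hs_zero hL, sub_zero, sub_zero] at h4
  have h5 : -(‖x‖ * ‖v‖) ≤ inner ℝ x v := by
    have := abs_real_inner_le_norm x v
    exact (abs_le.1 this).1
  rw [real_inner_self_eq_norm_sq] at h1
  have h6 : t * (-((R + S + ‖v‖) * ‖x‖)) ≤ t * (hs K x - hs L x + inner ℝ x v) :=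
    mul_le_mul_of_nonneg_left (by linarith) ht
  rcases (norm_nonneg x).lt_or_eq with h | h
  · have h7 : ‖x‖ * ‖x‖ ≤ (R + t * (R + S + ‖v‖)) * ‖x‖ := by nlinarith
    exact le_of_mul_le_mul_right h7 h
  · rw [← h]
    positivity

lemma lev_fin (hK : IsBody K) (hL : IsBody L) {t : ℝ} (ht : 0 ≤ t) (v : E n) :
    volume (lev K L t v) ≠ ⊤ :=
  (lev_bounded hK hL ht v).measure_lt_top.ne

lemma lev_pos (hK : IsBody K) {m j : ℕ} (hj : j < m) {v z : E n}
    (hz : z ∈ lev K L m v) (h0 : volume K ≠ 0) : volume (lev K L j v) ≠ 0 := by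
  have hm : (0 : ℝ) < m := by
    exact_mod_cast (by omega : 0 < m)
  have hjm : (j : ℝ) < m := by exact_mod_cast hj
  set t : ℝ := j / m with ht
  have ht0 : 0 ≤ t := by positivity
  have ht1 : t < 1 := by rw [ht, div_lt_one hm]; exact hjm
  have hsub : (fun x => (1 - t) • x + t • z) '' K ⊆ lev K L j v := by
    rintro _ ⟨x, hx, rfl⟩
    rw [← lev_zero (L := L) hK v] at hx
    have h1 := lev_conv hx hz ht0 ht1.le
    have h2 : (1 - t) * 0 + t * m = j := by
      rw [ht]; field_simp; ring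
    rwa [h2] at h1
  intro hzero
  have h1 := measure_mono_null hsub hzero
  rw [vol_aff (1 - t) (by linarith) (t • z) K] at h1
  rcases mul_eq_zero.1 h1 with h2 | h2
  · rw [ENNReal.ofReal_eq_zero] at h2
    have : 0 < (1 - t) ^ n := pow_pos (by linarith) n
    linarith
  · exact h0 h2

end BM_

theorem p_BM (h : T_PLB) : T_BM := by
  intro n K L m v hK hL hm
  have e1 : volume (lev K L 1 v) = volume L := by
    rw [BM_.lev_one hL, measure_preimage_add_right]
  rcases hm.lt_or_eq with hm1 | hm1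
  swap
  · subst hm1
    simp [e1]
  by_cases hK0 : volume K = 0
  · rw [hK0, zero_pow (by omega), zero_mul]
    exact zero_le
  by_cases hm0 : volume (lev K L m v) = 0
  · rw [hm0, mul_zero]
    exact zero_le
  obtain ⟨z, hz⟩ : (lev K L m v).Nonempty := by
    by_contra hcon
    rw [Set.not_nonempty_iff_eq_empty] at hcon
    exact hm0 (by rw [hcon, measure_empty])
  set b : ℕ → ℝ := fun j => (volume (lev K L j v)).toReal with hb
  have hfin : ∀ j : ℕ, volume (lev K L j v) ≠ ⊤ := fun j =>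
    BM_.lev_fin hK hL (Nat.cast_nonneg j) v
  have hpos : ∀ j ≤ m, 0 < b j := by
    intro j hj
    apply ENNReal.toReal_pos _ (hfin j)
    rcases hj.lt_or_eq with h1 | h1
    · exact BM_.lev_pos hK h1 hz hK0
    · rw [h1]; exact hm0
  have hlc : ∀ j, b j * b (j + 2) ≤ b (j + 1) ^ 2 := by
    intro j
    have h1 := h n (lev K L j v) (lev K L (j + 2 : ℕ) v) (lev K L (j + 1 : ℕ) v)
      (BM_.lev_closed _ v).measurableSet (BM_.lev_closed _ v).measurableSet
      (BM_.lev_closed _ v).measurableSet (fun x hx y hy => by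
        have h2 := BM_.lev_conv hx hy (t := 1 / 2) (by norm_num) (by norm_num)
        have h3 : (1 - 1 / 2 : ℝ) • x + (1 / 2 : ℝ) • y = (1 / 2 : ℝ) • (x + y) := by module
        have h4 : (1 - 1 / 2 : ℝ) * (j : ℝ) + 1 / 2 * ((j + 2 : ℕ) : ℝ) = ((j + 1 : ℕ) : ℝ) := by
          push_cast; ring
        rwa [h3, h4] at h2)
    have h2 := ENNReal.toReal_mono (ENNReal.pow_ne_top (hfin (j + 1))) h1
    rwa [ENNReal.toReal_mul, ENNReal.toReal_pow] at h2
  obtain ⟨k, rfl⟩ : ∃ k, m = k + 1 := ⟨m - 1, by omega⟩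
  have hmain := BM_.seq_pow b (k + 1) hpos hlc k le_rfl
  have e0 : volume (lev K L (0 : ℕ) v) = volume K := by
    rw [Nat.cast_zero, BM_.lev_zero hK]
  have e1' : volume (lev K L (1 : ℕ) v) = volume L := by
    rw [Nat.cast_one, e1]
  have hKf : volume K ≠ ⊤ := by rw [← e0]; exact hfin 0
  have hLf : volume L ≠ ⊤ := by rw [← e1']; exact hfin 1
  have r0 : b 0 = (volume K).toReal := by simp only [hb, e0]
  have r1 : b 1 = (volume L).toReal := by simp only [hb, e1']
  rw [r0, r1] at hmain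
  simp only [hb] at hmain
  rw [← ENNReal.toReal_pow, ← ENNReal.toReal_pow, ← ENNReal.toReal_mul] at hmain
  rw [Nat.add_sub_cancel]
  exact (ENNReal.toReal_le_toReal (ENNReal.mul_ne_top (ENNReal.pow_ne_top hKf) (hfin _))
    (ENNReal.pow_ne_top hLf)).1 hmain

end Pool.Agent.ShadowA
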