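import Pool.Agent.ShadowA.Targets
import Mathlib

/-!
# CEN: the centroid is deep
-/

set_option autoImplicit false

open Finset MeasureTheory

namespace Pool.Agent.ShadowA

open Pool.Agent.Shadow

namespace CEN_

theorem quarter (n : ℕ) (hn : 2 ≤ n) : (1 : ℝ) / 4 ≤ (1 - 1 / (n : ℝ)) ^ n := by
  have hn0 : (0 : ℝ) < n := by exact_mod_cast (by omega : 0 < n)
  have hn2 : (2 : ℝ) ≤ n := by exact_mod_cast hn
  have h1 : (1 + (-(1 / 2 : ℝ))) ^ (2 / (n : ℝ)) ≤ 1 + (2 / (n : ℝ)) * (-(1 / 2 : ℝ)) :=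
    rpow_one_add_le_one_add_mul_self (by norm_num) (by positivity)
      (by rw [div_le_one hn0]; exact hn2)
  have h2 : (1 + (2 / (n : ℝ)) * (-(1 / 2 : ℝ))) = 1 - 1 / (n : ℝ) := by
    field_simp
    ring
  rw [h2] at h1
  have h3 : ((1 + (-(1 / 2 : ℝ))) ^ (2 / (n : ℝ))) ^ n = 1 / 4 := by
    rw [← Real.rpow_natCast, ← Real.rpow_mul (by norm_num), div_mul_cancel₀ _ hn0.ne']
    norm_num
  rw [← h3]
  exact pow_le_pow_left₀ (Real.rpow_nonneg (by norm_num) _) h1 n

end CEN_

open CEN_ in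
/-- The centroid is deep. -/
theorem p_CEN : T_CEN := by
  intro n K hn hK hvol
  have hn0 : (0 : ℝ) < n := by exact_mod_cast (by omega : 0 < n)
  have hn1 : (1 : ℝ) ≤ n := by exact_mod_cast (by omega : 1 ≤ n)
  have hfin : volume K ≠ ⊤ := hK.2.1.measure_lt_top.ne
  set V : ℝ := volume.real K with hV
  have hVpos : 0 < V := by
    rw [hV, measureReal_def]
    exact ENNReal.toReal_pos hvol hfin
  refine ⟨V⁻¹ • ∫ x in K, x, fun y => ?_⟩
  have hint : IntegrableOn (fun x : E n => x) K := continuousOn_id.integrableOn_compact hK.2.1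
  have hinty : IntegrableOn (fun x : E n => (inner ℝ y x : ℝ)) K :=
    (Continuous.continuousOn (by fun_prop)).integrableOn_compact hK.2.1
  have h1 : inner ℝ y (V⁻¹ • ∫ x in K, x) = V⁻¹ * ∫ x in K, (inner ℝ y x : ℝ) := by
    rw [real_inner_smul_right]
    congr 1
    exact ((innerSL ℝ y).integral_comp_comm hint).symm
  obtain ⟨x₀, hx₀, hx₀'⟩ := exists_hs hK (-y)
  rw [inner_neg_left] at hx₀'
  have hF : IntegrableOn (fun x : E n => hs K y - (inner ℝ y x : ℝ)) K :=
    (Continuous.continuousOn (by fun_prop)).integrableOn_compact hK.2.1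
  set r : ℝ := 1 - 1 / (n : ℝ) with hr
  have hinv : 1 / (n : ℝ) ≤ 1 := by rw [div_le_one hn0]; exact hn1
  have hinv0 : 0 ≤ 1 / (n : ℝ) := by positivity
  have hr0 : 0 ≤ r := by rw [hr]; linarith
  set K' : Set (E n) := AffineMap.homothety x₀ r '' K with hK'
  have hhom : ∀ x : E n, AffineMap.homothety x₀ r x = (1 / (n : ℝ)) • x₀ + r • x := by
    intro x
    rw [AffineMap.homothety_apply, vsub_eq_sub, vadd_eq_add, hr]
    module
  have hsub : K' ⊆ K := by
    rintro _ ⟨x, hx, rfl⟩
    rw [hhom]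
    exact hK.2.2 hx₀ hx hinv0 hr0 (by rw [hr]; ring)
  have hvolK' : volume.real K' = r ^ n * V := by
    rw [measureReal_def, hK', Measure.addHaar_image_homothety, ENNReal.toReal_mul, ← measureReal_def,
      ENNReal.toReal_ofReal (abs_nonneg _), finrank_euclideanSpace, Fintype.card_fin,
      abs_of_nonneg (pow_nonneg hr0 n)]
  have hK'c : IsCompact K' := hK.2.1.image (by
    have : (fun x => AffineMap.homothety x₀ r x) = fun x : E n => (1 / (n : ℝ)) • x₀ + r • x :=
      funext hhom
    show Continuous (fun x => AffineMap.homothety x₀ r x)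
    rw [this]
    fun_prop)
  have h2 : ∫ x in K, (hs K y - (inner ℝ y x : ℝ)) = V * hs K y - ∫ x in K, (inner ℝ y x : ℝ) := by
    have hc : Integrable (fun _ : E n => hs K y) (volume.restrict K) :=
      integrableOn_const hfin (by finiteness)
    rw [integral_sub hc hinty, setIntegral_const, smul_eq_mul]
  have h3 : ∫ x in K', (hs K y - (inner ℝ y x : ℝ)) ≤ ∫ x in K, (hs K y - (inner ℝ y x : ℝ)) := by
    refine setIntegral_mono_set hF ?_ (Filter.Eventually.of_forall hsub)
    filter_upwards [ae_restrict_mem hK.2.1.measurableSet] with x hx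
    exact dep_nonneg hK hx y
  have h4 : volume.real K' * ((hs K y + hs K (-y)) / n) ≤
      ∫ x in K', (hs K y - (inner ℝ y x : ℝ)) := by
    have h5 : ∫ x in K', ((hs K y + hs K (-y)) / n : ℝ) =
        volume.real K' * ((hs K y + hs K (-y)) / n) := by
      rw [setIntegral_const, smul_eq_mul]
    rw [← h5]
    refine setIntegral_mono_on (integrableOn_const hK'c.measure_lt_top.ne)
      (hF.mono_set hsub) hK'c.measurableSet ?_
    rintro _ ⟨x, hx, rfl⟩
    rw [hhom, inner_add_right, real_inner_smul_right, real_inner_smul_right]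
    have h6 := inner_le_hs hK hx y
    have h7 : r * inner ℝ y x ≤ r * hs K y := mul_le_mul_of_nonneg_left h6 hr0
    have h8 : (hs K y + hs K (-y)) / n = hs K y - (1 / (n : ℝ)) * (-hs K (-y)) - r * hs K y := by
      rw [hr]
      ring
    have h9 : (1 / (n : ℝ)) * inner ℝ y x₀ = (1 / (n : ℝ)) * (-hs K (-y)) := by
      rw [← hx₀', neg_neg]
    rw [h8, h9]
    linarith
  have hw := hs_neg_nonneg hK y
  have h10 : V * ((hs K y + hs K (-y)) / (4 * n)) ≤ V * dep K y (V⁻¹ • ∫ x in K, x) := by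
    have e1 : V * dep K y (V⁻¹ • ∫ x in K, x) = V * hs K y - ∫ x in K, (inner ℝ y x : ℝ) := by
      rw [dep, h1, mul_sub, mul_inv_cancel_left₀ hVpos.ne']
    rw [e1, ← h2]
    refine le_trans ?_ (h4.trans h3)
    rw [hvolK']
    have hq := quarter n hn
    rw [← hr] at hq
    calc V * ((hs K y + hs K (-y)) / (4 * n)) = (1 / 4) * V * ((hs K y + hs K (-y)) / n) := by
          field_simp
      _ ≤ r ^ n * V * ((hs K y + hs K (-y)) / n) := by
          apply mul_le_mul_of_nonneg_right _ (by positivity)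
          exact mul_le_mul_of_nonneg_right hq hVpos.le
  exact le_of_mul_le_mul_left h10 hVpos

end Pool.Agent.ShadowA
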