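import Pool.Agent.ShadowA.Targets

/-!
# Covering shadows in high dimension: the volume of the level set
-/

set_option autoImplicit false

open Finset MeasureTheory

namespace Pool.Agent.ShadowA

open Pool.Agent.Shadow

namespace COMB_

lemma real_ineq {V b b' : ℝ} (hb : 0 ≤ b) (hb2 : b ≤ V / 2) (hb' : b' ≤ V)
    (h : V * (V - b) ≤ (V - b') ^ 2) : b' ≤ 3 / 5 * b := by
  by_contra hcon
  push Not at hcon
  nlinarith

lemma factor {n : ℕ} (hn : 2 ≤ n) : (1 / 4 : ℝ) ≤ (1 - 1 / (n : ℝ)) ^ n := by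
  have hn' : (2 : ℝ) ≤ n := by exact_mod_cast hn
  have hn0 : (0 : ℝ) < n := by linarith
  have h1 : 1 / (n : ℝ) ≤ 1 / 2 := one_div_le_one_div_of_le (by norm_num) hn'
  have h0 : 0 < 1 / (n : ℝ) := by positivity
  have h2 := one_add_mul_self_le_rpow_one_add (s := -(1 / (n : ℝ))) (by linarith)
    (p := n / 2) (by linarith)
  have h3 : 1 + (n : ℝ) / 2 * -(1 / (n : ℝ)) = 1 / 2 := by field_simp; norm_num
  rw [h3, ← sub_eq_add_neg] at h2
  have h4 : ((1 - 1 / (n : ℝ)) ^ ((n : ℝ) / 2)) ^ 2 = (1 - 1 / (n : ℝ)) ^ n := by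
    rw [← Real.rpow_natCast, ← Real.rpow_mul (by linarith), ← Real.rpow_natCast]
    congr 1
    push_cast
    ring
  rw [← h4]
  nlinarith

end COMB_

theorem p_COMB (h1 : T_SEL) (h2 : T_MID) (h3 : T_GOOD) (h4 : T_PLB) : T_COMB := by
  intro n K L u c m hn hK hL hcov hF hD hm hexp
  have hm' : (1 : ℝ) ≤ m := by exact_mod_cast hm
  obtain ⟨v, hhalf, hdisj⟩ := h1 n K L u c (2 * m) hn hK hL hcov hF hD (by linarith) hexp
  refine ⟨v, ?_⟩
  set p : E n := (1 / 2 : ℝ) • (c - v) with hp
  set B : Fin (n + 1) → Set (E n) := fun j => {x | x ∈ K ∧ Viol K L u (2 * m) p v x j} with hB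
  set B' : Fin (n + 1) → Set (E n) := fun j => {x | x ∈ K ∧ Viol K L u m p v x j} with hB'
  set G : Fin (n + 1) → Set (E n) := fun j => {x | x ∈ K ∧ ¬ Viol K L u (2 * m) p v x j} with hG
  set G' : Fin (n + 1) → Set (E n) := fun j => {x | x ∈ K ∧ ¬ Viol K L u m p v x j} with hG'
  have hKm : MeasurableSet K := hK.2.1.isClosed.measurableSet
  have hKf : volume K ≠ ⊤ := hK.2.1.measure_lt_top.ne
  have hGm : ∀ j, MeasurableSet (G j) := fun j =>
    (h2 n K L u c v (2 * m) j hn hK hL hD (by linarith)).2.measurableSet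
  have hGm' : ∀ j, MeasurableSet (G' j) := fun j =>
    (h2 n K L u c v m j hn hK hL hD hm').2.measurableSet
  have hBG : ∀ j, B j = K \ G j := fun j => by
    ext x
    simp only [hB, hG, Set.mem_ofPred_eq, Set.mem_sdiff, not_and, not_not]
    constructor
    · rintro ⟨hx, h⟩
      exact ⟨hx, fun _ => h⟩
    · rintro ⟨hx, h⟩
      exact ⟨hx, h hx⟩
  have hBG' : ∀ j, B' j = K \ G' j := fun j => by
    ext x
    simp only [hB', hG', Set.mem_ofPred_eq, Set.mem_sdiff, not_and, not_not]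
    constructor
    · rintro ⟨hx, h⟩
      exact ⟨hx, fun _ => h⟩
    · rintro ⟨hx, h⟩
      exact ⟨hx, h hx⟩
  have hBm : ∀ j, MeasurableSet (B j) := fun j => by rw [hBG]; exact hKm.diff (hGm j)
  have hBm' : ∀ j, MeasurableSet (B' j) := fun j => by rw [hBG']; exact hKm.diff (hGm' j)
  have hBK : ∀ j, B j ⊆ K := fun j x hx => hx.1
  have hBK' : ∀ j, B' j ⊆ K := fun j x hx => hx.1
  have hGK : ∀ j, G j ⊆ K := fun j x hx => hx.1
  have hGK' : ∀ j, G' j ⊆ K := fun j x hx => hx.1
  have hBf : ∀ j, volume (B j) ≠ ⊤ := fun j => ((measure_mono (hBK j)).trans_lt hKf.lt_top).ne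
  have hBf' : ∀ j, volume (B' j) ≠ ⊤ := fun j => ((measure_mono (hBK' j)).trans_lt hKf.lt_top).ne
  have hGf' : ∀ j, volume (G' j) ≠ ⊤ := fun j => ((measure_mono (hGK' j)).trans_lt hKf.lt_top).ne
  have hGr : ∀ j, volume.real (G j) = volume.real K - volume.real (B j) := fun j => by
    have e : G j = K \ B j := by rw [hBG, sdiff_sdiff_right_self]; exact (Set.inter_eq_self_of_subset_right (hGK j)).symm
    rw [e, measureReal_sdiff (hBK j) (hBm j) hKf]
  have hGr' : ∀ j, volume.real (G' j) = volume.real K - volume.real (B' j) := fun j => by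
    have e : G' j = K \ B' j := by rw [hBG', sdiff_sdiff_right_self]; exact (Set.inter_eq_self_of_subset_right (hGK' j)).symm
    rw [e, measureReal_sdiff (hBK' j) (hBm' j) hKf]
  -- the sum of the volumes of the bad sets
  have hsum : ∑ j, volume.real (B j) ≤ volume.real K := by
    have e1 : volume (⋃ j, B j) = ∑ j, volume (B j) := by
      rw [measure_iUnion _ hBm, tsum_fintype]
      intro i j hij
      rw [Function.onFun, Set.disjoint_left]
      intro x hx hx'
      exact hdisj x hx.1 i j hij hx.2 hx'.2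
    have e2 : ∑ j, volume (B j) ≤ volume K := by
      rw [← e1]
      exact measure_mono (Set.iUnion_subset hBK)
    have e3 := ENNReal.toReal_mono hKf e2
    rwa [ENNReal.toReal_sum fun j _ => hBf j] at e3
  have hb : ∀ j, volume.real (B' j) ≤ 3 / 5 * volume.real (B j) := by
    intro j
    have e1 : volume K * volume (G j) ≤ volume (G' j) ^ 2 := by
      refine h4 n K (G j) (G' j) hKm (hGm j) (hGm' j) fun x hx x' hx' => ⟨?_, ?_⟩
      · have := hK.2.2 hx hx'.1 (by norm_num : (0 : ℝ) ≤ 1 / 2) (by norm_num : (0 : ℝ) ≤ 1 / 2)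
          (by norm_num)
        rwa [← smul_add] at this
      · have := (h2 n K L u c v (2 * m) j hn hK hL hD (by linarith)).1 x hx x' hx'.1 hx'.2
        rwa [show (2 * (m : ℝ)) / 2 = m by ring] at this
    have e2 := ENNReal.toReal_mono (ENNReal.pow_ne_top (hGf' j)) e1
    rw [ENNReal.toReal_mul, ENNReal.toReal_pow] at e2
    change volume.real K * volume.real (G j) ≤ volume.real (G' j) ^ 2 at e2
    rw [hGr, hGr'] at e2
    apply COMB_.real_ineq measureReal_nonneg _ _ e2
    · have e3 := ENNReal.toReal_mono (ENNReal.div_ne_top hKf (by norm_num)) (hhalf j)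
      rw [ENNReal.toReal_div, ENNReal.toReal_ofNat] at e3
      exact e3
    · exact ENNReal.toReal_mono hKf (measure_mono (hBK' j))
  -- the points without violation
  set S : Set (E n) := {x | x ∈ K ∧ ∀ j, ¬ Viol K L u m p v x j} with hS
  have hSf : volume S ≠ ⊤ := ((measure_mono (fun x hx => hx.1)).trans_lt hKf.lt_top).ne
  have hcover : K ⊆ S ∪ ⋃ j, B' j := by
    intro x hx
    by_cases h : ∀ j, ¬ Viol K L u m p v x j
    · exact Or.inl ⟨hx, h⟩
    · push Not at h
      obtain ⟨j, hj⟩ := h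
      exact Or.inr (Set.mem_iUnion.2 ⟨j, hx, hj⟩)
  have hSV : volume.real K ≤ volume.real S + ∑ j, volume.real (B' j) := by
    have e1 : volume K ≤ volume S + ∑ j, volume (B' j) :=
      (measure_mono hcover).trans ((measure_union_le _ _).trans
        (add_le_add le_rfl (measure_iUnion_fintype_le _ _)))
    have hs : ∑ j, volume (B' j) ≠ ⊤ := (ENNReal.sum_lt_top.2 fun j _ => (hBf' j).lt_top).ne
    have e2 := ENNReal.toReal_mono (ENNReal.add_ne_top.2 ⟨hSf, hs⟩) e1
    rwa [ENNReal.toReal_add hSf hs, ENNReal.toReal_sum fun j _ => hBf' j] at e2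
  have hSV2 : 2 / 5 * volume.real K ≤ volume.real S := by
    have e1 : ∑ j, volume.real (B' j) ≤ ∑ j, 3 / 5 * volume.real (B j) :=
      sum_le_sum fun j _ => hb j
    rw [← mul_sum] at e1
    linarith
  have hn' : (2 : ℝ) ≤ n := by exact_mod_cast hn
  have hn0 : (0 : ℝ) < n := by linarith
  have hn1 : 1 / (n : ℝ) ≤ 1 / 2 := one_div_le_one_div_of_le (by norm_num) hn'
  have himg : (fun x => (1 - 1 / (n : ℝ)) • x + (1 / (n : ℝ)) • p) '' S ⊆ lev K L m v := by
    rintro _ ⟨x, hx, rfl⟩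
    exact h3 n K L u p v m hn hF x hx.2
  have hvol := measure_mono (μ := volume) himg
  rw [vol_aff (1 - 1 / (n : ℝ)) (by linarith) ((1 / (n : ℝ)) • p) S] at hvol
  have hfac := COMB_.factor hn
  have f1 : volume K ≤ ENNReal.ofReal (5 / 2) * volume S := by
    rw [← ENNReal.ofReal_toReal hKf, ← ENNReal.ofReal_toReal hSf, ← ENNReal.ofReal_mul (by norm_num)]
    apply ENNReal.ofReal_le_ofReal
    change volume.real K ≤ 5 / 2 * volume.real S
    linarith
  calc volume K ≤ ENNReal.ofReal (5 / 2) * volume S := f1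
    _ = ENNReal.ofReal 10 * (ENNReal.ofReal (1 / 4) * volume S) := by
      rw [← mul_assoc, ← ENNReal.ofReal_mul (by norm_num)]
      norm_num
    _ ≤ ENNReal.ofReal 10 * (ENNReal.ofReal ((1 - 1 / (n : ℝ)) ^ n) * volume S) := by
      gcongr
    _ ≤ ENNReal.ofReal 10 * volume (lev K L m v) := by
      gcongr
    _ = 10 * volume (lev K L m v) := by
      rw [ENNReal.ofReal_ofNat]

end Pool.Agent.ShadowA
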