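import Mathlib
import Pool.Agent.ShadowA.Targets

/-!
The determinant of a modified frame.
-/

set_option autoImplicit false

open Finset MeasureTheory

namespace Pool.Agent.ShadowA

open Pool.Agent.Shadow

namespace DET_

/-- the determinant of a balanced tuple may be computed without its vector number `i` -/
theorem detm_eq {n : ℕ} (τ : Fin (n + 1) → E n) (h : ∑ k, τ k = 0) (i : Fin (n + 1)) :
    detm τ = |Matrix.det (Matrix.of fun a j : Fin n => τ (i.succAbove a) j)| := by
  let M : Matrix (Fin (n + 1)) (Fin n) ℝ := Matrix.of fun k j => τ k j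
  have hM : ∑ j, M j = 0 := by
    ext j
    rw [Finset.sum_apply]
    have := congrFun (congrArg (fun x : E n => (x : Fin n → ℝ)) h) j
    simpa [M] using this
  have h1 := Matrix.submatrix_succAbove_det_eq_negOnePow_submatrix_succAbove_det M hM 0 i
  have h2 : (M.submatrix (Fin.succAbove 0) id) = Matrix.of fun i j : Fin n => τ i.succ j := by
    ext a j
    simp [M]
  have h3 : (M.submatrix (Fin.succAbove i) id) =
      Matrix.of fun a j : Fin n => τ (i.succAbove a) j := by
    ext a j
    simp [M]
  rw [h2, h3] at h1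
  unfold detm
  rw [h1]
  rw [Units.smul_def, zsmul_eq_mul, abs_mul]
  have h4 : |(((Int.negOnePow (((0 : Fin (n + 1)) : ℕ) - (i : ℕ)) : ℤˣ) : ℤ) : ℝ)| = 1 := by
    rcases Int.units_eq_one_or (Int.negOnePow (((0 : Fin (n + 1)) : ℕ) - (i : ℕ))) with h5 | h5 <;>
      rw [h5] <;> simp
  rw [h4, one_mul]

/-- the determinant of a diagonal matrix with one row replaced -/
theorem det_diag {n : ℕ} (d v : Fin n → ℝ) (a : Fin n) :
    ((Matrix.diagonal d).updateRow a v).det = (∏ b ∈ univ.erase a, d b) * v a := by
  rw [← Matrix.cramer_transpose_apply, Matrix.diagonal_transpose, Matrix.cramer_eq_adjugate_mulVec,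
    Matrix.adjugate_diagonal, Matrix.mulVec_diagonal]

end DET_

open DET_ in
theorem p_DET : T_DET := by
  intro n u τ i m him hu hτ w d hm hd
  obtain ⟨a, ha⟩ := Fin.exists_succAbove_eq (Ne.symm him)
  rw [detm_eq τ hτ i, detm_eq u hu i]
  set U : Matrix (Fin n) (Fin n) ℝ := Matrix.of fun a j : Fin n => u (i.succAbove a) j with hU
  set P : Matrix (Fin n) (Fin n) ℝ := (Matrix.diagonal fun b => d (i.succAbove b)).updateRow a
    (fun b => w i - w (i.succAbove b)) with hP
  have hvec : vec u w = ∑ b, (w i - w (i.succAbove b)) • u (i.succAbove b) := by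
    unfold vec
    rw [Fin.sum_univ_succAbove _ i] at hu ⊢
    have h1 : u i = - ∑ b, u (i.succAbove b) := eq_neg_of_add_eq_zero_left hu
    rw [h1]
    simp only [sub_smul, Finset.sum_sub_distrib, ← Finset.smul_sum]
    rw [smul_neg]
    abel
  have hPU : (Matrix.of fun b j : Fin n => τ (i.succAbove b) j) = P * U := by
    ext b j
    rw [Matrix.mul_apply, Matrix.of_apply]
    by_cases hb : b = a
    · subst hb
      rw [ha, hm, hvec]
      simp only [hP, Matrix.updateRow_self, hU, Matrix.of_apply]
      simp
    · rw [hd (i.succAbove b) (Fin.succAbove_ne i b) (by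
        rw [← ha]
        exact fun h => hb (Fin.succAbove_right_injective h))]
      rw [hP]
      simp only [Matrix.updateRow_ne hb, hU, Matrix.of_apply, Matrix.diagonal_apply]
      simp
  rw [hPU, Matrix.det_mul, abs_mul, hP, det_diag, abs_mul, ha, Finset.abs_prod]
  have h1 : ∏ b ∈ univ.erase a, |d (i.succAbove b)| = ∏ k ∈ (univ.erase i).erase m, |d k| := by
    refine Finset.prod_nbij i.succAbove ?_ ?_ ?_ ?_
    · intro b hb
      rw [Finset.mem_erase] at hb
      rw [Finset.mem_erase, Finset.mem_erase]
      exact ⟨fun h => hb.1 (Fin.succAbove_right_injective (h.trans ha.symm)),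
        Fin.succAbove_ne i b, Finset.mem_univ _⟩
    · intro b _ b' _ h
      exact Fin.succAbove_right_injective h
    · intro k hk
      rw [Finset.mem_coe, Finset.mem_erase, Finset.mem_erase] at hk
      obtain ⟨b, hb⟩ := Fin.exists_succAbove_eq hk.2.1
      refine ⟨b, ?_, hb⟩
      rw [Finset.mem_coe, Finset.mem_erase]
      refine ⟨?_, Finset.mem_univ _⟩
      rintro rfl
      exact hk.1 (hb.symm.trans ha)
    · intro b _
      rfl
  rw [h1]
  ring

end Pool.Agent.ShadowA
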