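import Pool.Agent.ShadowA.Targets

set_option autoImplicit false

namespace Pool.Agent.ShadowA

open Pool.Agent.Shadow

theorem p_DPV (h1 : T_WID) (h2 : T_CEN) : T_DPV := by
  intro n K L u hn hK hL hc hF hVK hVL
  obtain ⟨a, ha⟩ := h2 n K hn hK hVK
  obtain ⟨b, hb⟩ := h2 n L hn hL hVL
  refine ⟨a + b, fun v μ i j => ?_⟩
  set y := vec u μ with hy
  have hw := h1 n K L u hn hK hL hc hF μ i j
  rw [← hy] at hw
  have ha' := ha y
  have hb' := hb y
  have hwK := hs_neg_nonneg hK y
  have hwL := hs_neg_nonneg hL y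
  have hn' : (2 : ℝ) ≤ n := by exact_mod_cast hn
  have h3 : dep K y ((1 / 2 : ℝ) • (a + b - v)) =
      dep K y a / 2 + dep L y b / 2 + gv K L v y / 2 := by
    unfold dep gv gap
    rw [real_inner_smul_right, inner_sub_right, inner_add_right]
    ring
  rw [h3]
  have h4 : (μ j - μ i) / 8 ≤ (hs K y + hs K (-y)) / (4 * n) / 2 +
      (hs L y + hs L (-y)) / (4 * n) / 2 := by
    have h5 : (hs K y + hs K (-y)) / (4 * n) / 2 + (hs L y + hs L (-y)) / (4 * n) / 2 =
        (hs K y + hs K (-y) + (hs L y + hs L (-y))) / (8 * n) := by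
      field_simp
      ring
    rw [h5, div_le_div_iff₀ (by norm_num) (by positivity)]
    rcases le_or_gt (μ j) (μ i) with h6 | h6
    · have h7 : (μ j - μ i) * (8 * n) ≤ 0 := mul_nonpos_of_nonpos_of_nonneg (by linarith)
        (by positivity)
      linarith
    · have h8 : (n : ℝ) * (μ j - μ i) ≤ ((n : ℝ) + 1) * (μ j - μ i) :=
        mul_le_mul_of_nonneg_right (by linarith) (by linarith)
      linarith
  linarith

end Pool.Agent.ShadowA
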