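import Pool.Agent.ShadowA.Targets

/-!
# Covering shadows in high dimension: violations in two different clusters exclude each other
-/

set_option autoImplicit false

open Finset MeasureTheory

namespace Pool.Agent.ShadowA

open Pool.Agent.Shadow

namespace DSJ_

variable {n : ℕ} {K L : Set (E n)}

lemma gv_zero (hK : IsBody K) (hL : IsBody L) (v : E n) : gv K L v 0 = 0 := by
  have := gv_smul hK hL v le_rfl (0 : E n)
  simpa using this

lemma sum_gv {ι : Type*} (s : Finset ι) (v : E n) (τ : ι → E n) (h : ∑ k ∈ s, τ k = 0) :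
    ∑ k ∈ s, gv K L v (τ k) = ∑ k ∈ s, gap K L (τ k) := by
  unfold gv
  rw [Finset.sum_add_distrib, ← sum_inner, h, inner_zero_left, add_zero]

/-- the gap is positive for a violation -/
lemma gv_pos (hn : 2 ≤ n) (hK : IsBody K) {u : Fin (n + 1) → E n}
    {c v : E n} {lam : ℝ} (hDP : DP K L u c) (hlam : 1 ≤ lam) {x : E n} (hx : x ∈ K)
    {μ : Fin (n + 1) → ℝ} (i : Fin (n + 1))
    (hv : (1 - 1 / (n : ℝ)) * dep K (vec u μ) x +
      1 / (n : ℝ) * dep K (vec u μ) ((1 / 2 : ℝ) • (c - v)) < lam * gv K L v (vec u μ)) :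
    0 < gv K L v (vec u μ) := by
  have hn' : (2 : ℝ) ≤ n := by exact_mod_cast hn
  have hn0 : (0 : ℝ) < n := by linarith
  have hinv : 1 / (n : ℝ) ≤ 1 / 2 := one_div_le_one_div_of_le (by norm_num) hn'
  have hinv0 : 0 < 1 / (n : ℝ) := by positivity
  have h1 := hDP v μ i i
  rw [sub_self, zero_div, zero_add] at h1
  have h2 := dep_nonneg hK hx (vec u μ)
  by_contra hcon
  push Not at hcon
  set g := gv K L v (vec u μ) with hg
  have h3 : lam * g ≤ g := by nlinarith
  have h4 : 1 / (n : ℝ) * (g / 2) ≤ 1 / (n : ℝ) * dep K (vec u μ) ((1 / 2 : ℝ) • (c - v)) :=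
    mul_le_mul_of_nonneg_left h1 hinv0.le
  have h5 : 0 ≤ (1 - 1 / (n : ℝ)) * dep K (vec u μ) x :=
    mul_nonneg (by linarith) h2
  have h6 : g ≤ 1 / (n : ℝ) * (g / 2) := by nlinarith
  linarith

/-- normalisation of a violation -/
lemma normalize (hn : 2 ≤ n) (hK : IsBody K) (hL : IsBody L) {u : Fin (n + 1) → E n}
    {c v : E n} {lam : ℝ} (hDP : DP K L u c) (hlam : 1 ≤ lam)
    (hpos : ∀ k, 0 < gv K L v (u k)) {x : E n} (hx : x ∈ K) {i : Fin (n + 1)}
    (hV : Viol K L u lam ((1 / 2 : ℝ) • (c - v)) v x i) :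
    ∃ μ : Fin (n + 1) → ℝ, (∀ k, 0 ≤ μ k) ∧ μ i = 0 ∧
      ∑ k, μ k * gv K L v (u k) = n + 1 ∧ 0 < gv K L v (vec u μ) ∧
      (1 - 1 / (n : ℝ)) * dep K (vec u μ) x +
        1 / (n : ℝ) * dep K (vec u μ) ((1 / 2 : ℝ) • (c - v)) < lam * gv K L v (vec u μ) := by
  obtain ⟨μ, hμ, hμi, hv⟩ := hV
  have hg := gv_pos hn hK hDP hlam hx i hv
  have hN : 0 < ∑ k, μ k * gv K L v (u k) := by
    rcases (Finset.sum_nonneg fun k (_ : k ∈ (univ : Finset (Fin (n + 1)))) =>
      mul_nonneg (hμ k) (hpos k).le).lt_or_eq with h | h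
    · exact h
    · exfalso
      have h0 := (Finset.sum_eq_zero_iff_of_nonneg fun k (_ : k ∈ (univ : Finset (Fin (n + 1)))) =>
        mul_nonneg (hμ k) (hpos k).le).1 h.symm
      have hμ0 : ∀ k, μ k = 0 := by
        intro k
        rcases mul_eq_zero.1 (h0 k (Finset.mem_univ k)) with h | h
        · exact h
        · exact absurd h (hpos k).ne'
      have hvec : vec u μ = 0 := by
        unfold vec
        rw [neg_eq_zero]
        exact Finset.sum_eq_zero fun k _ => by rw [hμ0 k, zero_smul]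
      rw [hvec, gv_zero hK hL v] at hg
      exact lt_irrefl _ hg
  set N := ∑ k, μ k * gv K L v (u k) with hNdef
  have hn1 : (0 : ℝ) < n + 1 := by positivity
  set a : ℝ := (n + 1) / N with ha
  have ha0 : 0 < a := div_pos hn1 hN
  refine ⟨fun k => a * μ k, fun k => mul_nonneg ha0.le (hμ k), by simp [hμi], ?_, ?_, ?_⟩
  · have : ∑ k, a * μ k * gv K L v (u k) = a * N := by
      rw [hNdef, Finset.mul_sum]
      exact Finset.sum_congr rfl fun k _ => by ring
    rw [this, ha]
    field_simp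
  · rw [vec_smul, gv_smul hK hL v ha0.le]
    exact mul_pos ha0 hg
  · rw [vec_smul, gv_smul hK hL v ha0.le, dep_smul hK ha0.le, dep_smul hK ha0.le]
    have := mul_lt_mul_of_pos_left hv ha0
    calc (1 - 1 / (n : ℝ)) * (a * dep K (vec u μ) x) +
          1 / (n : ℝ) * (a * dep K (vec u μ) ((1 / 2 : ℝ) • (c - v)))
        = a * ((1 - 1 / (n : ℝ)) * dep K (vec u μ) x +
          1 / (n : ℝ) * dep K (vec u μ) ((1 / 2 : ℝ) • (c - v))) := by ring
      _ < a * (lam * gv K L v (vec u μ)) := this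
      _ = lam * (a * gv K L v (vec u μ)) := by ring

/-- one of the coordinates is at least one -/
lemma exists_one_le {u : Fin (n + 1) → E n} {v : E n}
    (hpos : ∀ k, 0 < gv K L v (u k)) (hsum : ∑ k, gv K L v (u k) = n + 1)
    {μ : Fin (n + 1) → ℝ} (hμ : ∑ k, μ k * gv K L v (u k) = n + 1) : ∃ j, 1 ≤ μ j := by
  by_contra hcon
  push Not at hcon
  have : ∑ k, μ k * gv K L v (u k) < ∑ k, gv K L v (u k) := by
    refine Finset.sum_lt_sum_of_nonempty ⟨0, Finset.mem_univ _⟩ fun k _ => ?_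
    have := mul_lt_mul_of_pos_right (hcon k) (hpos k)
    rwa [one_mul] at this
  rw [hμ, hsum] at this
  exact lt_irrefl _ this

/-- the depth of the deep point -/
lemma dep_p {u : Fin (n + 1) → E n} {c v : E n} (hDP : DP K L u c)
    (hpos : ∀ k, 0 < gv K L v (u k)) (hsum : ∑ k, gv K L v (u k) = n + 1)
    {μ : Fin (n + 1) → ℝ} {i : Fin (n + 1)} (hμi : μ i = 0)
    (hμ : ∑ k, μ k * gv K L v (u k) = n + 1) :
    1 / 8 + gv K L v (vec u μ) / 2 ≤ dep K (vec u μ) ((1 / 2 : ℝ) • (c - v)) := by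
  obtain ⟨j, hj⟩ := exists_one_le hpos hsum hμ
  have h := hDP v μ i j
  rw [hμi, sub_zero] at h
  linarith

end DSJ_

open DSJ_ in
theorem p_DSJ (h1 : T_TIE) (h2 : T_EMX) (h3 : T_PAIR) (h4 : T_NUM) (h5 : T_DET) : T_DSJ := by
  intro n K L u c v lam s hn hK hL hcov hF hDP hlam hs hpos hprod hnum x hx i j hij hVi hVj
  have hn' : (2 : ℝ) ≤ n := by exact_mod_cast hn
  have hn0 : (0 : ℝ) < n := by linarith
  have hn1 : (0 : ℝ) < (n : ℝ) + 1 := by linarith
  have hinv : 1 / (n : ℝ) ≤ 1 / 2 := one_div_le_one_div_of_le (by norm_num) hn'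
  have hinv0 : 0 < 1 / (n : ℝ) := by positivity
  obtain ⟨μ, hμ, hμi, hμs, hμg, hμv⟩ := normalize hn hK hL hDP hlam hpos hx hVi
  obtain ⟨ν, hν, hνj, hνs, hνg, hνv⟩ := normalize hn hK hL hDP hlam hpos hx hVj
  have hsum : ∑ k, gv K L v (u k) = n + 1 := by
    rw [sum_gv _ v u hF.sum]
    exact hF.tot_eq
  -- (c)
  have hνi : 0 < ν i := by
    rcases (hν i).lt_or_eq with h | h
    · exact h
    · exfalso
      set τ : Fin (n + 1) → E n := fun k => if k = j then vec u ν else ν k • u k with hτ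
      have hτj : τ j = vec u ν := by simp [hτ]
      have hτk : ∀ k, k ≠ j → τ k = ν k • u k := fun k hk => by simp [hτ, hk]
      have hsumu : ∑ k ∈ univ.erase j, ν k • u k = ∑ k, ν k • u k := by
        rw [← Finset.add_sum_erase univ (fun k => ν k • u k) (Finset.mem_univ j), hνj, zero_smul,
          zero_add]
      have hτs : ∑ k, τ k = 0 := by
        rw [← Finset.add_sum_erase univ τ (Finset.mem_univ j), hτj]
        have : ∑ k ∈ univ.erase j, τ k = ∑ k ∈ univ.erase j, ν k • u k :=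
          Finset.sum_congr rfl fun k hk => hτk k (Finset.ne_of_mem_erase hk)
        rw [this, hsumu]
        unfold vec
        rw [neg_add_cancel]
      have htot : tot K L τ = gv K L v (vec u ν) + (n + 1) := by
        unfold tot
        rw [← sum_gv univ v τ hτs, ← Finset.add_sum_erase univ _ (Finset.mem_univ j), hτj]
        congr 1
        rw [← hνs, ← Finset.add_sum_erase univ (fun k => ν k * gv K L v (u k))
          (Finset.mem_univ j), hνj, zero_mul, zero_add]
        refine Finset.sum_congr rfl fun k hk => ?_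
        rw [hτk k (Finset.ne_of_mem_erase hk), gv_smul hK hL v (hν k)]
      have hdet := h5 n u τ j i (Ne.symm hij) hF.sum hτs (fun _ => 0) ν (by
        rw [hτk i hij, ← h, zero_smul]
        unfold vec
        simp) (fun k hk _ => hτk k hk)
      rw [sub_self, abs_zero, zero_mul, zero_mul] at hdet
      have hmax := hF.max τ hτs (by rw [htot]; positivity)
      rw [hdet, htot] at hmax
      have : 0 < ((gv K L v (vec u ν) + (n + 1)) / (n + 1)) ^ n * detm u := by
        have := hF.det_pos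
        positivity
      linarith
  -- (d)
  obtain ⟨t, m, ht0, ht1, hmi, hle, heq⟩ := h1 n μ ν i j hμ hν hμi hνj hνi
  have hT : Tie K L u v μ ν i m t :=
    ⟨hpos, hμ, hν, hμs, hνs, hμi, hmi, ht0, ht1, hle, heq⟩
  obtain ⟨hD0, hE⟩ := h2 n K L u v μ ν i m t hn hK hL hF hT _ _ _ rfl rfl rfl
  have hP := h3 n K L u v μ ν i m t hn hK hL hcov hF hT _ _ _ rfl rfl rfl x hx
  set A : ℝ := t * gv K L v (vec u μ) + (1 - t) * gv K L v (vec u ν) with hA
  set D : ℝ := ((n : ℝ) + 1) * (1 - (1 - t) * ν i) with hD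
  have hdμ := dep_p hDP hpos hsum hμi hμs
  have hdν := dep_p hDP hpos hsum hνj hνs
  have hA0 : 0 < A := by
    rcases ht0.lt_or_eq with h | h
    · have := mul_pos h hμg
      have := mul_nonneg (sub_nonneg.2 ht1) hνg.le
      linarith
    · rw [hA, ← h]
      linarith
  have hcomb : (1 - 1 / (n : ℝ)) * (t * dep K (vec u μ) x + (1 - t) * dep K (vec u ν) x) +
      1 / (n : ℝ) * (t * dep K (vec u μ) ((1 / 2 : ℝ) • (c - v)) +
        (1 - t) * dep K (vec u ν) ((1 / 2 : ℝ) • (c - v))) < lam * A := by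
    rcases ht0.lt_or_eq with h | h
    · have e1 := mul_lt_mul_of_pos_left hμv h
      have e2 := mul_le_mul_of_nonneg_left hνv.le (sub_nonneg.2 ht1)
      rw [hA]
      linarith
    · rw [hA, ← h]
      linarith
  have hb : 1 / 8 + A / 2 ≤ t * dep K (vec u μ) ((1 / 2 : ℝ) • (c - v)) +
        (1 - t) * dep K (vec u ν) ((1 / 2 : ℝ) • (c - v)) := by
    have e1 := mul_le_mul_of_nonneg_left hdμ ht0
    have e2 := mul_le_mul_of_nonneg_left hdν (sub_nonneg.2 ht1)
    rw [hA]
    linarith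
  have hlt : (1 - 1 / (n : ℝ)) * D + 1 / (8 * n) < lam * A := by
    have e1 := mul_le_mul_of_nonneg_left hP (show 0 ≤ 1 - 1 / (n : ℝ) by linarith)
    have e2 := mul_le_mul_of_nonneg_left hb hinv0.le
    have e3 : 1 / (8 * (n : ℝ)) = 1 / (n : ℝ) * (1 / 8) := by
      rw [one_div_mul_one_div, mul_comm]
    have e4 : 0 ≤ (1 - 1 / (n : ℝ)) * A := mul_nonneg (by linarith) hA0.le
    have e5 : 0 ≤ 1 / (n : ℝ) * (A / 2) := mul_nonneg hinv0.le (by linarith)
    rw [e3]
    linarith
  have hfin : ((A + D) / (n + 1)) ^ n * s ≤ (D / (n - 1)) ^ (n - 1) := by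
    refine le_trans ?_ (hE (by linarith))
    exact mul_le_mul_of_nonneg_left (hprod i m hmi.symm) (by positivity)
  exact h4 n lam s A D hn hlam hs hD0 hlt hfin hnum

end Pool.Agent.ShadowA
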