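import Pool.Agent.ShadowA.Targets

set_option autoImplicit false

open Finset MeasureTheory

namespace Pool.Agent.ShadowA

open Pool.Agent.Shadow

namespace EMX_

theorem amgm {ι : Type} (s : Finset ι) (hs : 0 < s.card) (z : ι → ℝ) (hz : ∀ i ∈ s, 0 ≤ z i) :
    ∏ i ∈ s, z i ≤ ((∑ i ∈ s, z i) / s.card) ^ s.card := by
  have hc : (0 : ℝ) < s.card := by exact_mod_cast hs
  have h := Real.geom_mean_le_arith_mean s (fun _ => (1 : ℝ)) z (fun _ _ => zero_le_one)
    (by simpa using hc) hz
  simp only [Real.rpow_one, one_mul, Finset.sum_const, nsmul_eq_mul, mul_one] at h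
  have hp : 0 ≤ ∏ i ∈ s, z i := Finset.prod_nonneg hz
  have h2 := pow_le_pow_left₀ (by positivity) h s.card
  rw [← Real.rpow_natCast, ← Real.rpow_mul hp, inv_mul_cancel₀ hc.ne', Real.rpow_one] at h2
  exact h2

theorem card_er {n : ℕ} (i m : Fin (n + 1)) (h : m ≠ i) :
    ((univ.erase i).erase m).card = n - 1 := by
  rw [Finset.card_erase_of_mem (Finset.mem_erase.mpr ⟨h, Finset.mem_univ _⟩),
    Finset.card_erase_of_mem (Finset.mem_univ _)]
  simp

theorem split {M : Type} [AddCommMonoid M] {n : ℕ} (i m : Fin (n + 1)) (h : m ≠ i)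
    (F : Fin (n + 1) → M) :
    ∑ k, F k = F i + (F m + ∑ k ∈ (univ.erase i).erase m, F k) := by
  rw [Finset.add_sum_erase _ F (Finset.mem_erase.mpr ⟨h, Finset.mem_univ _⟩),
    Finset.add_sum_erase _ F (Finset.mem_univ _)]

end EMX_

open EMX_ in
theorem p_EMX (h : T_DET) : T_EMX := by
  intro n K L u v μ ν i m t hn hK hL hF hT f A D hf hA hD
  have hn1 : (0 : ℝ) < (n : ℝ) + 1 := by positivity
  set θ : Fin (n + 1) → ℝ := fun k => gv K L v (u k) with hθ
  have hθpos : ∀ k, 0 < θ k := hT.pos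
  have hgv : ∀ y, gv K L v y = gap K L y + inner ℝ y v := fun _ => rfl
  have hθsum : ∑ k, θ k = n + 1 := by
    have h1 : ∑ k, θ k = tot K L u + inner ℝ (∑ k, u k) v := by
      rw [tot, sum_inner, ← Finset.sum_add_distrib]
      rfl
    rw [h1, hF.sum, inner_zero_left, add_zero, hF.tot_eq]
  set c : Fin (n + 1) → ℝ := fun k => t * μ k + (1 - t) * ν k with hc
  have hci : c i = f := by simp only [hc, hT.mu_i, hf]; ring
  have hcm : c m = f := by simp only [hc]; rw [hT.eq, hf]
  have hcf : ∀ k, f ≤ c k := fun k => by rw [hf]; exact hT.le k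
  have hsumc : ∑ k, θ k * c k = n + 1 := by
    have h1 : ∑ k, θ k * c k = t * ∑ k, μ k * gv K L v (u k) +
        (1 - t) * ∑ k, ν k * gv K L v (u k) := by
      rw [Finset.mul_sum, Finset.mul_sum, ← Finset.sum_add_distrib]
      apply Finset.sum_congr rfl
      intro k _
      simp only [hθ, hc]; ring
    rw [h1, hT.mu_sum, hT.nu_sum]; ring
  have hDsum : ∑ k, θ k * (c k - f) = D := by
    have h1 : ∑ k, θ k * (c k - f) = ∑ k, θ k * c k - f * ∑ k, θ k := by
      rw [Finset.mul_sum, ← Finset.sum_sub_distrib]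
      apply Finset.sum_congr rfl
      intro k _
      ring
    rw [h1, hsumc, hθsum, hD]; ring
  have hD0 : 0 ≤ D := by
    rw [← hDsum]
    exact Finset.sum_nonneg (fun k _ => mul_nonneg (hθpos k).le (sub_nonneg.mpr (hcf k)))
  refine ⟨hD0, fun hAD => ?_⟩
  have hf1 : f ≤ 1 := by
    rw [hD] at hD0
    have := nonneg_of_mul_nonneg_right hD0 hn1
    linarith
  have ht1 : 0 ≤ 1 - t := sub_nonneg.mpr hT.t_le
  -- the modified frame
  set τ : Fin (n + 1) → E n := fun k =>
    if k = i then t • vec u μ else if k = m then (1 - t) • vec u ν else (c k - f) • u k with hτ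
  have τi : τ i = t • vec u μ := by simp [hτ]
  have τm : τ m = (1 - t) • vec u ν := by simp [hτ, hT.ne]
  have τk : ∀ k, k ≠ i → k ≠ m → τ k = (c k - f) • u k := by
    intro k hk1 hk2; simp [hτ, hk1, hk2]
  have hsplitτ : ∑ k, τ k = t • vec u μ + ((1 - t) • vec u ν +
      ∑ k ∈ (univ.erase i).erase m, (c k - f) • u k) := by
    rw [split i m hT.ne τ, τi, τm]
    congr 2
    apply Finset.sum_congr rfl
    intro k hk
    rw [Finset.mem_erase, Finset.mem_erase] at hk
    exact τk k hk.2.1 hk.1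
  have hrest : ∑ k ∈ (univ.erase i).erase m, (c k - f) • u k = - (t • vec u μ +
      (1 - t) • vec u ν) := by
    have h1 := split i m hT.ne (fun k => (c k - f) • u k)
    simp only [hci, hcm, sub_self, zero_smul, zero_add] at h1
    rw [← h1, ← vec_smul, ← vec_smul, ← vec_add, ← vec_const hF.sum _ f]
    unfold vec
    rw [neg_neg]
  have hτsum : ∑ k, τ k = 0 := by
    rw [hsplitτ, hrest]; abel
  have htot : tot K L τ = A + D := by
    have h1 : tot K L τ = ∑ k, gv K L v (τ k) := by
      have h2 : ∑ k, gv K L v (τ k) = tot K L τ + inner ℝ (∑ k, τ k) v := by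
        rw [tot, sum_inner, ← Finset.sum_add_distrib]
        rfl
      rw [h2, hτsum, inner_zero_left, add_zero]
    rw [h1, split i m hT.ne (fun k => gv K L v (τ k)), τi, τm, gv_smul hK hL v hT.t_nonneg,
      gv_smul hK hL v ht1]
    have h3 : ∑ k ∈ (univ.erase i).erase m, gv K L v (τ k) = D := by
      rw [← hDsum, split i m hT.ne (fun k => θ k * (c k - f))]
      simp only [hci, hcm, sub_self, mul_zero, zero_add]
      apply Finset.sum_congr rfl
      intro k hk
      rw [Finset.mem_erase, Finset.mem_erase] at hk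
      rw [τk k hk.2.1 hk.1, gv_smul hK hL v (sub_nonneg.mpr (hcf k))]
      ring
    rw [h3, hA]; ring
  have hdet := h n u τ i m hT.ne.symm hF.sum hτsum (fun k => (1 - t) * ν k)
    (fun k => c k - f) (by rw [τm, vec_smul]) τk
  have hw : |(1 - t) * ν i - (1 - t) * ν m| ≤ 1 := by
    have h1 : (1 - t) * ν m = f - t * μ m := by
      have := hcm
      simp only [hc] at this
      linarith
    have h2 : 0 ≤ (1 - t) * ν m := mul_nonneg ht1 (hT.nu_nonneg m)
    have h3 : 0 ≤ t * μ m := mul_nonneg hT.t_nonneg (hT.mu_nonneg m)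
    rw [← hf, h1, abs_le]
    constructor <;> linarith
  have hprod0 : 0 ≤ ∏ k ∈ (univ.erase i).erase m, |c k - f| :=
    Finset.prod_nonneg (fun k _ => abs_nonneg _)
  have hmax := hF.max τ hτsum (by rw [htot]; exact hAD)
  rw [htot, hdet] at hmax
  have hmax2 : ((A + D) / (n + 1)) ^ n * detm u ≤
      (∏ k ∈ (univ.erase i).erase m, |c k - f|) * detm u := by
    refine hmax.trans ?_
    apply mul_le_mul_of_nonneg_right _ hF.det_pos.le
    calc |(1 - t) * ν i - (1 - t) * ν m| * ∏ k ∈ (univ.erase i).erase m, |c k - f|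
        ≤ 1 * ∏ k ∈ (univ.erase i).erase m, |c k - f| := mul_le_mul_of_nonneg_right hw hprod0
      _ = _ := one_mul _
  have hmax3 := le_of_mul_le_mul_right hmax2 hF.det_pos
  have hθprod : 0 ≤ ∏ k ∈ (univ.erase i).erase m, θ k :=
    Finset.prod_nonneg (fun k _ => (hθpos k).le)
  have hcard := card_er i m hT.ne
  have hcast : (((univ.erase i).erase m).card : ℝ) = (n : ℝ) - 1 := by
    rw [hcard, Nat.cast_sub (by omega)]; simp
  calc ((A + D) / (n + 1)) ^ n * ∏ k ∈ (univ.erase i).erase m, θ k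
      ≤ (∏ k ∈ (univ.erase i).erase m, |c k - f|) * ∏ k ∈ (univ.erase i).erase m, θ k :=
        mul_le_mul_of_nonneg_right hmax3 hθprod
    _ = ∏ k ∈ (univ.erase i).erase m, (θ k * (c k - f)) := by
        rw [← Finset.prod_mul_distrib]
        apply Finset.prod_congr rfl
        intro k _
        rw [abs_of_nonneg (sub_nonneg.mpr (hcf k))]; ring
    _ ≤ ((∑ k ∈ (univ.erase i).erase m, θ k * (c k - f)) /
          ((univ.erase i).erase m).card) ^ ((univ.erase i).erase m).card :=
        amgm _ (by rw [hcard]; omega) _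
          (fun k _ => mul_nonneg (hθpos k).le (sub_nonneg.mpr (hcf k)))
    _ = (D / (n - 1)) ^ (n - 1) := by
        rw [hcast, hcard]
        have h3 := split i m hT.ne (fun k => θ k * (c k - f))
        simp only [hci, hcm, sub_self, mul_zero, zero_add] at h3
        rw [← h3, hDsum]

end Pool.Agent.ShadowA
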