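import Pool.Agent.ShadowA.Targets

/-!
# Covering shadows in high dimension: FITN
-/

set_option autoImplicit false

open Finset MeasureTheory
open scoped Pointwise

namespace Pool.Agent.ShadowA

open Pool.Agent.Shadow

namespace FITN_

variable {n : ℕ}

/-- `n + 1` points fit -/
lemma fit' {K L : Set (E n)} (hK : IsBody K) (hL : IsBody L)
    (hc : ∀ τ : Fin (n + 1) → E n, ∑ k, τ k = 0 → tot K L τ ≤ 0)
    (p : Fin (n + 1) → E n) (hp : ∀ i, p i ∈ K) : ∃ x : E n, ∀ i, p i + x ∈ L := by
  classical
  obtain ⟨hLn, hLc, hLv⟩ := id hL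
  -- the set of the tuples that fit
  set A : Set (Fin (n + 1) → E n) := Set.univ.pi fun _ => L with hA
  set Δ : Submodule ℝ (Fin (n + 1) → E n) := LinearMap.range (LinearMap.pi fun _ : Fin (n + 1) =>
    (LinearMap.id : E n →ₗ[ℝ] E n)) with hΔ
  have hAc : IsCompact A := isCompact_univ_pi fun _ => hLc
  have hAv : Convex ℝ A := convex_pi fun _ _ => hLv
  have hCl : IsClosed (A + (Δ : Set (Fin (n + 1) → E n))) :=
    (Submodule.closed_of_finiteDimensional Δ).add_left_of_isCompact hAc
  have hCv : Convex ℝ (A + (Δ : Set (Fin (n + 1) → E n))) := hAv.add Δ.convex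
  by_cases hmem : p ∈ A + (Δ : Set (Fin (n + 1) → E n))
  · obtain ⟨a, ha, b, hb, hab⟩ := hmem
    obtain ⟨x, hx⟩ := hb
    refine ⟨-x, fun i => ?_⟩
    have h1 : p i = a i + x := by rw [← hab, ← hx]; simp
    rw [h1, add_neg_cancel_right]
    exact ha i (Set.mem_univ i)
  · exfalso
    obtain ⟨f, u0, hf1, hf2⟩ := geometric_hahn_banach_point_closed hCv hCl hmem
    -- f vanishes on the diagonal
    have hconst : ∀ x : E n, (fun _ : Fin (n + 1) => x) ∈ Δ := fun x => ⟨x, by ext; simp⟩
    obtain ⟨l0, hl0⟩ := hLn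
    have hl0A : (fun _ : Fin (n + 1) => l0) ∈ A := fun i _ => hl0
    have hf0 : ∀ x : E n, f (fun _ => x) = 0 := by
      intro x
      by_contra hne
      set c : ℝ := (u0 - 1 - f (fun _ => l0)) / f (fun _ => x) with hc'
      have h1 := hf2 _ (Set.add_mem_add hl0A (hconst (c • x)))
      have h2 : (fun _ : Fin (n + 1) => c • x) = c • (fun _ : Fin (n + 1) => x) := rfl
      rw [map_add, h2, map_smul, smul_eq_mul, hc', div_mul_cancel₀ _ hne] at h1
      linarith
    -- components of f
    have hfs : ∀ q : Fin (n + 1) → E n, f q = ∑ i, f (Pi.single i (q i)) := by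
      intro q
      rw [← map_sum]
      congr 1
      exact (Finset.univ_sum_single q).symm
    have hφ : ∀ i : Fin (n + 1), ∃ φ : E n, ∀ x : E n, f (Pi.single i x) = inner ℝ φ x := by
      intro i
      refine ⟨(InnerProductSpace.toDual ℝ (E n)).symm
        (f.comp (ContinuousLinearMap.single ℝ (fun _ : Fin (n + 1) => E n) i)), fun x => ?_⟩
      rw [InnerProductSpace.toDual_symm_apply]
      rfl
    choose φ hφ using hφ
    have hsum : ∑ i, φ i = 0 := by
      rw [← inner_self_eq_zero (𝕜 := ℝ)]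
      have h1 := hf0 (∑ i, φ i)
      rw [hfs] at h1
      simp only [hφ] at h1
      rw [← sum_inner] at h1
      exact h1
    -- the tuple of the negatives
    have htot := hc (fun i => -φ i) (by rw [Finset.sum_neg_distrib, hsum, neg_zero])
    choose a haL ha using fun i => exists_hs hL (-φ i)
    have h2 := hf2 a ⟨a, fun i _ => haL i, 0, Δ.zero_mem, add_zero _⟩
    have h3 : f a = -∑ i, hs L (-φ i) := by
      rw [hfs, ← Finset.sum_neg_distrib]
      refine Finset.sum_congr rfl fun i _ => ?_
      rw [hφ, ← ha i, inner_neg_left, neg_neg]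
    have h4 : -f p ≤ ∑ i, hs K (-φ i) := by
      rw [hfs, ← Finset.sum_neg_distrib]
      refine Finset.sum_le_sum fun i _ => ?_
      rw [hφ, ← inner_neg_left]
      exact inner_le_hs hK (hp i) _
    have h5 : ∑ i, hs K (-φ i) - ∑ i, hs L (-φ i) ≤ 0 := by
      rw [← Finset.sum_sub_distrib]
      exact htot
    linarith

/-- the inclusion -/
lemma incl' {K L : Set (E n)} (hK : IsBody K) (hL : IsBody L)
    (hc : ∀ τ : Fin (n + 1) → E n, ∑ k, τ k = 0 → tot K L τ ≤ 0) :
    ∃ y : E n, ∀ p ∈ K, p + y ∈ L := by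
  classical
  have key := Convex.helly_theorem_compact' (𝕜 := ℝ) (ι := K)
    (F := fun p : K => {y : E n | (p : E n) + y ∈ L}) ?_ ?_ ?_
  · obtain ⟨y, hy⟩ := key
    rw [Set.mem_iInter] at hy
    exact ⟨y, fun p hp => hy ⟨p, hp⟩⟩
  · intro p
    exact hL.2.2.translate_preimage_right (p : E n)
  · intro p
    have : {y : E n | (p : E n) + y ∈ L} = (fun y => y - (p : E n)) '' L := by
      ext y
      simp only [Set.mem_ofPred_eq, Set.mem_image]
      constructor
      · intro h
        exact ⟨_, h, by abel⟩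
      · rintro ⟨z, hz, rfl⟩
        rw [add_sub_cancel]
        exact hz
    rw [this]
    exact hL.2.1.image (by fun_prop)
  · intro I hI
    rw [finrank_euclideanSpace_fin] at hI
    rcases I.eq_empty_or_nonempty with rfl | ⟨q0, hq0⟩
    · simp
    · obtain ⟨p, hp⟩ : ∃ p : Fin (n + 1) → K, ∀ q ∈ I, ∃ i, p i = q := by
        have hle : Fintype.card I ≤ Fintype.card (Fin (n + 1)) := by simpa using hI
        obtain ⟨g⟩ := Function.Embedding.nonempty_of_card_le hle
        refine ⟨fun i => if h : ∃ a : I, g a = i then (h.choose : K) else q0, fun q hq => ?_⟩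
        refine ⟨g ⟨q, hq⟩, ?_⟩
        have hex : ∃ a : I, g a = g ⟨q, hq⟩ := ⟨_, rfl⟩
        beta_reduce
        rw [dif_pos hex]
        have := g.injective hex.choose_spec
        rw [this]
      obtain ⟨y, hy⟩ := fit' hK hL hc (fun i => (p i : E n)) fun i => (p i).2
      refine ⟨y, ?_⟩
      simp only [Set.mem_iInter]
      intro q hq
      obtain ⟨i, rfl⟩ := hp q hq
      exact hy i

end FITN_

theorem p_FITN : T_FITN := by
  intro n K L _ hK hL hc
  obtain ⟨y, hy⟩ := FITN_.incl' hK hL hc
  calc volume K ≤ volume ((fun x => x + y) ⁻¹' L) := measure_mono fun p hp => hy p hp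
    _ = volume L := measure_preimage_add_right _ _ _

end Pool.Agent.ShadowA
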