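import Mathlib
import Pool.Agent.ShadowA.Targets

/-!
# FNUM: the choice of the level
-/

set_option autoImplicit false

namespace Pool.Agent.ShadowA

namespace FNUM_

lemma exp_nat (k : ℕ) : Real.exp k = Real.exp 1 ^ k := by
  rw [← Real.exp_nat_mul, mul_one]

lemma exp5 : Real.exp 5 < 149 := by
  have h := exp_nat 5
  have h2 : Real.exp 1 ^ 5 < 2.7182818286 ^ 5 :=
    pow_lt_pow_left₀ Real.exp_one_lt_d9 (Real.exp_pos 1).le (by norm_num)
  push_cast at h
  rw [h]
  refine h2.trans ?_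
  norm_num

lemma exp7 : Real.exp 7 < 1100 := by
  have h := exp_nat 7
  have h2 : Real.exp 1 ^ 7 < 2.7182818286 ^ 7 :=
    pow_lt_pow_left₀ Real.exp_one_lt_d9 (Real.exp_pos 1).le (by norm_num)
  push_cast at h
  rw [h]
  refine h2.trans ?_
  norm_num

lemma exp5' : 100 < Real.exp 5 := by
  have h := exp_nat 5
  have h2 : (2.7182818283 : ℝ) ^ 5 < Real.exp 1 ^ 5 :=
    pow_lt_pow_left₀ Real.exp_one_gt_d9 (by norm_num) (by norm_num)
  push_cast at h
  rw [h]
  refine lt_trans ?_ h2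
  norm_num

lemma exp2 : Real.exp 2 < 7.4 := by
  have h := exp_nat 2
  have h2 : Real.exp 1 ^ 2 < 2.7182818286 ^ 2 :=
    pow_lt_pow_left₀ Real.exp_one_lt_d9 (Real.exp_pos 1).le (by norm_num)
  push_cast at h
  rw [h]
  refine h2.trans ?_
  norm_num

lemma log10 : Real.log 10 ≤ 5 / 2 := by
  have h1 : Real.log ((10 : ℝ) ^ 2) ≤ 5 := by
    rw [Real.log_le_iff_le_exp (by norm_num)]
    have := exp5'
    norm_num
    linarith
  rw [Real.log_pow] at h1
  push_cast at h1
  linarith

/-- the lower bounds for `n` -/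
lemma big (n L : ℝ) (hL : L = Real.log n) (hn : 2 ≤ n) (h : 50 * L < n) :
    5 < L ∧ 250 < n := by
  have hn0 : 0 < n := by linarith
  have h1 : Real.log 2 ≤ L := by
    rw [hL]
    exact Real.log_le_log (by norm_num) hn
  have h2 := Real.log_two_gt_d9
  have h3 : 34.5 < n := by linarith
  have h4 : 7 < 2 * L := by
    have h5 : 2 * L = Real.log (n ^ 2) := by
      rw [Real.log_pow, hL]
      push_cast
      ring
    rw [h5, Real.lt_log_iff_exp_lt (by positivity)]
    have := exp7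
    nlinarith
  have h6 : 175 < n := by linarith
  have h7 : 5 < L := by
    rw [hL, Real.lt_log_iff_exp_lt hn0]
    have := exp5
    linarith
  exact ⟨h7, by linarith⟩

/-- the main inequality -/
lemma main (n L M : ℝ) (hL : L = Real.log n) (hL5 : 5 < L) (hn : 250 < n) (h : 50 * L < n)
    (hM0 : 0 ≤ M) (hM : M < n / L / 20 + 1) :
    64 * Real.exp 2 * (2 * M) ^ 2 * n * (n + 1) ^ 2 ≤
      Real.exp ((n - 1) / (1 + 2 * M * n / (n - 1))) := by
  have hn0 : 0 < n := by linarith
  have hL0 : 0 < L := by linarith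
  set x : ℝ := n / L with hx
  have hxL : x * L = n := by
    rw [hx]
    field_simp
  have hx50 : 50 < x := by
    rw [hx, lt_div_iff₀ hL0]
    exact h
  have hx5 : x < n / 5 := by
    rw [hx]
    exact div_lt_div_of_pos_left hn0 (by norm_num) hL5
  have h2M : 2 * M ≤ 0.14 * x := by linarith
  have hr : n / (n - 1) ≤ 1.005 := by
    rw [div_le_iff₀ (by linarith)]
    linarith
  have hr0 : 0 < n / (n - 1) := div_pos hn0 (by linarith)
  have hden : 1 + 2 * M * n / (n - 1) ≤ 0.161 * x := by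
    have h1 : 2 * M * n / (n - 1) = 2 * M * (n / (n - 1)) := by ring
    rw [h1]
    have h2 : 2 * M * (n / (n - 1)) ≤ 0.14 * x * 1.005 :=
      mul_le_mul h2M hr hr0.le (by positivity)
    linarith
  have hden0 : 0 < 1 + 2 * M * n / (n - 1) := by
    have : 0 ≤ 2 * M * n / (n - 1) := div_nonneg (by positivity) (by linarith)
    linarith
  have hexp : 6 * L ≤ (n - 1) / (1 + 2 * M * n / (n - 1)) := by
    rw [le_div_iff₀ hden0]
    have h1 : 6 * L * (1 + 2 * M * n / (n - 1)) ≤ 6 * L * (0.161 * x) :=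
      mul_le_mul_of_nonneg_left hden (by positivity)
    have h2 : 6 * L * (0.161 * x) = 0.966 * n := by
      rw [← hxL]
      ring
    linarith
  have hR : n ^ 6 ≤ Real.exp ((n - 1) / (1 + 2 * M * n / (n - 1))) := by
    refine le_trans (le_of_eq ?_) (Real.exp_le_exp.mpr hexp)
    have h1 : 6 * L = Real.log (n ^ 6) := by
      rw [Real.log_pow, hL]
      push_cast
      ring
    rw [h1, Real.exp_log (by positivity)]
  refine le_trans ?_ hR
  have h2M0 : 0 ≤ 2 * M := by linarith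
  have e1 : (2 * M) ^ 2 ≤ (0.028 * n) ^ 2 := pow_le_pow_left₀ h2M0 (by linarith) 2
  have e2 : 64 * Real.exp 2 ≤ 64 * 7.4 := by
    have := exp2
    linarith
  have e3 : (n + 1) ^ 2 ≤ (1.004 * n) ^ 2 := pow_le_pow_left₀ (by linarith) (by linarith) 2
  calc 64 * Real.exp 2 * (2 * M) ^ 2 * n * (n + 1) ^ 2
      ≤ 64 * 7.4 * (0.028 * n) ^ 2 * n * (1.004 * n) ^ 2 := by
        gcongr
    _ = (64 * 7.4 * 0.028 ^ 2 * 1.004 ^ 2) * n ^ 5 := by ring
    _ ≤ n * n ^ 5 := by
        refine mul_le_mul_of_nonneg_right ?_ (by positivity)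
        refine le_trans ?_ hn.le
        norm_num
    _ = n ^ 6 := by ring

end FNUM_

open FNUM_ in
theorem p_FNUM : T_FNUM := by
  intro n hn h
  have hn2 : (2 : ℝ) ≤ n := by exact_mod_cast hn
  obtain ⟨hL5, hn250⟩ := big n (Real.log n) rfl hn2 h
  have hn0 : (0 : ℝ) < n := by linarith
  have hL0 : 0 < Real.log n := by linarith
  have hx0 : 0 < (n : ℝ) / Real.log n / 20 := by positivity
  refine ⟨⌈(n : ℝ) / Real.log n / 20⌉₊, ?_, ?_, ?_⟩
  · exact Nat.one_le_iff_ne_zero.mpr (Nat.ceil_pos.mpr hx0).ne'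
  · exact main n (Real.log n) _ rfl hL5 hn250 h (Nat.cast_nonneg _)
      (Nat.ceil_lt_add_one hx0.le)
  · refine log10.trans ?_
    have h1 := Nat.le_ceil ((n : ℝ) / Real.log n / 20)
    have h2 : 50 * Real.log n / n * ((n : ℝ) / Real.log n / 20) = 5 / 2 := by
      field_simp
      norm_num
    rw [← h2]
    exact mul_le_mul_of_nonneg_left h1 (by positivity)

end Pool.Agent.ShadowA
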