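import Pool.Agent.ShadowA.Targets

/-!
# Covering shadows in high dimension: existence of the frame of maximal volume
-/

set_option autoImplicit false

open Finset MeasureTheory

namespace Pool.Agent.ShadowA

open Pool.Agent.Shadow

namespace FRM_

variable {n : ℕ} {K L : Set (E n)}

lemma tot_smul (hK : IsBody K) (hL : IsBody L) {c : ℝ} (hc : 0 ≤ c) (τ : Fin (n + 1) → E n) :
    tot K L (fun k => c • τ k) = c * tot K L τ := by
  unfold tot
  rw [Finset.mul_sum]
  exact Finset.sum_congr rfl fun k _ => gap_smul hK hL hc _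

lemma detm_smul (c : ℝ) (τ : Fin (n + 1) → E n) :
    detm (fun k => c • τ k) = |c| ^ n * detm τ := by
  unfold detm
  have e : (Matrix.of fun i j : Fin n => (c • τ i.succ) j) =
      c • (Matrix.of fun i j : Fin n => τ i.succ j) := by
    ext i j
    simp
  have e' : (Matrix.of fun i j : Fin n => ((fun k => c • τ k) i.succ) j) =
      c • (Matrix.of fun i j : Fin n => τ i.succ j) := e
  rw [e', Matrix.det_smul, abs_mul, abs_pow, Fintype.card_fin]

lemma detm_nonneg (τ : Fin (n + 1) → E n) : 0 ≤ detm τ := abs_nonneg _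

lemma gap_lip (hK : IsBody K) (hL : IsBody L) :
    ∃ C : ℝ, 0 < C ∧ ∀ y z : E n, |gap K L y - gap K L z| ≤ C * ‖y - z‖ := by
  obtain ⟨R, hR0, hR⟩ := hs_lip hK
  obtain ⟨S, hS0, hS⟩ := hs_lip hL
  refine ⟨R + S, by linarith, fun y z => ?_⟩
  have h1 := hR y z
  have h2 := hS y z
  have e : gap K L y - gap K L z = (hs K y - hs K z) - (hs L y - hs L z) := by
    unfold gap
    ring
  rw [e]
  calc |(hs K y - hs K z) - (hs L y - hs L z)| ≤ |hs K y - hs K z| + |hs L y - hs L z| :=
        abs_sub _ _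
    _ ≤ R * ‖y - z‖ + S * ‖y - z‖ := add_le_add h1 h2
    _ = _ := by ring

/-- The lower bound for the frame in all directions. -/
lemma lower (h1 : T_COV) (hK : IsBody K) (hL : IsBody L) (hcov : Covers L K) {C : ℝ}
    (hC : ∀ y z : E n, |gap K L y - gap K L z| ≤ C * ‖y - z‖) (τ : Fin (n + 1) → E n)
    (hsum : ∑ k, τ k = 0) (htot : (n : ℝ) + 1 ≤ tot K L τ) (q : E n) :
    ((n : ℝ) + 1) * ‖q‖ ≤ 2 * C * ∑ i : Fin n, |inner ℝ q (τ i.succ)| := by
  -- unit vectors
  have hC0 : 0 ≤ C ∨ ∀ y z : E n, y = z := by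
    by_cases h : ∀ y z : E n, y = z
    · exact Or.inr h
    · left
      push Not at h
      obtain ⟨y, z, hyz⟩ := h
      have h3 := hC y z
      have h4 : 0 < ‖y - z‖ := norm_pos_iff.2 (sub_ne_zero.2 hyz)
      by_contra hneg
      push Not at hneg
      have h5 : C * ‖y - z‖ < 0 := mul_neg_of_neg_of_pos hneg h4
      linarith [abs_nonneg (gap K L y - gap K L z)]
  rcases hC0 with hC0 | hall
  swap
  · have : q = 0 := hall q 0
    rw [this]
    simp
  have unit : ∀ q : E n, ‖q‖ = 1 →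
      ((n : ℝ) + 1) ≤ 2 * C * ∑ i : Fin n, |inner ℝ q (τ i.succ)| := by
    intro q hq
    set τ' : Fin (n + 1) → E n := fun k => τ k - (inner ℝ q (τ k)) • q with hτ'
    have hqq : inner ℝ q q = (1 : ℝ) := by
      rw [real_inner_self_eq_norm_sq, hq]
      norm_num
    have horth : ∀ k, inner ℝ q (τ' k) = 0 := by
      intro k
      simp only [hτ']
      rw [inner_sub_right, real_inner_smul_right, hqq, mul_one, sub_self]
    have hsum' : ∑ k, τ' k = 0 := by
      simp only [hτ']
      rw [Finset.sum_sub_distrib, hsum, ← Finset.sum_smul, ← inner_sum, hsum, inner_zero_right]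
      simp
    have h3 := h1 n K L hK hL hcov (Fin (n + 1)) τ' q hq horth hsum'
    have h4 : ∀ k, gap K L (τ k) ≤ gap K L (τ' k) + C * |inner ℝ q (τ k)| := by
      intro k
      have h5 := hC (τ k) (τ' k)
      have e : τ k - τ' k = (inner ℝ q (τ k)) • q := by
        simp only [hτ']
        abel
      rw [e, norm_smul, hq, mul_one, Real.norm_eq_abs] at h5
      have h6 := le_abs_self (gap K L (τ k) - gap K L (τ' k))
      linarith
    have h5 : tot K L τ ≤ C * ∑ k, |inner ℝ q (τ k)| := by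
      unfold tot
      calc ∑ k, gap K L (τ k) ≤ ∑ k, (gap K L (τ' k) + C * |inner ℝ q (τ k)|) :=
            Finset.sum_le_sum fun k _ => h4 k
        _ = ∑ k, gap K L (τ' k) + C * ∑ k, |inner ℝ q (τ k)| := by
            rw [Finset.sum_add_distrib, Finset.mul_sum]
        _ ≤ _ := by linarith
    have h6 : |inner ℝ q (τ 0)| ≤ ∑ i : Fin n, |inner ℝ q (τ i.succ)| := by
      have e : τ 0 = -∑ i : Fin n, τ i.succ := by
        rw [Fin.sum_univ_succ] at hsum
        exact eq_neg_of_add_eq_zero_left hsum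
      rw [e, inner_neg_right, abs_neg, inner_sum]
      exact Finset.abs_sum_le_sum_abs _ _
    have h7 : ∑ k, |inner ℝ q (τ k)| ≤ 2 * ∑ i : Fin n, |inner ℝ q (τ i.succ)| := by
      rw [Fin.sum_univ_succ]
      linarith
    calc (n : ℝ) + 1 ≤ C * ∑ k, |inner ℝ q (τ k)| := htot.trans h5
      _ ≤ C * (2 * ∑ i : Fin n, |inner ℝ q (τ i.succ)|) := mul_le_mul_of_nonneg_left h7 hC0
      _ = _ := by ring
  rcases eq_or_ne q 0 with h0 | h0
  · rw [h0]
    simp
  have hq0 : 0 < ‖q‖ := norm_pos_iff.2 h0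
  have h3 := unit (‖q‖⁻¹ • q) (by rw [norm_smul, norm_inv, norm_norm, inv_mul_cancel₀ hq0.ne'])
  have h4 : ∑ i : Fin n, |inner ℝ (‖q‖⁻¹ • q) (τ i.succ)| =
      ‖q‖⁻¹ * ∑ i : Fin n, |inner ℝ q (τ i.succ)| := by
    rw [Finset.mul_sum]
    refine Finset.sum_congr rfl fun i _ => ?_
    rw [real_inner_smul_left, abs_mul, abs_of_pos (inv_pos.2 hq0)]
  rw [h4] at h3
  have h5 := mul_le_mul_of_nonneg_right h3 hq0.le
  calc ((n : ℝ) + 1) * ‖q‖ ≤ 2 * C * (‖q‖⁻¹ * ∑ i : Fin n, |inner ℝ q (τ i.succ)|) * ‖q‖ := h5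
    _ = 2 * C * (∑ i : Fin n, |inner ℝ q (τ i.succ)|) * (‖q‖⁻¹ * ‖q‖) := by ring
    _ = _ := by rw [inv_mul_cancel₀ hq0.ne', mul_one]

end FRM_

open FRM_

theorem p_FRM (h1 : T_COV) (h2 : T_MATB) : T_FRM := by
  intro n K L hn hK hL hcov ⟨τ0, hτ0, hτ0pos⟩
  have hn0 : (0 : ℝ) < n := by exact_mod_cast (by omega : 0 < n)
  obtain ⟨C, hC0, hC⟩ := gap_lip hK hL
  set c : ℝ := (n + 1) / (2 * C * n) with hc
  have hc0 : 0 < c := by positivity
  set M : ℝ := n.factorial * (max 1 (1 / c)) ^ n with hM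
  have hM0 : 0 ≤ M := by positivity
  -- the bound
  have hb : ∀ τ : Fin (n + 1) → E n, ∑ k, τ k = 0 → (n : ℝ) + 1 ≤ tot K L τ →
      0 < detm τ ∧ ∀ i j : Fin n, |τ i.succ j| ≤ detm τ * M := by
    intro τ hs ht
    refine h2 n (Matrix.of fun i j : Fin n => τ i.succ j) c hc0 ?_
    intro q
    set q' : E n := WithLp.toLp 2 q with hq'
    have h3 := lower h1 hK hL hcov hC τ hs ht q'
    have h4 : ∀ i : Fin n, (Matrix.of fun i j : Fin n => τ i.succ j).mulVec q i =
        inner ℝ q' (τ i.succ) := by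
      intro i
      simp [Matrix.mulVec, dotProduct, PiLp.inner_apply, hq']
    simp only [h4]
    have h5 : ∑ j, |q j| ≤ n * ‖q'‖ := by
      have h6 : ∀ j ∈ (univ : Finset (Fin n)), |q j| ≤ ‖q'‖ := by
        intro j _
        have := PiLp.norm_apply_le q' j
        rwa [Real.norm_eq_abs] at this
      have h7 := Finset.sum_le_card_nsmul _ _ _ h6
      simpa using h7
    have h6 : c * ∑ j, |q j| ≤ (n + 1) * ‖q'‖ / (2 * C) := by
      calc c * ∑ j, |q j| ≤ c * (n * ‖q'‖) := mul_le_mul_of_nonneg_left h5 hc0.le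
        _ = (n + 1) * ‖q'‖ / (2 * C) := by
            rw [hc]
            field_simp
    refine h6.trans ?_
    rw [div_le_iff₀ (by positivity)]
    calc ((n : ℝ) + 1) * ‖q'‖ ≤ 2 * C * ∑ i : Fin n, |inner ℝ q' (τ i.succ)| := h3
      _ = _ := by ring
  -- the compact set
  set a0 : ℝ := (n + 1) / tot K L τ0 with ha0
  have ha0' : 0 < a0 := by positivity
  set τ1 : Fin (n + 1) → E n := fun k => a0 • τ0 k with hτ1
  have hτ1s : ∑ k, τ1 k = 0 := by
    simp only [hτ1]
    rw [← Finset.smul_sum, hτ0, smul_zero]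
  have hτ1t : tot K L τ1 = n + 1 := by
    rw [hτ1, tot_smul hK hL ha0'.le, ha0, div_mul_cancel₀ _ hτ0pos.ne']
  set S : Set (Fin (n + 1) → E n) :=
    {τ | ∑ k, τ k = 0 ∧ (n : ℝ) + 1 ≤ tot K L τ ∧ detm τ ≤ detm τ1} with hS
  have hcs : Continuous fun τ : Fin (n + 1) → E n => ∑ k, τ k :=
    continuous_finsetSum _ fun k _ => continuous_apply k
  have hct : Continuous fun τ : Fin (n + 1) → E n => tot K L τ := by
    unfold tot
    exact continuous_finsetSum _ fun k _ => (gap_continuous hK hL).comp (continuous_apply k)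
  have hcd : Continuous fun τ : Fin (n + 1) → E n => detm τ := by
    unfold detm
    refine Continuous.abs (Continuous.matrix_det ?_)
    refine continuous_matrix fun i j => ?_
    simp only [Matrix.of_apply]
    exact (PiLp.continuous_apply 2 (fun _ : Fin n => ℝ) j).comp (continuous_apply i.succ)
  have hSc : IsClosed S :=
    (isClosed_eq hcs continuous_const).inter
      ((isClosed_le continuous_const hct).inter (isClosed_le hcd continuous_const))
  set B : ℝ := detm τ1 * M with hB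
  have hB0 : 0 ≤ B := mul_nonneg (detm_nonneg _) hM0
  have hSb : S ⊆ Metric.closedBall 0 (n * (n * B) + n * B) := by
    intro τ hτ
    obtain ⟨s1, s2, s3⟩ := hτ
    obtain ⟨-, s4⟩ := hb τ s1 s2
    have s5 : ∀ i : Fin n, ‖τ i.succ‖ ≤ n * B := by
      intro i
      have e1 : ‖τ i.succ‖ ≤ ∑ j, |τ i.succ j| := by
        have h8 : ‖τ i.succ‖ ^ 2 ≤ (∑ j, |τ i.succ j|) ^ 2 := by
          rw [EuclideanSpace.norm_sq_eq]
          simp only [Real.norm_eq_abs]
          exact Finset.sum_sq_le_sq_sum_of_nonneg fun j _ => abs_nonneg _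
        exact (sq_le_sq₀ (norm_nonneg _) (Finset.sum_nonneg fun j _ => abs_nonneg _)).1 h8
      refine e1.trans ?_
      have h7 := Finset.sum_le_card_nsmul (univ : Finset (Fin n)) (fun j => |τ i.succ j|) B
        (fun j _ => (s4 i j).trans (mul_le_mul_of_nonneg_right s3 hM0))
      simpa using h7
    have s6 : ‖τ 0‖ ≤ n * (n * B) := by
      have e : τ 0 = -∑ i : Fin n, τ i.succ := by
        rw [Fin.sum_univ_succ] at s1
        exact eq_neg_of_add_eq_zero_left s1
      rw [e, norm_neg]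
      have h7 := (norm_sum_le (univ : Finset (Fin n)) (fun i => τ i.succ)).trans
        (Finset.sum_le_card_nsmul _ _ _ fun i _ => s5 i)
      simpa using h7
    rw [Metric.mem_closedBall, dist_zero_right, pi_norm_le_iff_of_nonneg (by positivity)]
    intro k
    have hnB : 0 ≤ (n : ℝ) * B := by positivity
    have hnnB : 0 ≤ (n : ℝ) * (n * B) := by positivity
    refine Fin.cases ?_ (fun i => ?_) k
    · linarith
    · linarith [s5 i]
  have hScomp : IsCompact S := (isCompact_closedBall _ _).of_isClosed_subset hSc hSb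
  have hSne : S.Nonempty := ⟨τ1, hτ1s, hτ1t.ge, le_rfl⟩
  obtain ⟨u, hu, humin⟩ := hScomp.exists_isMinOn hSne hcd.continuousOn
  obtain ⟨us, ut, ud⟩ := hu
  have hmin : ∀ τ : Fin (n + 1) → E n, ∑ k, τ k = 0 → (n : ℝ) + 1 ≤ tot K L τ →
      detm u ≤ detm τ := by
    intro τ hs ht
    rcases le_total (detm τ) (detm τ1) with h | h
    · exact humin ⟨hs, ht, h⟩
    · exact ud.trans h
  have hdet := (hb u us ut).1
  have hscale : ∀ (τ : Fin (n + 1) → E n), ∑ k, τ k = 0 → 0 < tot K L τ →
      detm u ≤ ((n + 1) / tot K L τ) ^ n * detm τ := by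
    intro τ hs ht
    have ha : 0 < ((n : ℝ) + 1) / tot K L τ := by positivity
    have h3 := hmin (fun k => (((n : ℝ) + 1) / tot K L τ) • τ k)
      (by rw [← Finset.smul_sum, hs, smul_zero])
      (by rw [tot_smul hK hL ha.le, div_mul_cancel₀ _ ht.ne'])
    rwa [detm_smul, abs_of_pos ha] at h3
  refine ⟨u, us, ?_, hdet, ?_⟩
  · by_contra hne
    have hlt : (n : ℝ) + 1 < tot K L u := lt_of_le_of_ne ut (Ne.symm hne)
    have htp : 0 < tot K L u := by linarith
    have h3 := hscale u us htp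
    have ha1 : ((n : ℝ) + 1) / tot K L u < 1 := by
      rw [div_lt_one htp]
      exact hlt
    have ha0 : 0 ≤ ((n : ℝ) + 1) / tot K L u := by positivity
    have h4 : (((n : ℝ) + 1) / tot K L u) ^ n < 1 := pow_lt_one₀ ha0 ha1 (by omega)
    nlinarith
  · intro τ hs ht
    rcases ht.lt_or_eq with h | h
    · have h3 := hscale τ hs h
      have h4 : (0 : ℝ) ≤ (tot K L τ / (n + 1)) ^ n := by positivity
      calc (tot K L τ / (n + 1)) ^ n * detm u ≤
          (tot K L τ / (n + 1)) ^ n * (((n + 1) / tot K L τ) ^ n * detm τ) :=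
            mul_le_mul_of_nonneg_left h3 h4
        _ = (tot K L τ / (n + 1) * ((n + 1) / tot K L τ)) ^ n * detm τ := by
            rw [mul_pow, mul_assoc]
        _ = detm τ := by
            have e : tot K L τ / ((n : ℝ) + 1) * ((n + 1) / tot K L τ) = 1 := by
              field_simp
            rw [e, one_pow, one_mul]
    · rw [← h, zero_div, zero_pow (by omega), zero_mul]
      exact detm_nonneg _

end Pool.Agent.ShadowA
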