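import Pool.Agent.ShadowA.Targets

set_option autoImplicit false

namespace Pool.Agent.ShadowA

open Pool.Agent.Shadow

theorem p_GOOD (h : T_REP) : T_GOOD := by
  intro n K L u p v lam hn hF x hx y
  obtain ⟨μ, hμ, ⟨i, hi⟩, rfl⟩ := (h n u hF.sum hF.det_pos).1 y
  have h1 := hx i
  unfold Viol at h1
  push Not at h1
  have h2 := h1 μ hμ hi
  have h3 : dep K (vec u μ) ((1 - 1 / (n : ℝ)) • x + (1 / (n : ℝ)) • p) =
      (1 - 1 / (n : ℝ)) * dep K (vec u μ) x + 1 / (n : ℝ) * dep K (vec u μ) p := by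
    unfold dep
    rw [inner_add_right, real_inner_smul_right, real_inner_smul_right]
    ring
  rw [h3]
  exact h2

end Pool.Agent.ShadowA
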