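import Pool.Agent.ShadowA.Targets

set_option autoImplicit false

open MeasureTheory
open scoped ENNReal

namespace Pool.Agent.ShadowA

open Pool.Agent.Shadow

theorem p_MAIN (hFIT : T_FITN) (hFRM : T_FRM) (hDPV : T_DPV) (hCOMB : T_COMB) (hBM : T_BM)
    (hFN : T_FNUM) : T_MAIN := by
  intro n K L hn hK hL hc
  have hn' : (2 : ℝ) ≤ n := by exact_mod_cast hn
  have hn0 : (0 : ℝ) < n := by linarith
  have hlog : 0 ≤ Real.log n := Real.log_nonneg (by linarith)
  have hC : (n : ℝ) ^ (50 / (n : ℝ)) = Real.exp (50 * Real.log n / n) := by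
    rw [Real.rpow_def_of_pos hn0]
    congr 1
    ring
  have hC1 : (1 : ℝ) ≤ (n : ℝ) ^ (50 / (n : ℝ)) := by
    rw [hC]
    exact Real.one_le_exp (by positivity)
  rcases le_or_gt (n : ℝ) (50 * Real.log n) with hA | hB
  · refine (bound hn hK hL hc).trans ?_
    gcongr
    refine (const_lt hn).le.trans ?_
    rw [hC]
    apply Real.exp_le_exp.2
    rw [le_div_iff₀ hn0]
    linarith
  rcases eq_or_ne (volume K) 0 with hVK | hVK
  · rw [hVK]; exact zero_le
  have hVL : volume L ≠ 0 := by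
    intro h0
    have := bound hn hK hL hc
    rw [h0, mul_zero] at this
    exact hVK (le_antisymm this zero_le)
  by_cases hfit : ∀ τ : Fin (n + 1) → E n, ∑ k, τ k = 0 → tot K L τ ≤ 0
  · refine (hFIT n K L (by omega) hK hL hfit).trans ?_
    calc volume L = 1 * volume L := (one_mul _).symm
      _ ≤ _ := by
        gcongr
        rw [← ENNReal.ofReal_one]
        exact ENNReal.ofReal_le_ofReal hC1
  push Not at hfit
  obtain ⟨u, hF⟩ := hFRM n K L hn hK hL hc hfit
  obtain ⟨c, hDP⟩ := hDPV n K L u hn hK hL hc hF hVK hVL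
  obtain ⟨m, hm1, hm2, hm3⟩ := hFN n hn hB
  obtain ⟨v, hv⟩ := hCOMB n K L u c m hn hK hL hc hF hDP hm1 hm2
  have hbm := hBM n K L m v hK hL hm1
  have hfK : volume K ≠ ∞ := vol_fin hK
  have hfL : volume L ≠ ∞ := vol_fin hL
  -- V(K)^m ≤ 10 V(L)^m
  have h1 : volume K ^ m ≤ 10 * volume L ^ m := by
    calc volume K ^ m = volume K ^ (m - 1) * volume K := by
          rw [← pow_succ, Nat.sub_add_cancel hm1]
      _ ≤ volume K ^ (m - 1) * (10 * volume (lev K L m v)) := by gcongr
      _ = 10 * (volume K ^ (m - 1) * volume (lev K L m v)) := by ring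
      _ ≤ _ := by gcongr
  have h2 : (volume K).toReal ^ m ≤ 10 * (volume L).toReal ^ m := by
    have h3 := ENNReal.toReal_mono (ENNReal.mul_ne_top (by norm_num) (ENNReal.pow_ne_top hfL)) h1
    rwa [ENNReal.toReal_mul, ENNReal.toReal_pow, ENNReal.toReal_pow, ENNReal.toReal_ofNat] at h3
  have hb0 : 0 ≤ (volume L).toReal := ENNReal.toReal_nonneg
  have h10 : (10 : ℝ) ≤ Real.exp (50 * Real.log n / n) ^ m := by
    rw [← Real.exp_nat_mul, ← Real.exp_log (show (0 : ℝ) < 10 by norm_num)]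
    apply Real.exp_le_exp.2
    linarith [hm3]
  have h4 : (volume K).toReal ^ m ≤ (Real.exp (50 * Real.log n / n) * (volume L).toReal) ^ m := by
    rw [mul_pow]
    exact h2.trans (mul_le_mul_of_nonneg_right h10 (pow_nonneg hb0 _))
  have h5 : (volume K).toReal ≤ Real.exp (50 * Real.log n / n) * (volume L).toReal :=
    le_of_pow_le_pow_left₀ (by omega) (by positivity) h4
  rw [← ENNReal.ofReal_toReal hfK, ← ENNReal.ofReal_toReal hfL,
    ← ENNReal.ofReal_mul (by positivity), hC]
  exact ENNReal.ofReal_le_ofReal h5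

end Pool.Agent.ShadowA
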