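import Pool.Agent.ShadowA.Targets

/-!
MATB: a matrix bounded below is bounded above by its determinant.
-/

set_option autoImplicit false

open Finset MeasureTheory

namespace Pool.Agent.ShadowA

open Pool.Agent.Shadow

namespace MATB_

theorem det_ne {n : ℕ} {A : Matrix (Fin n) (Fin n) ℝ} {c : ℝ} (hc : 0 < c)
    (h : ∀ q : Fin n → ℝ, c * ∑ j, |q j| ≤ ∑ i, |A.mulVec q i|) : A.det ≠ 0 := by
  intro hd
  obtain ⟨v, hv, hAv⟩ := Matrix.exists_mulVec_eq_zero_iff.2 hd
  apply hv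
  have h1 := h v
  rw [hAv] at h1
  simp only [Pi.zero_apply, abs_zero, Finset.sum_const_zero] at h1
  have h2 : ∑ j, |v j| ≤ 0 := by
    by_contra h3
    push Not at h3
    have := mul_pos hc h3
    linarith
  funext j
  have h3 : |v j| ≤ ∑ j, |v j| := Finset.single_le_sum (f := fun j => |v j|)
    (fun i _ => abs_nonneg _) (Finset.mem_univ j)
  have h4 : |v j| = 0 := le_antisymm (h3.trans h2) (abs_nonneg _)
  exact abs_eq_zero.1 h4

theorem inv_le {n : ℕ} {A : Matrix (Fin n) (Fin n) ℝ} {c : ℝ} (hc : 0 < c)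
    (h : ∀ q : Fin n → ℝ, c * ∑ j, |q j| ≤ ∑ i, |A.mulVec q i|) (i j : Fin n) :
    |A⁻¹ i j| ≤ 1 / c := by
  have hd : IsUnit A.det := (det_ne hc h).isUnit
  have h1 := h (A⁻¹.mulVec (Pi.single j 1))
  rw [Matrix.mulVec_mulVec, Matrix.mul_nonsing_inv A hd, Matrix.one_mulVec] at h1
  have h2 : ∑ i, |(Pi.single j 1 : Fin n → ℝ) i| = 1 := by
    rw [Finset.sum_eq_single j]
    · simp
    · intro b _ hb
      rw [Pi.single_eq_of_ne hb, abs_zero]
    · intro hj
      exact absurd (Finset.mem_univ j) hj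
  rw [h2] at h1
  have h3 : |A⁻¹ i j| ≤ ∑ k, |A⁻¹.mulVec (Pi.single j 1) k| := by
    have h4 : |A⁻¹ i j| = |A⁻¹.mulVec (Pi.single j 1) i| := by
      rw [Matrix.mulVec_single_one]
      rfl
    rw [h4]
    exact Finset.single_le_sum (f := fun k => |A⁻¹.mulVec (Pi.single j 1) k|)
      (fun i _ => abs_nonneg _) (Finset.mem_univ i)
  rw [le_div_iff₀ hc]
  calc |A⁻¹ i j| * c ≤ (∑ k, |A⁻¹.mulVec (Pi.single j 1) k|) * c :=
        mul_le_mul_of_nonneg_right h3 hc.le
    _ = c * ∑ k, |A⁻¹.mulVec (Pi.single j 1) k| := mul_comm _ _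
    _ ≤ 1 := h1

theorem adj_le {n : ℕ} {B : Matrix (Fin n) (Fin n) ℝ} {x : ℝ} (h1 : 1 ≤ x)
    (h : ∀ i j, |B i j| ≤ x) (i j : Fin n) :
    |B.adjugate i j| ≤ n.factorial * x ^ n := by
  rw [Matrix.adjugate_apply]
  have h2 : ∀ a b, |(B.updateRow j (Pi.single i 1)) a b| ≤ x := by
    intro a b
    rw [Matrix.updateRow_apply]
    split_ifs with hab
    · by_cases hbi : b = i
      · rw [hbi, Pi.single_eq_same, abs_one]
        exact h1
      · rw [Pi.single_eq_of_ne hbi, abs_zero]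
        linarith
    · exact h a b
  have h3 := Matrix.det_le (abv := AbsoluteValue.abs) (A := B.updateRow j (Pi.single i 1))
    (x := x) (fun a b => h2 a b)
  rw [Fintype.card_fin, nsmul_eq_mul] at h3
  exact h3

end MATB_

/-- MATB: a matrix bounded below is bounded above by its determinant. -/
theorem p_MATB : T_MATB := by
  intro n A c hc h
  have hd := MATB_.det_ne hc h
  have hu : IsUnit A.det := hd.isUnit
  refine ⟨abs_pos.2 hd, fun i j => ?_⟩
  have h1 : A = A.det • (A⁻¹).adjugate := by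
    have h2 : A * (A⁻¹ * (A⁻¹).adjugate) = A * ((A⁻¹).det • 1) := by
      rw [Matrix.mul_adjugate]
    rw [Matrix.mul_nonsing_inv_cancel_left _ _ hu, Matrix.mul_smul, Matrix.mul_one] at h2
    rw [h2, smul_smul]
    have h3 : A.det * (A⁻¹).det = 1 := by
      rw [← Matrix.det_mul, Matrix.mul_nonsing_inv A hu, Matrix.det_one]
    rw [h3, one_smul]
  have h4 : |A i j| = |A.det| * |(A⁻¹).adjugate i j| := by
    conv_lhs => rw [h1]
    rw [Matrix.smul_apply, smul_eq_mul, abs_mul]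
  rw [h4]
  apply mul_le_mul_of_nonneg_left _ (abs_nonneg _)
  exact MATB_.adj_le (le_max_left _ _) (fun a b => (MATB_.inv_le hc h a b).trans (le_max_right _ _))
    i j

end Pool.Agent.ShadowA
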