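import Pool.Agent.ShadowA.Targets

/-!
# Covering shadows in high dimension: midpoints of good points
-/

set_option autoImplicit false

open Finset MeasureTheory

namespace Pool.Agent.ShadowA

open Pool.Agent.Shadow

namespace MID_

lemma dep_mid {n : ℕ} (K : Set (E n)) (y x x' : E n) :
    dep K y ((1 / 2 : ℝ) • (x + x')) = (dep K y x + dep K y x') / 2 := by
  unfold dep
  rw [real_inner_smul_right, inner_add_right]
  ring

lemma mid_viol {n : ℕ} {K L : Set (E n)} {u : Fin (n + 1) → E n} {c v : E n}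
    {lam : ℝ} {j : Fin (n + 1)} (hn : 2 ≤ n) (hK : IsBody K) (hD : DP K L u c) (hl : 1 ≤ lam)
    {x x' : E n} (hx : x ∈ K) (hx' : x' ∈ K)
    (h : ¬ Viol K L u lam ((1 / 2 : ℝ) • (c - v)) v x' j) :
    ¬ Viol K L u (lam / 2) ((1 / 2 : ℝ) • (c - v)) v ((1 / 2 : ℝ) • (x + x')) j := by
  rintro ⟨μ, h0, hj, hv⟩
  apply h
  refine ⟨μ, h0, hj, ?_⟩
  have hp := hD v μ j j
  rw [sub_self, zero_div, zero_add] at hp
  rw [dep_mid] at hv
  have h1 := dep_nonneg hK hx (vec u μ)
  have h2 := dep_nonneg hK hx' (vec u μ)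
  set a := dep K (vec u μ) x
  set b := dep K (vec u μ) x'
  set g := gv K L v (vec u μ)
  set d := dep K (vec u μ) ((1 / 2 : ℝ) • (c - v))
  have hn' : (2 : ℝ) ≤ n := by exact_mod_cast hn
  have hn1 : (0 : ℝ) < 1 / (n : ℝ) := by positivity
  have hn2 : 1 / (n : ℝ) ≤ 1 / 2 := one_div_le_one_div_of_le (by norm_num) hn'
  set e := 1 / (n : ℝ)
  have hg : 0 < g := by
    by_contra hg
    push Not at hg
    have h3 : 0 ≤ (1 - e) * ((a + b) / 2) := by
      apply mul_nonneg <;> linarith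
    have h4 : e * (g / 2) ≤ e * d := mul_le_mul_of_nonneg_left hp hn1.le
    nlinarith
  have hd : 0 < d := by linarith
  have h5 : 0 ≤ (1 - e) * a := by
    apply mul_nonneg <;> linarith
  have h6 : 0 ≤ e * d := by positivity
  nlinarith

lemma dep_continuous {n : ℕ} (K : Set (E n)) (y : E n) : Continuous (dep K y) := by
  unfold dep
  fun_prop

lemma closed_good {n : ℕ} {K L : Set (E n)} {u : Fin (n + 1) → E n} {p v : E n}
    {lam : ℝ} {j : Fin (n + 1)} (hK : IsBody K) :
    IsClosed {x | x ∈ K ∧ ¬ Viol K L u lam p v x j} := by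
  have : {x | x ∈ K ∧ ¬ Viol K L u lam p v x j} = K ∩ ⋂ (μ : Fin (n + 1) → ℝ)
      (_ : (∀ k, 0 ≤ μ k) ∧ μ j = 0), {x | lam * gv K L v (vec u μ) ≤
        (1 - 1 / (n : ℝ)) * dep K (vec u μ) x + 1 / (n : ℝ) * dep K (vec u μ) p} := by
    ext x
    simp only [Set.mem_ofPred_eq, Set.mem_inter_iff, Set.mem_iInter, Viol, not_exists, not_and,
      not_lt, and_imp]
  rw [this]
  refine hK.2.1.isClosed.inter (isClosed_iInter fun μ => isClosed_iInter fun _ => ?_)
  exact isClosed_le continuous_const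
    ((continuous_const.mul (dep_continuous K _)).add continuous_const)

end MID_

theorem p_MID : T_MID := by
  intro n K L u c v lam j hn hK _ hD hl
  exact ⟨fun x hx x' hx' h => MID_.mid_viol hn hK hD hl hx hx' h, MID_.closed_good hK⟩

end Pool.Agent.ShadowA
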