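import Pool.Agent.ShadowA.Targets

/-!
# Covering shadows in high dimension: the numerical contradiction
-/

set_option autoImplicit false

open Finset MeasureTheory

namespace Pool.Agent.ShadowA

theorem p_NUM : T_NUM := by
  intro n lam s A D hn hlam hs hD h1 h2 h3
  obtain ⟨m, rfl⟩ : ∃ m, n = m + 1 := ⟨n - 1, by omega⟩
  have hm : 1 ≤ m := by omega
  have hmR : (1 : ℝ) ≤ m := by exact_mod_cast hm
  have hm0 : (0 : ℝ) < m := by linarith
  have hn0 : (0 : ℝ) < (m : ℝ) + 1 := by linarith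
  rw [Nat.add_sub_cancel] at h2
  push_cast at h1 h2 h3
  rw [add_sub_cancel_right] at h2 h3
  have hlam0 : 0 < lam := by linarith
  have hA8 : 1 / (8 * ((m : ℝ) + 1)) < lam * A := by
    have : 0 ≤ (1 - 1 / ((m : ℝ) + 1)) * D := by
      apply mul_nonneg _ hD
      rw [sub_nonneg, div_le_one hn0]
      linarith
    linarith
  have hA8' : 1 < 8 * lam * ((m : ℝ) + 1) * A := by
    rw [div_lt_iff₀ (by positivity)] at hA8
    linarith
  have hA : 0 < A := by
    have h4 : 0 < lam * A := lt_trans (by positivity) hA8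
    exact (mul_pos_iff_of_pos_left hlam0).1 h4
  set Lam := lam * ((m : ℝ) + 1) / m with hLam
  have hLam0 : 0 < Lam := by positivity
  have hDA : D ≤ Lam * A := by
    have h4 : (1 - 1 / ((m : ℝ) + 1)) * D ≤ lam * A := by
      have : (0 : ℝ) < 1 / (8 * ((m : ℝ) + 1)) := by positivity
      linarith
    have h5 : (1 - 1 / ((m : ℝ) + 1)) = m / ((m : ℝ) + 1) := by
      field_simp
      ring
    rw [h5, div_mul_eq_mul_div, div_le_iff₀ hn0] at h4
    rw [hLam, div_mul_eq_mul_div, le_div_iff₀ hm0]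
    linarith
  rcases hD.eq_or_lt with hD0 | hD0
  · rw [← hD0, zero_div, zero_pow (by omega), add_zero] at h2
    have : 0 < (A / ((m : ℝ) + 1 + 1)) ^ (m + 1) * s := by positivity
    linarith
  · have hexp1 : Real.exp (1 / (1 + Lam)) ≤ 1 + 1 / Lam := by
      have h4 := Real.one_sub_le_exp_neg (1 / (1 + Lam))
      rw [Real.exp_neg] at h4
      have h5 : 1 - 1 / (1 + Lam) = Lam / (1 + Lam) := by
        field_simp
        ring
      rw [h5] at h4
      have h6 : 0 < Lam / (1 + Lam) := by positivity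
      have h7 := (le_inv_comm₀ h6 (Real.exp_pos _)).1 h4
      rw [inv_div] at h7
      calc Real.exp (1 / (1 + Lam)) ≤ (1 + Lam) / Lam := h7
        _ = 1 + 1 / Lam := by
          field_simp
          ring
    have hexp2 : Real.exp ((m : ℝ) / (1 + Lam)) ≤ (1 + 1 / Lam) ^ m := by
      have h4 := pow_le_pow_left₀ (Real.exp_pos _).le hexp1 m
      rw [← Real.exp_nat_mul] at h4
      have h5 : (m : ℝ) * (1 / (1 + Lam)) = m / (1 + Lam) := by ring
      rwa [h5] at h4
    have hratio : (1 + 1 / Lam) * D ≤ A + D := by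
      have h4 : 1 / Lam * D ≤ A := by
        rw [div_mul_eq_mul_div, one_mul, div_le_iff₀ hLam0]
        linarith
      linarith
    have hbig : ((m : ℝ) + 1 + 1) ^ m ≤ Real.exp 2 * (m : ℝ) ^ m := by
      have h4 : (1 + 2 / (m : ℝ)) ^ m ≤ Real.exp 2 := by
        have h5 := Real.add_one_le_exp (2 / (m : ℝ))
        have h6 := pow_le_pow_left₀ (by positivity : (0 : ℝ) ≤ 2 / (m : ℝ) + 1) h5 m
        rw [← Real.exp_nat_mul] at h6
        have h7 : (m : ℝ) * (2 / m) = 2 := by field_simp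
        rw [h7] at h6
        rwa [add_comm] at h6
      calc ((m : ℝ) + 1 + 1) ^ m = ((1 + 2 / (m : ℝ)) * m) ^ m := by
            congr 1
            field_simp
            ring
        _ = (1 + 2 / (m : ℝ)) ^ m * (m : ℝ) ^ m := mul_pow _ _ _
        _ ≤ Real.exp 2 * (m : ℝ) ^ m := by gcongr
    -- combine
    have h4 : (A + D) ^ (m + 1) * s * (m : ℝ) ^ m ≤ D ^ m * ((m : ℝ) + 1 + 1) ^ (m + 1) := by
      rw [div_pow, div_pow, div_mul_eq_mul_div, div_le_div_iff₀ (by positivity)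
        (by positivity)] at h2
      exact h2
    have h5 : (A + D) ^ (m + 1) ≥ (A + D) * (((1 + 1 / Lam) ^ m) * D ^ m) := by
      rw [pow_succ, mul_comm ((A + D) ^ m), ← mul_pow]
      have : ((1 + 1 / Lam) * D) ^ m ≤ (A + D) ^ m := pow_le_pow_left₀ (by positivity) hratio m
      gcongr
    have h6 : (A + D) * (((1 + 1 / Lam) ^ m) * D ^ m) * s * (m : ℝ) ^ m ≤
        D ^ m * (((m : ℝ) + 1 + 1) * (Real.exp 2 * (m : ℝ) ^ m)) := by
      calc (A + D) * (((1 + 1 / Lam) ^ m) * D ^ m) * s * (m : ℝ) ^ m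
          ≤ (A + D) ^ (m + 1) * s * (m : ℝ) ^ m := by gcongr
        _ ≤ D ^ m * ((m : ℝ) + 1 + 1) ^ (m + 1) := h4
        _ = D ^ m * (((m : ℝ) + 1 + 1) * ((m : ℝ) + 1 + 1) ^ m) := by rw [pow_succ]; ring
        _ ≤ _ := by gcongr
    have h7 : (A + D) * (1 + 1 / Lam) ^ m * s ≤ ((m : ℝ) + 1 + 1) * Real.exp 2 := by
      have hp : 0 < D ^ m * (m : ℝ) ^ m := by positivity
      have h8 : ((A + D) * (1 + 1 / Lam) ^ m * s) * (D ^ m * (m : ℝ) ^ m) ≤
          (((m : ℝ) + 1 + 1) * Real.exp 2) * (D ^ m * (m : ℝ) ^ m) := by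
        calc _ = (A + D) * (((1 + 1 / Lam) ^ m) * D ^ m) * s * (m : ℝ) ^ m := by ring
          _ ≤ _ := h6
          _ = _ := by ring
      exact le_of_mul_le_mul_right h8 hp
    have h8 : (A + D) * (8 * lam * ((m : ℝ) + 1) * ((m : ℝ) + 1 + 1) * Real.exp 2) ≤
        ((m : ℝ) + 1 + 1) * Real.exp 2 := by
      calc _ ≤ (A + D) * (s * Real.exp ((m : ℝ) / (1 + Lam))) := by gcongr
        _ ≤ (A + D) * (s * (1 + 1 / Lam) ^ m) := by gcongr
        _ = (A + D) * (1 + 1 / Lam) ^ m * s := by ring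
        _ ≤ _ := h7
    have h9 : (A + D) * (8 * lam * ((m : ℝ) + 1)) ≤ 1 := by
      have hp : 0 < ((m : ℝ) + 1 + 1) * Real.exp 2 := by positivity
      have h10 : ((A + D) * (8 * lam * ((m : ℝ) + 1))) * (((m : ℝ) + 1 + 1) * Real.exp 2) ≤
          1 * (((m : ℝ) + 1 + 1) * Real.exp 2) := by
        calc _ = (A + D) * (8 * lam * ((m : ℝ) + 1) * ((m : ℝ) + 1 + 1) * Real.exp 2) := by ring
          _ ≤ _ := h8
          _ = _ := by ring
      exact le_of_mul_le_mul_right h10 hp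
    have h10 : 0 ≤ D * (8 * lam * ((m : ℝ) + 1)) := by positivity
    nlinarith

end Pool.Agent.ShadowA
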