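import Pool.Agent.ShadowA.Targets

/-!
# SHA-PAIR: the depths of the points of `K` for a pair of vectors with a tie
-/

set_option autoImplicit false

open Finset MeasureTheory

namespace Pool.Agent.ShadowA

open Pool.Agent.Shadow

theorem p_PAIR (h : T_COV) : T_PAIR := by
  classical
  intro n K L u v μ ν i m t hn hK hL hc hF hT f A D hf hA hD x hx
  have hu := hF.sum
  set c : Fin (n + 1) → ℝ := fun k => t * μ k + (1 - t) * ν k with hcdef
  have hci : c i = f := by
    show t * μ i + (1 - t) * ν i = f
    rw [hT.mu_i, hf]; ring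
  have hcm : c m = f := by
    show t * μ m + (1 - t) * ν m = f
    rw [hT.eq, hf]
  have hcf : ∀ k, 0 ≤ c k - f := by
    intro k
    have := hT.le k
    rw [← hf] at this
    exact sub_nonneg.mpr this
  -- the vector `z`
  set z : E n := t • vec u μ + (1 - t) • vec u ν with hz
  have hzc : z = -∑ k, (c k - f) • u k := by
    have e1 : z = vec u c := by
      rw [hz, hcdef, vec_add, vec_smul, vec_smul]
    rw [e1, ← vec_const hu c f]
    rfl
  -- the unit vector
  obtain ⟨a₀, ha₀⟩ := Fin.exists_succAbove_eq hT.ne
  obtain ⟨q, hq1, hq2⟩ := exists_unit_orth (by omega : 1 ≤ n)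
    (fun a : Fin n => u (i.succAbove a) + (if a = a₀ then u i else 0)) (by
      rw [Finset.sum_add_distrib, Finset.sum_ite_eq' univ a₀ (fun _ => u i),
        if_pos (mem_univ _), add_comm, ← Fin.sum_univ_succAbove (fun k => u k) i]
      exact hu)
  have hqu : ∀ k, inner ℝ q ((c k - f) • u k) = 0 := by
    intro k
    by_cases hki : k = i
    · rw [hki, hci, sub_self, zero_smul, inner_zero_right]
    · by_cases hkm : k = m
      · rw [hkm, hcm, sub_self, zero_smul, inner_zero_right]
      · obtain ⟨a, ha⟩ := Fin.exists_succAbove_eq hki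
        have h1 := hq2 a
        have hne : a ≠ a₀ := by
          rintro rfl
          exact hkm (ha.symm.trans ha₀)
        simp only [hne, if_false, add_zero, ha] at h1
        rw [inner_smul_right, h1, mul_zero]
  -- COV
  have hcov := h n K L hK hL hc (Option (Fin (n + 1)))
    (fun o => o.elim z (fun k => (c k - f) • u k)) q hq1 (by
      intro l
      cases l with
      | none =>
        show inner ℝ q z = 0
        rw [hzc, inner_neg_right, inner_sum, Finset.sum_eq_zero fun k _ => hqu k, neg_zero]
      | some k => exact hqu k) (by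
      rw [Fintype.sum_option]
      show z + ∑ k, (c k - f) • u k = 0
      rw [hzc]; exact neg_add_cancel _)
  rw [Fintype.sum_option] at hcov
  have hcov2 : gap K L z + ∑ k, (c k - f) * gap K L (u k) ≤ 0 := by
    have e1 : ∑ k, gap K L ((c k - f) • u k) = ∑ k, (c k - f) * gap K L (u k) :=
      Finset.sum_congr rfl fun k _ => gap_smul hK hL (hcf k) _
    rw [← e1]
    exact hcov
  -- the inner products with `v`
  have hzv : inner ℝ z v = -∑ k, (c k - f) * inner ℝ (u k) v := by
    rw [hzc, inner_neg_left, sum_inner]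
    congr 1
    exact Finset.sum_congr rfl fun k _ => real_inner_smul_left _ _ _
  have hgz : gv K L v z ≤ -∑ k, (c k - f) * gv K L v (u k) := by
    have e2 : ∑ k, (c k - f) * gv K L v (u k) =
        ∑ k, (c k - f) * gap K L (u k) + ∑ k, (c k - f) * inner ℝ (u k) v := by
      rw [← Finset.sum_add_distrib]
      exact Finset.sum_congr rfl fun k _ => by unfold gv; ring
    rw [e2]
    unfold gv
    rw [hzv]
    linarith
  have hθ : ∑ k, gv K L v (u k) = n + 1 := by
    have e3 : ∑ k, gv K L v (u k) = tot K L u + inner ℝ (∑ k, u k) v := by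
      rw [tot, sum_inner, ← Finset.sum_add_distrib]
      rfl
    rw [e3, hF.tot_eq, hu, inner_zero_left, add_zero]
  have hDs : ∑ k, (c k - f) * gv K L v (u k) = D := by
    have e4 : ∑ k, (c k - f) * gv K L v (u k) = t * ∑ k, μ k * gv K L v (u k) +
        (1 - t) * ∑ k, ν k * gv K L v (u k) - f * ∑ k, gv K L v (u k) := by
      rw [Finset.mul_sum, Finset.mul_sum, Finset.mul_sum, ← Finset.sum_add_distrib,
        ← Finset.sum_sub_distrib]
      refine Finset.sum_congr rfl fun k _ => ?_
      show (t * μ k + (1 - t) * ν k - f) * gv K L v (u k) = _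
      ring
    rw [e4, hT.mu_sum, hT.nu_sum, hθ, hD]
    ring
  rw [hDs] at hgz
  -- the depths
  have h1 : inner ℝ z x ≤ hs K z := inner_le_hs hK hx z
  have h2 : hs L z ≤ t * hs L (vec u μ) + (1 - t) * hs L (vec u ν) := by
    refine (hs_add_le hL _ _).trans ?_
    rw [hs_smul hL hT.t_nonneg, hs_smul hL (sub_nonneg.mpr hT.t_le)]
  have h3 : inner ℝ z x = t * inner ℝ (vec u μ) x + (1 - t) * inner ℝ (vec u ν) x := by
    rw [hz, inner_add_left, real_inner_smul_left, real_inner_smul_left]
  have h4 : inner ℝ z v = t * inner ℝ (vec u μ) v + (1 - t) * inner ℝ (vec u ν) v := by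
    rw [hz, inner_add_left, real_inner_smul_left, real_inner_smul_left]
  unfold gv at hgz hA
  unfold gap at hgz hA
  unfold dep
  rw [h4] at hgz
  rw [h3] at h1
  rw [hA]
  nlinarith

end Pool.Agent.ShadowA
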