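import Pool.Agent.ShadowA.Targets
import Mathlib

/-!
# Covering shadows in high dimension: coordinates with respect to a frame
-/

set_option autoImplicit false

open Finset MeasureTheory

namespace Pool.Agent.ShadowA

open Pool.Agent.Shadow

namespace REP_

variable {n : ℕ}

lemma unit_det {u : Fin (n + 1) → E n} (hu : 0 < detm u) :
    IsUnit (Matrix.det (Matrix.of fun i j : Fin n => u i.succ j)) := by
  unfold detm at hu
  exact isUnit_iff_ne_zero.2 (abs_pos.1 hu)

/-- Coordinates without the vector number `0`. -/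
lemma coords {u : Fin (n + 1) → E n} (hu : 0 < detm u) (y : E n) :
    ∃ x : Fin n → ℝ, y = ∑ a, x a • u a.succ := by
  set M := Matrix.of fun i j : Fin n => u i.succ j with hM
  have hdet : IsUnit M.det := unit_det hu
  refine ⟨Matrix.vecMul (fun j => y j) M⁻¹, ?_⟩
  have h1 : Matrix.vecMul (Matrix.vecMul (fun j => y j) M⁻¹) M = fun j => y j := by
    rw [Matrix.vecMul_vecMul, Matrix.nonsing_inv_mul _ hdet, Matrix.vecMul_one]
  ext j
  have h2 := congrFun h1 j
  rw [WithLp.ofLp_sum, Finset.sum_apply]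
  rw [← h2]
  rfl

lemma solve {u : Fin (n + 1) → E n} (hu : 0 < detm u) (b : Fin n → ℝ) :
    ∃ v : E n, ∀ a : Fin n, inner ℝ (u a.succ) v = b a := by
  set M := Matrix.of fun i j : Fin n => u i.succ j with hM
  have hdet : IsUnit M.det := unit_det hu
  refine ⟨WithLp.toLp 2 (Matrix.mulVec M⁻¹ b), ?_⟩
  have h1 : Matrix.mulVec M (Matrix.mulVec M⁻¹ b) = b := by
    rw [Matrix.mulVec_mulVec, Matrix.mul_nonsing_inv _ hdet, Matrix.one_mulVec]
  intro a
  have h2 := congrFun h1 a
  rw [← h2, PiLp.inner_apply]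
  simp only [Matrix.mulVec, dotProduct, hM, Matrix.of_apply]
  refine Finset.sum_congr rfl fun j _ => ?_
  simp [mul_comm]

end REP_

open REP_

theorem p_REP : T_REP := by
  intro n u hsum hdet
  constructor
  · intro y
    obtain ⟨x, hx⟩ := coords hdet y
    set lam : Fin (n + 1) → ℝ := Fin.cons 0 x with hlam
    obtain ⟨i, -, hi⟩ := Finset.exists_max_image (univ : Finset (Fin (n + 1))) lam
      ⟨0, mem_univ 0⟩
    refine ⟨fun k => lam i - lam k, fun k => sub_nonneg.2 (hi k (mem_univ k)),
      ⟨i, sub_self _⟩, ?_⟩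
    unfold vec
    have h1 : ∑ k, (lam i - lam k) • u k = lam i • ∑ k, u k - ∑ k, lam k • u k := by
      rw [Finset.smul_sum, ← Finset.sum_sub_distrib]
      exact Finset.sum_congr rfl fun k _ => sub_smul _ _ _
    have h2 : ∑ k, lam k • u k = ∑ a : Fin n, x a • u a.succ := by
      rw [Fin.sum_univ_succ, hlam]
      simp
    rw [h1, hsum, h2, smul_zero, zero_sub, neg_neg]
    exact hx
  · intro c hc
    obtain ⟨v, hv⟩ := solve hdet (fun a => c a.succ)
    refine ⟨v, ?_⟩
    intro k
    refine Fin.cases ?_ hv k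
    have h1 : inner ℝ (∑ k, u k) v = 0 := by rw [hsum, inner_zero_left]
    rw [sum_inner, Fin.sum_univ_succ] at h1
    rw [Fin.sum_univ_succ] at hc
    have h2 : ∑ a : Fin n, inner ℝ (u a.succ) v = ∑ a : Fin n, c a.succ :=
      Finset.sum_congr rfl fun a _ => hv a
    rw [h2] at h1
    linarith

end Pool.Agent.ShadowA
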