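import Mathlib
import Pool.Agent.ShadowA.Targets

set_option autoImplicit false

/-!
# Covering shadows: a tie between two violations
-/

namespace Pool.Agent.ShadowA

open Finset Pool.Agent.Shadow

theorem p_TIE : T_TIE := by
  intro n μ ν i j hμ hν hi hj hpos
  have hji : j ≠ i := by
    rintro rfl
    rw [hj] at hpos
    exact lt_irrefl _ hpos
  have hne : (univ.erase i : Finset (Fin (n + 1))).Nonempty := ⟨j, mem_erase.2 ⟨hji, mem_univ j⟩⟩
  let φ : ℝ → ℝ := fun t => (univ.erase i).inf' hne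
    (fun k => t * μ k + (1 - t) * ν k - (1 - t) * ν i)
  have hφ : Continuous φ := by
    apply Continuous.finset_inf'_apply hne
    intro k _
    fun_prop
  have h0 : φ 0 ≤ 0 := by
    have h : φ 0 ≤ 0 * μ j + (1 - 0) * ν j - (1 - 0) * ν i :=
      inf'_le (fun k => 0 * μ k + (1 - 0) * ν k - (1 - 0) * ν i) (mem_erase.2 ⟨hji, mem_univ j⟩)
    rw [hj] at h
    linarith
  have h1 : 0 ≤ φ 1 := by
    apply le_inf'
    intro k _
    have := hμ k
    show 0 ≤ 1 * μ k + (1 - 1) * ν k - (1 - 1) * ν i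
    linarith
  obtain ⟨t, ⟨ht0, ht1⟩, ht⟩ := intermediate_value_Icc (zero_le_one (α := ℝ)) hφ.continuousOn
    (⟨h0, h1⟩ : (0 : ℝ) ∈ Set.Icc (φ 0) (φ 1))
  obtain ⟨m, hm, hm'⟩ := exists_mem_eq_inf' hne
    (fun k => t * μ k + (1 - t) * ν k - (1 - t) * ν i)
  refine ⟨t, m, ht0, ht1, (mem_erase.1 hm).1, ?_, ?_⟩
  · intro k
    by_cases hk : k = i
    · subst hk
      rw [hi]
      linarith
    · have h : φ t ≤ t * μ k + (1 - t) * ν k - (1 - t) * ν i :=
        inf'_le (fun k => t * μ k + (1 - t) * ν k - (1 - t) * ν i)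
          (mem_erase.2 ⟨hk, mem_univ k⟩)
      rw [ht] at h
      linarith
  · have h : φ t = t * μ m + (1 - t) * ν m - (1 - t) * ν i := hm'
    rw [ht] at h
    linarith

end Pool.Agent.ShadowA
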