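import Pool.Agent.ShadowA.Targets

/-!
# Covering shadows in high dimension: no violation in a cluster with tiny gap
-/

set_option autoImplicit false

open Finset MeasureTheory

namespace Pool.Agent.ShadowA

open Pool.Agent.Shadow

namespace TOP_

/-- AM-GM. -/
lemma prod_le {ι : Type*} (s : Finset ι) (z : ι → ℝ) (hz : ∀ i ∈ s, 0 ≤ z i) (hs : s.Nonempty) :
    ∏ i ∈ s, z i ≤ ((∑ i ∈ s, z i) / s.card) ^ s.card := by
  have hc : (0 : ℝ) < s.card := by exact_mod_cast hs.card_pos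
  have hc0 : s.card ≠ 0 := hs.card_pos.ne'
  have h := Real.geom_mean_le_arith_mean s (fun _ => 1) z (fun _ _ => zero_le_one)
    (by simpa using hs) hz
  simp only [Real.rpow_one, sum_const, nsmul_eq_mul, mul_one, one_mul] at h
  have h0 : 0 ≤ ∏ i ∈ s, z i := prod_nonneg hz
  have h2 := pow_le_pow_left₀ (Real.rpow_nonneg h0 _) h s.card
  rwa [← Real.rpow_natCast ((∏ i ∈ s, z i) ^ ((s.card : ℝ)⁻¹)), ← Real.rpow_mul h0,
    inv_mul_cancel₀ hc.ne', Real.rpow_one] at h2

lemma gv_vec_pos {n : ℕ} {K L : Set (E n)} {u : Fin (n + 1) → E n} {c v : E n}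
    {lam : ℝ} (hn : 2 ≤ n) (hK : IsBody K) (hD : DP K L u c) (hl : 1 ≤ lam)
    {x : E n} (hx : x ∈ K) {μ : Fin (n + 1) → ℝ}
    (hv : (1 - 1 / (n : ℝ)) * dep K (vec u μ) x +
      1 / (n : ℝ) * dep K (vec u μ) ((1 / 2 : ℝ) • (c - v)) < lam * gv K L v (vec u μ)) :
    0 < gv K L v (vec u μ) := by
  have hp := hD v μ 0 0
  rw [sub_self, zero_div, zero_add] at hp
  have h1 := dep_nonneg hK hx (vec u μ)
  set a := dep K (vec u μ) x
  set g := gv K L v (vec u μ)
  set d := dep K (vec u μ) ((1 / 2 : ℝ) • (c - v))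
  have hn' : (2 : ℝ) ≤ n := by exact_mod_cast hn
  have hn1 : (0 : ℝ) < 1 / (n : ℝ) := by positivity
  have hn2 : 1 / (n : ℝ) ≤ 1 / 2 := one_div_le_one_div_of_le (by norm_num) hn'
  set e := 1 / (n : ℝ)
  by_contra hg
  push Not at hg
  have h3 : 0 ≤ (1 - e) * a := by
    apply mul_nonneg <;> linarith
  have h4 : e * (g / 2) ≤ e * d := mul_le_mul_of_nonneg_left hp hn1.le
  nlinarith

lemma key (hDET : T_DET) {n : ℕ} {K L : Set (E n)} {u : Fin (n + 1) → E n} {v : E n}
    {s : ℝ} {i : Fin (n + 1)} (hn : 2 ≤ n) (hF : Frame K L u)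
    (hK : IsBody K) (hL : IsBody L) (hs : s < n + 1)
    (hg : ∀ k, k ≠ i → gv K L v (u k) = (n + 1 - s) / n)
    {μ : Fin (n + 1) → ℝ} (h0 : ∀ k, 0 ≤ μ k) (hi : μ i = 0)
    (hsum : ∑ k, μ k = n * (n + 1) / (n + 1 - s)) (hpos : 0 < gv K L v (vec u μ)) :
    gv K L v (vec u μ) + (n + 1) ≤ (n + 1) * ((n + 1) / (n + 1 - s)) := by
  classical
  have hn' : (2 : ℝ) ≤ n := by exact_mod_cast hn
  have hns : (0 : ℝ) < n + 1 - s := by linarith
  obtain ⟨m, hm⟩ : ∃ m : Fin (n + 1), i ≠ m := by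
    have : Nontrivial (Fin (n + 1)) := Fin.nontrivial_iff_two_le.2 (by omega)
    obtain ⟨m, hm⟩ := exists_ne i
    exact ⟨m, hm.symm⟩
  set τ : Fin (n + 1) → E n := Function.update (fun k => μ k • u k) i (vec u μ) with hτ
  have hτi : τ i = vec u μ := by simp [hτ]
  have hτk : ∀ k, k ≠ i → τ k = μ k • u k := fun k hk => by simp [hτ, hk]
  have hsumer : ∑ k ∈ univ.erase i, μ k • u k = ∑ k, μ k • u k :=
    sum_erase _ (by rw [hi, zero_smul])
  have hτsum : ∑ k, τ k = 0 := by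
    rw [← add_sum_erase _ _ (mem_univ i), hτi, sum_congr rfl (fun k hk => hτk k (ne_of_mem_erase hk)),
      hsumer]
    simp [vec]
  have hgvsum : ∑ k, gv K L v (τ k) = gv K L v (vec u μ) + (n + 1) := by
    rw [← add_sum_erase _ _ (mem_univ i), hτi]
    congr 1
    have h1 : ∀ k ∈ univ.erase i, gv K L v (τ k) = μ k * ((n + 1 - s) / n) := fun k hk => by
      have hk' := ne_of_mem_erase hk
      rw [hτk k hk', gv_smul hK hL v (h0 k), hg k hk']
    rw [sum_congr rfl h1, ← sum_mul, sum_erase _ hi, hsum]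
    have : (n : ℝ) ≠ 0 := by positivity
    field_simp
  have htot : tot K L τ = gv K L v (vec u μ) + (n + 1) := by
    rw [← hgvsum]
    unfold tot gv
    rw [sum_add_distrib, ← sum_inner, hτsum, inner_zero_left, add_zero]
  have hmax := hF.max τ hτsum (by rw [htot]; positivity)
  rw [htot] at hmax
  have hdet := hDET n u τ i m hm hF.sum hτsum (fun k => if k = m then -μ m else 0) μ
    (by
      rw [hτk m hm.symm]
      unfold vec
      simp)
    (fun k hk _ => hτk k hk)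
  have hprod : |(if i = m then -μ m else 0) - (if m = m then -μ m else 0)| *
      (∏ k ∈ (univ.erase i).erase m, |μ k|) = ∏ k ∈ univ.erase i, μ k := by
    rw [if_neg hm, if_pos rfl, zero_sub, neg_neg, ← mul_prod_erase (univ.erase i) μ
      (mem_erase.2 ⟨hm.symm, mem_univ m⟩), abs_of_nonneg (h0 m)]
    congr 1
    exact prod_congr rfl fun k _ => abs_of_nonneg (h0 k)
  have hdet' : detm τ = (∏ k ∈ univ.erase i, μ k) * detm u := hdet.trans (by rw [hprod])
  rw [hdet'] at hmax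
  have hmax' := le_of_mul_le_mul_right hmax hF.det_pos
  have hcard : (univ.erase i : Finset (Fin (n + 1))).card = n := by
    rw [card_erase_of_mem (mem_univ i), card_univ, Fintype.card_fin]; omega
  have hamgm := prod_le (univ.erase i) μ (fun k _ => h0 k)
    (card_pos.1 (by rw [hcard]; omega))
  rw [hcard, sum_erase _ hi, hsum] at hamgm
  have h3 := hmax'.trans hamgm
  have h4 := (pow_le_pow_iff_left₀ (by positivity) (by positivity) (by omega : n ≠ 0)).1 h3
  have h5 : (n : ℝ) * (n + 1) / (n + 1 - s) / n = (n + 1) / (n + 1 - s) := by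
    have : (n : ℝ) ≠ 0 := by positivity
    field_simp
  rw [h5, div_le_iff₀ (by positivity)] at h4
  linarith

end TOP_

theorem p_TOP (h : T_DET) : T_TOP := by
  intro n K L u c v lam s i hn hK hL hF hD hl hs0 hs hgi hgk x hx
  rintro ⟨μ₀, hμ₀, hμ₀i, hviol₀⟩
  have hn' : (2 : ℝ) ≤ n := by exact_mod_cast hn
  have hn0 : (0 : ℝ) < n := by linarith
  have hs1 : s ≤ 1 := by
    have h1 : (1 : ℝ) ≤ 8 * lam * (n + 1) := by nlinarith
    nlinarith
  have hns : (0 : ℝ) < n + 1 - s := by linarith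
  have hpos₀ := TOP_.gv_vec_pos hn hK hD hl hx hviol₀
  -- the sum of the coordinates is positive
  have hN : 0 < ∑ k, μ₀ k := by
    rcases (sum_nonneg fun k (_ : k ∈ univ) => hμ₀ k).lt_or_eq with h1 | h1
    · exact h1
    · exfalso
      have h2 : ∀ k, μ₀ k = 0 := fun k =>
        (sum_eq_zero_iff_of_nonneg fun k _ => hμ₀ k).1 h1.symm k (mem_univ k)
      have h3 : vec u μ₀ = 0 := by simp [vec, h2]
      rw [h3] at hpos₀
      have h4 : gv K L v 0 = 0 := by
        unfold gv gap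
        rw [hs_zero hK, hs_zero hL]
        simp
      linarith
  set a : ℝ := (n * (n + 1) / (n + 1 - s)) / ∑ k, μ₀ k with ha
  have ha0 : 0 < a := by positivity
  set μ : Fin (n + 1) → ℝ := fun k => a * μ₀ k with hμ
  have hμ0 : ∀ k, 0 ≤ μ k := fun k => mul_nonneg ha0.le (hμ₀ k)
  have hμi : μ i = 0 := by simp [hμ, hμ₀i]
  have hsum : ∑ k, μ k = n * (n + 1) / (n + 1 - s) := by
    rw [hμ, ← mul_sum, ha, div_mul_cancel₀ _ hN.ne']
  have hvec : vec u μ = a • vec u μ₀ := vec_smul u μ₀ a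
  have hviol : (1 - 1 / (n : ℝ)) * dep K (vec u μ) x +
      1 / (n : ℝ) * dep K (vec u μ) ((1 / 2 : ℝ) • (c - v)) < lam * gv K L v (vec u μ) := by
    rw [hvec, dep_smul hK ha0.le, dep_smul hK ha0.le, gv_smul hK hL v ha0.le]
    have := mul_lt_mul_of_pos_left hviol₀ ha0
    linarith
  have hpos := TOP_.gv_vec_pos hn hK hD hl hx hviol
  have hkey := TOP_.key h hn hF hK hL (by linarith) hgk hμ0 hμi hsum hpos
  -- some coordinate is at least `1`
  obtain ⟨j, hj⟩ : ∃ j, 1 ≤ μ j := by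
    by_contra hcon
    push Not at hcon
    have h1 : ∑ k ∈ univ.erase i, μ k ≤ ∑ k ∈ univ.erase i, (1 : ℝ) :=
      sum_le_sum fun k _ => (hcon k).le
    have hcard : (univ.erase i : Finset (Fin (n + 1))).card = n := by
      rw [card_erase_of_mem (mem_univ i), card_univ, Fintype.card_fin]; omega
    rw [sum_erase _ hμi, hsum, sum_const, hcard, nsmul_eq_mul, mul_one, div_le_iff₀ hns] at h1
    nlinarith
  have hp := hD v μ i j
  rw [hμi, sub_zero] at hp
  have hx0 := dep_nonneg hK hx (vec u μ)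
  set A := dep K (vec u μ) x
  set g := gv K L v (vec u μ)
  set d := dep K (vec u μ) ((1 / 2 : ℝ) • (c - v))
  have hn2 : 1 / (n : ℝ) ≤ 1 := by
    rw [div_le_one hn0]; linarith
  have h1 : 0 ≤ (1 - 1 / (n : ℝ)) * A := mul_nonneg (by linarith) hx0
  have h2 : 1 / (n : ℝ) * (1 / 8) ≤ 1 / (n : ℝ) * d :=
    mul_le_mul_of_nonneg_left (by linarith) (by positivity)
  have h3 : 1 / (n : ℝ) * (1 / 8) < lam * g := by linarith
  have h4 : g ≤ (n + 1) * s / n := by
    have h5 : ((n : ℝ) + 1) * ((n + 1) / (n + 1 - s)) = (n + 1) + (n + 1) * s / (n + 1 - s) := by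
      field_simp
      ring
    have h6 : ((n : ℝ) + 1) * s / (n + 1 - s) ≤ (n + 1) * s / n :=
      div_le_div_of_nonneg_left (by positivity) hn0 (by linarith)
    linarith
  have h5 : lam * g ≤ lam * ((n + 1) * s / n) := mul_le_mul_of_nonneg_left h4 (by linarith)
  have h6 : 1 / (n : ℝ) * (1 / 8) < lam * ((n + 1) * s / n) := lt_of_lt_of_le h3 h5
  have h7 : (1 : ℝ) / 8 < lam * ((n + 1) * s) := by
    have := mul_lt_mul_of_pos_left h6 hn0
    have e1 : (n : ℝ) * (1 / (n : ℝ) * (1 / 8)) = 1 / 8 := by field_simp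
    have e2 : (n : ℝ) * (lam * ((n + 1) * s / n)) = lam * ((n + 1) * s) := by field_simp
    rwa [e1, e2] at this
  linarith

end Pool.Agent.ShadowA
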