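import Pool.Agent.ShadowA.Targets

/-!
# WID: the widths of `K` and `L` are not both small
-/

set_option autoImplicit false

open Finset MeasureTheory

namespace Pool.Agent.ShadowA

open Pool.Agent.Shadow

namespace WID_

variable {n : ℕ}

private theorem exists_q (hn : 1 ≤ n) (u : Fin (n + 1) → E n) (hu : ∑ k, u k = 0)
    (i j : Fin (n + 1)) (hij : i ≠ j) : ∃ q : E n, ‖q‖ = 1 ∧
      (∀ k, k ≠ i → k ≠ j → inner ℝ q (u k) = 0) ∧ inner ℝ q (u j) = -inner ℝ q (u i) := by
  have hsum : ∑ a : Fin n, (u (i.succAbove a) + (if i.succAbove a = j then u i else 0)) = 0 := by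
    rw [Finset.sum_add_distrib]
    obtain ⟨b, hb⟩ := Fin.exists_succAbove_eq hij.symm
    have h1 : ∑ a : Fin n, (if i.succAbove a = j then u i else 0) = u i := by
      rw [Finset.sum_eq_single b]
      · rw [if_pos hb]
      · intro a _ hab
        rw [if_neg]
        intro h
        exact hab (Fin.succAbove_right_injective (h.trans hb.symm))
      · intro h
        exact absurd (mem_univ b) h
    rw [h1, add_comm, ← Fin.sum_univ_succAbove u i, hu]
  obtain ⟨q, hq1, hq2⟩ := exists_unit_orth hn _ hsum
  refine ⟨q, hq1, ?_, ?_⟩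
  · intro k hki hkj
    obtain ⟨a, rfl⟩ := Fin.exists_succAbove_eq hki
    have := hq2 a
    rwa [if_neg hkj, add_zero] at this
  · obtain ⟨a, ha⟩ := Fin.exists_succAbove_eq hij.symm
    have := hq2 a
    rw [if_pos ha, ha, inner_add_right] at this
    linarith

end WID_

open WID_ in
/-- WID. -/
theorem p_WID (h : T_COV) : T_WID := by
  intro n K L u hn hK hL hC hF μ i j
  set y : E n := vec u μ with hy
  set r : ℝ := μ j - μ i with hr
  have hKy := hs_neg_nonneg hK y
  have hLy := hs_neg_nonneg hL y
  have hn0 : (0 : ℝ) ≤ n := Nat.cast_nonneg n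
  by_cases hr0 : r ≤ 0
  · have : ((n : ℝ) + 1) * r ≤ 0 := mul_nonpos_of_nonneg_of_nonpos (by linarith) hr0
    linarith
  rw [not_le] at hr0
  have hij : i ≠ j := by
    intro e
    rw [hr, e] at hr0
    simp at hr0
  obtain ⟨q, hq, hq0, hqj⟩ := exists_q (by omega) u hF.sum i j hij
  set a : ℝ := inner ℝ q (u i) with ha
  have hqy : inner ℝ q y = r * a := by
    rw [hy]
    unfold vec
    rw [inner_neg_right, inner_sum]
    rw [Finset.sum_eq_add i j hij (by
      intro k _ hk
      rw [real_inner_smul_right, hq0 k hk.1 hk.2, mul_zero])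
      (fun h => absurd (mem_univ _) h) (fun h => absurd (mem_univ _) h)]
    rw [real_inner_smul_right, real_inner_smul_right, hqj, ← ha, hr]
    ring
  set e : Fin (n + 1) → E n := fun k =>
    if k = i then (1 / r) • (-y) else if k = j then (1 / r) • y else 0 with he
  have hei : e i = (1 / r) • (-y) := by simp [he]
  have hej : e j = (1 / r) • y := by simp [he, hij.symm]
  have hek : ∀ k, k ≠ i → k ≠ j → e k = 0 := fun k h1 h2 => by simp [he, h1, h2]
  have hes : ∑ k, e k = 0 := by
    rw [Finset.sum_eq_add i j hij (fun k _ hk => hek k hk.1 hk.2)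
      (fun h => absurd (mem_univ _) h) (fun h => absurd (mem_univ _) h), hei, hej]
    rw [← smul_add, neg_add_cancel, smul_zero]
  have hcov := h n K L hK hL hC (Fin (n + 1)) (fun k => u k + e k) q hq (by
    intro k
    rw [inner_add_right]
    by_cases h1 : k = i
    · rw [h1, hei, real_inner_smul_right, inner_neg_right, hqy, ← ha]
      field_simp
      ring
    · by_cases h2 : k = j
      · rw [h2, hej, real_inner_smul_right, hqy, hqj]
        field_simp
        ring
      · rw [hek k h1 h2, hq0 k h1 h2, inner_zero_right, add_zero]) (by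
    rw [Finset.sum_add_distrib, hF.sum, hes, add_zero])
  have hr1 : 0 ≤ 1 / r := by positivity
  set d : Fin (n + 1) → ℝ := fun k =>
    if k = i then -(1 / r * (hs K y + hs L (-y))) else
      if k = j then -(1 / r * (hs K (-y) + hs L y)) else 0 with hd
  have hdi : d i = -(1 / r * (hs K y + hs L (-y))) := by simp [hd]
  have hdj : d j = -(1 / r * (hs K (-y) + hs L y)) := by simp [hd, hij.symm]
  have hdk : ∀ k, k ≠ i → k ≠ j → d k = 0 := fun k h1 h2 => by simp [hd, h1, h2]
  have hds : ∑ k, d k = -(1 / r * (hs K y + hs K (-y) + (hs L y + hs L (-y)))) := by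
    rw [Finset.sum_eq_add i j hij (fun k _ hk => hdk k hk.1 hk.2)
      (fun h => absurd (mem_univ _) h) (fun h => absurd (mem_univ _) h), hdi, hdj]
    ring
  have hle : ∀ k, gap K L (u k) + d k ≤ gap K L (u k + e k) := by
    intro k
    unfold gap
    by_cases h1 : k = i
    · rw [h1, hei, hdi]
      have g1 : hs K (u i) ≤ hs K (u i + (1 / r) • (-y)) + 1 / r * hs K y := by
        have := hs_add_le hK (u i + (1 / r) • (-y)) ((1 / r) • y)
        rw [hs_smul hK hr1] at this
        refine le_trans (le_of_eq ?_) this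
        congr 1
        rw [smul_neg, neg_add_cancel_right]
      have g2 : hs L (u i + (1 / r) • (-y)) ≤ hs L (u i) + 1 / r * hs L (-y) := by
        have := hs_add_le hL (u i) ((1 / r) • (-y))
        rwa [hs_smul hL hr1] at this
      linarith
    · by_cases h2 : k = j
      · rw [h2, hej, hdj]
        have g1 : hs K (u j) ≤ hs K (u j + (1 / r) • y) + 1 / r * hs K (-y) := by
          have := hs_add_le hK (u j + (1 / r) • y) ((1 / r) • (-y))
          rw [hs_smul hK hr1] at this
          refine le_trans (le_of_eq ?_) this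
          congr 1
          rw [smul_neg, add_neg_cancel_right]
        have g2 : hs L (u j + (1 / r) • y) ≤ hs L (u j) + 1 / r * hs L y := by
          have := hs_add_le hL (u j) ((1 / r) • y)
          rwa [hs_smul hL hr1] at this
        linarith
      · rw [hek k h1 h2, hdk k h1 h2, add_zero, add_zero]
  have hsum := Finset.sum_le_sum (s := univ) (fun k _ => hle k)
  rw [Finset.sum_add_distrib, hds] at hsum
  have htot : ∑ k, gap K L (u k) = n + 1 := hF.tot_eq
  rw [htot] at hsum
  have hfin : (n : ℝ) + 1 ≤ 1 / r * (hs K y + hs K (-y) + (hs L y + hs L (-y))) := by linarith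
  rw [one_div, inv_mul_eq_div, le_div_iff₀ hr0] at hfin
  exact hfin

end Pool.Agent.ShadowA
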