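import Pool.Agent.ShadowA.COV
import Pool.Agent.ShadowA.FITN
import Pool.Agent.ShadowA.MATB
import Pool.Agent.ShadowA.FRM
import Pool.Agent.ShadowA.DET
import Pool.Agent.ShadowA.REP
import Pool.Agent.ShadowA.WID
import Pool.Agent.ShadowA.CEN
import Pool.Agent.ShadowA.TIE
import Pool.Agent.ShadowA.EMX
import Pool.Agent.ShadowA.PAIR
import Pool.Agent.ShadowA.NUM
import Pool.Agent.ShadowA.DSJ
import Pool.Agent.ShadowA.TOP
import Pool.Agent.ShadowA.MID
import Pool.Agent.ShadowA.BM
import Pool.Agent.ShadowA.SEL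
import Pool.Agent.ShadowA.COMB
import Pool.Agent.ShadowA.FNUM
import Pool.Agent.ShadowA.PLB
import Pool.Agent.ShadowA.GOOD
import Pool.Agent.ShadowA.DPV
import Pool.Agent.ShadowA.MAIN

/-!
# Covering shadows in high dimension: assembly
-/

set_option autoImplicit false

open MeasureTheory Filter Topology

namespace Pool.Agent.ShadowA

open Pool.Agent.Shadow

/-- The main theorem. -/
theorem main_bound : T_MAIN := by
  have hWID := p_WID p_COV
  have hSEL := p_SEL (p_DSJ p_TIE (p_EMX p_DET) (p_PAIR p_COV) p_NUM p_DET) (p_TOP p_DET) p_REP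
    p_MID
  exact p_MAIN p_FITN (p_FRM p_COV p_MATB) (p_DPV hWID p_CEN)
    (p_COMB hSEL p_MID (p_GOOD p_REP) p_PLB) (p_BM p_PLB) p_FNUM

/-- The constants tend to one. -/
theorem const_tendsto :
    Tendsto (fun n : ℕ => (n : ℝ) ^ (50 / (n : ℝ))) atTop (𝓝 1) := by
  have h1 : Tendsto (fun x : ℝ => x ^ (50 / x)) atTop (𝓝 1) := by
    have := tendsto_rpow_div_mul_add 50 1 0 zero_ne_one
    simpa using this
  exact h1.comp tendsto_natCast_atTop_atTop

end Pool.Agent.ShadowA
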