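import Pool.Agent.Shadow.Main

/-!
# Covering shadows in high dimension: support functions
-/

set_option autoImplicit false

open Finset MeasureTheory

namespace Pool.Agent.ShadowA

open Pool.Agent.Shadow

variable {n : ℕ}

/-- The support function of `K`. -/
noncomputable def hs (K : Set (E n)) (y : E n) : ℝ := sSup ((fun x => inner ℝ y x) '' K)

/-- The difference of the support functions of `K` and `L`. -/
noncomputable def gap (K L : Set (E n)) (y : E n) : ℝ := hs K y - hs L y

/-- The depth of the point `x` in the body `K`, in the direction `y`. -/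
noncomputable def dep (K : Set (E n)) (y x : E n) : ℝ := hs K y - inner ℝ y x

/-- The gap after the translation of `K` by `v`. -/
noncomputable def gv (K L : Set (E n)) (v y : E n) : ℝ := gap K L y + inner ℝ y v

/-- The sum of the gaps of a tuple of vectors. -/
noncomputable def tot (K L : Set (E n)) (τ : Fin (n + 1) → E n) : ℝ := ∑ k, gap K L (τ k)

/-- The absolute value of the determinant of a tuple (without its vector number `0`). -/
noncomputable def detm (τ : Fin (n + 1) → E n) : ℝ :=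
  |Matrix.det (Matrix.of fun i j : Fin n => τ i.succ j)|

/-- The vector `-∑ μ_k u_k`. -/
noncomputable def vec (u : Fin (n + 1) → E n) (μ : Fin (n + 1) → ℝ) : E n := -∑ k, μ k • u k

/-- A frame of maximal volume. -/
structure Frame (K L : Set (E n)) (u : Fin (n + 1) → E n) : Prop where
  sum : ∑ k, u k = 0
  tot_eq : tot K L u = n + 1
  det_pos : 0 < detm u
  max : ∀ τ : Fin (n + 1) → E n, ∑ k, τ k = 0 → 0 ≤ tot K L τ →
    (tot K L τ / (n + 1)) ^ n * detm u ≤ detm τ

/-- The points `x` with depth at least `lam` times the gap in all directions (after the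
translation of `K` by `v`). -/
def lev (K L : Set (E n)) (lam : ℝ) (v : E n) : Set (E n) :=
  {x | ∀ y, lam * gv K L v y ≤ dep K y x}

/-- The point of `K` (moved towards `p`) is not deep enough in some direction of the cluster
`j`. -/
def Viol (K L : Set (E n)) (u : Fin (n + 1) → E n) (lam : ℝ) (p v x : E n) (j : Fin (n + 1)) :
    Prop :=
  ∃ μ : Fin (n + 1) → ℝ, (∀ k, 0 ≤ μ k) ∧ μ j = 0 ∧
    (1 - 1 / (n : ℝ)) * dep K (vec u μ) x + 1 / (n : ℝ) * dep K (vec u μ) p <
      lam * gv K L v (vec u μ)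

section support

variable {K L : Set (E n)}

lemma bdd (hK : IsBody K) (y : E n) : BddAbove ((fun x => inner ℝ y x) '' K) :=
  (hK.2.1.image (by fun_prop)).bddAbove

lemma inner_le_hs (hK : IsBody K) {x : E n} (hx : x ∈ K) (y : E n) : inner ℝ y x ≤ hs K y :=
  le_csSup (bdd hK y) ⟨x, hx, rfl⟩

lemma exists_hs (hK : IsBody K) (y : E n) : ∃ x ∈ K, inner ℝ y x = hs K y := by
  have h := (hK.2.1.image (f := fun x : E n => inner ℝ y x) (by fun_prop)).sSup_mem
    (hK.1.image _)
  exact h

lemma hs_le (hK : IsBody K) {y : E n} {c : ℝ} (h : ∀ x ∈ K, inner ℝ y x ≤ c) : hs K y ≤ c := by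
  obtain ⟨x, hx, hx'⟩ := exists_hs hK y
  rw [← hx']
  exact h x hx

lemma dep_nonneg (hK : IsBody K) {x : E n} (hx : x ∈ K) (y : E n) : 0 ≤ dep K y x :=
  sub_nonneg.2 (inner_le_hs hK hx y)

lemma hs_add_le (hK : IsBody K) (y z : E n) : hs K (y + z) ≤ hs K y + hs K z :=
  hs_le hK fun x hx => by
    rw [inner_add_left]
    exact add_le_add (inner_le_hs hK hx y) (inner_le_hs hK hx z)

lemma hs_smul (hK : IsBody K) {c : ℝ} (hc : 0 ≤ c) (y : E n) : hs K (c • y) = c * hs K y := by
  apply le_antisymm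
  · refine hs_le hK fun x hx => ?_
    rw [real_inner_smul_left]
    exact mul_le_mul_of_nonneg_left (inner_le_hs hK hx y) hc
  · obtain ⟨x, hx, hx'⟩ := exists_hs hK y
    rw [← hx', ← real_inner_smul_left]
    exact inner_le_hs hK hx _

lemma hs_zero (hK : IsBody K) : hs K 0 = 0 := by
  have := hs_smul hK le_rfl (0 : E n)
  simpa using this

lemma hs_sum_le (hK : IsBody K) {ι : Type*} (s : Finset ι) (y : ι → E n) :
    hs K (∑ i ∈ s, y i) ≤ ∑ i ∈ s, hs K (y i) := by
  classical
  induction s using Finset.induction_on with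
  | empty => simp [hs_zero hK]
  | insert a s ha ih =>
    rw [Finset.sum_insert ha, Finset.sum_insert ha]
    exact (hs_add_le hK _ _).trans (by linarith)

lemma hs_neg_nonneg (hK : IsBody K) (y : E n) : 0 ≤ hs K y + hs K (-y) := by
  have := hs_add_le hK y (-y)
  rw [add_neg_cancel, hs_zero hK] at this
  exact this

lemma exists_bound (hK : IsBody K) : ∃ R : ℝ, 0 < R ∧ ∀ x ∈ K, ‖x‖ ≤ R := by
  obtain ⟨R, hR⟩ := hK.2.1.isBounded.exists_norm_le
  exact ⟨max R 1, lt_max_of_lt_right one_pos, fun x hx => (hR x hx).trans (le_max_left _ _)⟩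

lemma hs_lip (hK : IsBody K) : ∃ R : ℝ, 0 < R ∧ ∀ y z : E n, |hs K y - hs K z| ≤ R * ‖y - z‖ := by
  obtain ⟨R, hR0, hR⟩ := exists_bound hK
  have key : ∀ y z : E n, hs K y - hs K z ≤ R * ‖y - z‖ := by
    intro y z
    rw [sub_le_iff_le_add']
    refine hs_le hK fun x hx => ?_
    have h1 : inner ℝ y x = inner ℝ z x + inner ℝ (y - z) x := by rw [inner_sub_left]; ring
    have h2 : inner ℝ (y - z) x ≤ ‖y - z‖ * ‖x‖ := real_inner_le_norm _ _
    have h3 : ‖y - z‖ * ‖x‖ ≤ ‖y - z‖ * R := mul_le_mul_of_nonneg_left (hR x hx) (norm_nonneg _)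
    have h4 := inner_le_hs hK hx z
    rw [h1]
    linarith
  refine ⟨R, hR0, fun y z => abs_le.2 ⟨?_, key y z⟩⟩
  have := key z y
  rw [norm_sub_rev] at this
  linarith

lemma hs_continuous (hK : IsBody K) : Continuous (hs K) := by
  obtain ⟨R, hR0, hR⟩ := hs_lip hK
  refine (LipschitzWith.of_dist_le_mul (K := ⟨R, hR0.le⟩) fun y z => ?_).continuous
  rw [Real.dist_eq, dist_eq_norm]
  exact hR y z

lemma gap_continuous (hK : IsBody K) (hL : IsBody L) : Continuous (gap K L) :=
  (hs_continuous hK).sub (hs_continuous hL)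

lemma gap_smul (hK : IsBody K) (hL : IsBody L) {c : ℝ} (hc : 0 ≤ c) (y : E n) :
    gap K L (c • y) = c * gap K L y := by
  unfold gap
  rw [hs_smul hK hc, hs_smul hL hc]
  ring

lemma gv_smul (hK : IsBody K) (hL : IsBody L) (v : E n) {c : ℝ} (hc : 0 ≤ c) (y : E n) :
    gv K L v (c • y) = c * gv K L v y := by
  unfold gv
  rw [gap_smul hK hL hc, real_inner_smul_left]
  ring

lemma dep_smul (hK : IsBody K) {c : ℝ} (hc : 0 ≤ c) (y x : E n) :
    dep K (c • y) x = c * dep K y x := by
  unfold dep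
  rw [hs_smul hK hc, real_inner_smul_left]
  ring

lemma vec_smul (u : Fin (n + 1) → E n) (μ : Fin (n + 1) → ℝ) (c : ℝ) :
    vec u (fun k => c * μ k) = c • vec u μ := by
  unfold vec
  rw [smul_neg, Finset.smul_sum]
  congr 1
  exact Finset.sum_congr rfl fun k _ => by rw [smul_smul]

lemma vec_add (u : Fin (n + 1) → E n) (μ ν : Fin (n + 1) → ℝ) :
    vec u (fun k => μ k + ν k) = vec u μ + vec u ν := by
  unfold vec
  rw [← neg_add, ← Finset.sum_add_distrib]
  congr 1
  exact Finset.sum_congr rfl fun k _ => add_smul _ _ _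

lemma vec_const {u : Fin (n + 1) → E n} (hu : ∑ k, u k = 0) (μ : Fin (n + 1) → ℝ) (c : ℝ) :
    vec u (fun k => μ k - c) = vec u μ := by
  unfold vec
  congr 1
  simp only [sub_smul, Finset.sum_sub_distrib]
  rw [← Finset.smul_sum, hu, smul_zero, sub_zero]

/-- A point with `⟨y, x⟩ ≤ h_L(y)` for all `y` lies in `L`. -/
lemma mem_of_inner_le (hL : IsBody L) {x : E n} (h : ∀ y, inner ℝ y x ≤ hs L y) : x ∈ L := by
  by_contra hx
  obtain ⟨f, c, hf1, hf2⟩ := geometric_hahn_banach_closed_point hL.2.2 hL.2.1.isClosed hx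
  set y : E n := (InnerProductSpace.toDual ℝ (E n)).symm f with hy
  have hfy : ∀ z, inner ℝ y z = f z := fun z => by
    rw [hy, InnerProductSpace.toDual_symm_apply]
  have h1 := h y
  rw [hfy] at h1
  have h2 : hs L y ≤ c := hs_le hL fun z hz => by rw [hfy]; exact (hf1 z hz).le
  linarith

end support

end Pool.Agent.ShadowA
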