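import Pool.Agent.ShadowA.Targets

/-!
# COV: balanced families in a hyperplane
-/

set_option autoImplicit false

open Finset MeasureTheory

namespace Pool.Agent.ShadowA

open Pool.Agent.Shadow

namespace COV_

variable {n : ℕ}

theorem inner_sh {q w : E n} (h : inner ℝ q w = 0) (x : E n) :
    inner ℝ w (Pool.Agent.Shadow.shadow q x) = inner ℝ w x := by
  unfold Pool.Agent.Shadow.shadow
  rw [inner_sub_right, real_inner_smul_right, real_inner_comm q w, h, mul_zero, sub_zero]

theorem gap_le {K L : Set (E n)} (hK : IsBody K) (hL : IsBody L) {q v : E n}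
    (hc : (fun x => x + v) '' (Pool.Agent.Shadow.shadow q '' K) ⊆
      Pool.Agent.Shadow.shadow q '' L) {w : E n}
    (hw : inner ℝ q w = 0) : gap K L w ≤ - inner ℝ w v := by
  obtain ⟨x, hx, hx'⟩ := exists_hs hK w
  obtain ⟨x', hxL, he⟩ := hc ⟨Pool.Agent.Shadow.shadow q x, ⟨x, hx, rfl⟩, rfl⟩
  have h1 : inner ℝ w x' = inner ℝ w x + inner ℝ w v := by
    rw [← inner_sh hw x', he]
    show inner ℝ w (Pool.Agent.Shadow.shadow q x + v) = _
    rw [inner_add_right, inner_sh hw]
  have h2 := inner_le_hs hL hxL w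
  unfold gap
  rw [← hx']
  linarith

end COV_

/-- COV -/
theorem p_COV : T_COV := by
  intro n K L hK hL hcov ι _ w q hq hqw hw
  obtain ⟨v, _, hv⟩ := hcov q hq
  have h1 : ∑ l, gap K L (w l) ≤ ∑ l, - inner ℝ (w l) v :=
    sum_le_sum fun l _ => COV_.gap_le hK hL hv (hqw l)
  rw [sum_neg_distrib, ← sum_inner, hw, inner_zero_left, neg_zero] at h1
  exact h1

end Pool.Agent.ShadowA
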