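import Mathlib
import Pool.Agent.ShadowA.Targets

/-!
# Covering shadows in high dimension: the choice of the translation
-/

set_option autoImplicit false

open Finset MeasureTheory

namespace Pool.Agent.ShadowA

open Pool.Agent.Shadow

namespace SEL_

/-- Lower semicontinuity of the measure of a family of sets. -/
lemma lsc {n : ℕ} (S : ℝ → Set (E n))
    (hS : ∀ s x, x ∈ S s → ∀ᶠ s' in nhds s, x ∈ S s') (s : ℝ) (b : ENNReal)
    (hb : b < volume (S s)) : ∀ᶠ s' in nhds s, b < volume (S s') := by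
  set A : ℕ → Set (E n) := fun k => {x | ∀ s' : ℝ, |s' - s| < 1 / ((k : ℝ) + 1) → x ∈ S s'}
    with hA
  have hmono : Monotone A := by
    intro k l hkl x hx s' hs'
    apply hx s'
    refine hs'.trans_le ?_
    apply one_div_le_one_div_of_le (by positivity)
    have : (k : ℝ) ≤ l := by exact_mod_cast hkl
    linarith
  have hsub : S s ⊆ ⋃ k, A k := by
    intro x hx
    obtain ⟨e, he, h⟩ := Metric.eventually_nhds_iff.1 (hS s x hx)
    obtain ⟨k, hk⟩ := exists_nat_one_div_lt he
    refine Set.mem_iUnion.2 ⟨k, fun s' hs' => h ?_⟩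
    rw [Real.dist_eq]
    exact hs'.trans hk
  have h1 : b < ⨆ k, volume (A k) := by
    rw [← hmono.measure_iUnion]
    exact hb.trans_le (measure_mono hsub)
  obtain ⟨k, hk⟩ := lt_iSup_iff.1 h1
  refine Metric.eventually_nhds_iff.2 ⟨1 / ((k : ℝ) + 1), by positivity, fun s' hs' => ?_⟩
  rw [Real.dist_eq] at hs'
  exact hk.trans_le (measure_mono fun x hx => hx s' hs')

/-- The set of the points of `K` with a violation in the cluster `j`. -/
def Bad {n : ℕ} (K L : Set (E n)) (u : Fin (n + 1) → E n) (c : E n) (lam : ℝ) (v : E n)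
    (j : Fin (n + 1)) : Set (E n) :=
  {x | x ∈ K ∧ Viol K L u lam ((1 / 2 : ℝ) • (c - v)) v x j}

lemma bad_open {n : ℕ} (K L : Set (E n)) (u : Fin (n + 1) → E n) (c : E n) (lam : ℝ)
    (v : ℝ → E n) (hv : Continuous v) (j : Fin (n + 1)) (s : ℝ) (x : E n)
    (hx : x ∈ Bad K L u c lam (v s) j) :
    ∀ᶠ s' in nhds s, x ∈ Bad K L u c lam (v s') j := by
  obtain ⟨hxK, μ, hμ0, hμj, hlt⟩ := hx
  have hc1 : Continuous fun s : ℝ => (1 - 1 / (n : ℝ)) * dep K (vec u μ) x +
      1 / (n : ℝ) * dep K (vec u μ) ((1 / 2 : ℝ) • (c - v s)) := by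
    unfold dep
    fun_prop
  have hc2 : Continuous fun s : ℝ => lam * gv K L (v s) (vec u μ) := by
    unfold gv
    fun_prop
  filter_upwards [(hc1.tendsto s).eventually_lt (hc2.tendsto s) hlt] with s' hs'
  exact ⟨hxK, μ, hμ0, hμj, hs'⟩

lemma bad_meas {n : ℕ} {K L : Set (E n)} {u : Fin (n + 1) → E n} {c : E n} {lam : ℝ}
    (h4 : T_MID) (hn : 2 ≤ n) (hK : IsBody K) (hL : IsBody L) (hDP : DP K L u c)
    (hlam : 1 ≤ lam) (v : E n) (j : Fin (n + 1)) : MeasurableSet (Bad K L u c lam v j) := by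
  have h := (h4 n K L u c v lam j hn hK hL hDP hlam).2
  have e : Bad K L u c lam v j =
      K \ {x | x ∈ K ∧ ¬ Viol K L u lam ((1 / 2 : ℝ) • (c - v)) v x j} := by
    ext x
    constructor
    · rintro ⟨hx, hv⟩
      exact ⟨hx, fun h => h.2 hv⟩
    · rintro ⟨hx, hv⟩
      refine ⟨hx, ?_⟩
      by_contra hc
      exact hv ⟨hx, hc⟩
  rw [e]
  exact hK.2.1.isClosed.measurableSet.diff h.measurableSet

/-- Two disjoint bad sets cannot both be large. -/
lemma not_both {n : ℕ} {K L : Set (E n)} {u : Fin (n + 1) → E n} {c : E n} {lam : ℝ}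
    (h4 : T_MID) (hn : 2 ≤ n) (hK : IsBody K) (hL : IsBody L) (hDP : DP K L u c)
    (hlam : 1 ≤ lam) (v : E n) (i j : Fin (n + 1))
    (hd : ∀ x ∈ K, Viol K L u lam ((1 / 2 : ℝ) • (c - v)) v x i →
      Viol K L u lam ((1 / 2 : ℝ) • (c - v)) v x j → False)
    (h1 : volume K / 2 < volume (Bad K L u c lam v i))
    (h2 : volume K / 2 < volume (Bad K L u c lam v j)) : False := by
  have hdis : Disjoint (Bad K L u c lam v i) (Bad K L u c lam v j) := by
    rw [Set.disjoint_left]
    rintro x ⟨hx, hxi⟩ ⟨_, hxj⟩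
    exact hd x hx hxi hxj
  have h3 := measure_union (μ := volume) hdis (bad_meas h4 hn hK hL hDP hlam v j)
  have h5 : volume (Bad K L u c lam v i ∪ Bad K L u c lam v j) ≤ volume K := by
    apply measure_mono
    rintro x (hx | hx)
    · exact hx.1
    · exact hx.1
  rw [h3] at h5
  have h6 := ENNReal.add_lt_add h1 h2
  rw [ENNReal.add_halves] at h6
  exact absurd h5 (not_le.2 h6)

/-- The path of the translations. -/
def vs {n : ℕ} (v1 a : E n) (s : ℝ) : E n := v1 + (1 - s) • a

lemma vs_cont {n : ℕ} (v1 a : E n) : Continuous (vs v1 a) := by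
  unfold vs
  fun_prop

lemma gv_vs {n : ℕ} {K L : Set (E n)} {u : Fin (n + 1) → E n} {v1 a : E n} {i : Fin (n + 1)}
    (hn : 2 ≤ n)
    (hv1 : ∀ k, inner ℝ (u k) v1 = 1 - gap K L (u k))
    (ha : ∀ k, inner ℝ (u k) a = if k = i then -1 else 1 / (n : ℝ)) (s : ℝ) (k : Fin (n + 1)) :
    gv K L (vs v1 a s) (u k) = if k = i then s else (n + 1 - s) / n := by
  have hn0 : (n : ℝ) ≠ 0 := by
    have : n ≠ 0 := by omega
    exact_mod_cast this
  unfold gv vs
  rw [inner_add_right, real_inner_smul_right, hv1, ha]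
  split_ifs
  · ring
  · field_simp
    ring

end SEL_

open SEL_ in
theorem p_SEL (h1 : T_DSJ) (h2 : T_TOP) (h3 : T_REP) (h4 : T_MID) : T_SEL := by
  intro n K L u c lam hn hK hL hcov hF hDP hlam hbig
  have hnR : (2 : ℝ) ≤ n := by exact_mod_cast hn
  have hlam0 : 0 < lam := by linarith
  set X : ℝ := Real.exp ((n - 1) / (1 + lam * n / (n - 1))) with hX
  have hX0 : 0 < X := Real.exp_pos _
  have he2 : 0 < Real.exp 2 := Real.exp_pos _
  obtain ⟨hrep1, hrep2⟩ := h3 n u hF.sum hF.det_pos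
  -- the first translation
  obtain ⟨v1, hv1⟩ := hrep2 (fun k => 1 - gap K L (u k)) (by
    rw [Finset.sum_sub_distrib]
    have := hF.tot_eq
    unfold tot at this
    rw [this]
    simp)
  have hgv1 : ∀ k, gv K L v1 (u k) = 1 := fun k => by
    unfold gv
    rw [hv1]
    ring
  have hs8 : (1 : ℝ) ≤ 8 * lam * (n + 1) := by nlinarith
  have hbig' : 8 * lam * n * (n + 1) * Real.exp 2 ≤ 1 / (8 * lam * (n + 1)) * X := by
    rw [one_div, ← div_eq_inv_mul, le_div_iff₀ (by positivity)]
    refine le_trans (le_of_eq ?_) hbig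
    ring
  have hs0 : (0 : ℝ) < 1 / (8 * lam * (n + 1)) := by positivity
  have hs01 : 1 / (8 * lam * ((n : ℝ) + 1)) ≤ 1 := by
    rw [div_le_one (by positivity)]
    exact hs8
  by_cases hall : ∀ j, volume (Bad K L u c lam v1 j) ≤ volume K / 2
  · refine ⟨v1, hall, ?_⟩
    refine h1 n K L u c v1 lam 1 hn hK hL hcov hF hDP hlam one_pos ?_ ?_ ?_
    · intro k
      rw [hgv1]
      exact one_pos
    · intro i m _
      rw [Finset.prod_congr rfl fun k _ => hgv1 k]
      simp
    · refine hbig'.trans ?_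
      exact mul_le_mul_of_nonneg_right hs01 hX0.le
  push Not at hall
  obtain ⟨i, hi⟩ := hall
  obtain ⟨a, ha⟩ := hrep2 (fun k => if k = i then -1 else 1 / (n : ℝ)) (by
    have hsplit : ∀ k : Fin (n + 1), (if k = i then (-1 : ℝ) else 1 / (n : ℝ)) =
        1 / (n : ℝ) + (if k = i then (-1 - 1 / (n : ℝ)) else 0) := by
      intro k
      split_ifs <;> ring
    rw [Finset.sum_congr rfl fun k _ => hsplit k, Finset.sum_add_distrib,
      Finset.sum_ite_eq' Finset.univ i]
    simp only [Finset.mem_univ, if_true, Finset.sum_const, Finset.card_univ, Fintype.card_fin,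
      nsmul_eq_mul]
    push_cast
    have hn0 : (n : ℝ) ≠ 0 := by positivity
    field_simp
    ring)
  have hgv := fun s k => gv_vs (K := K) (L := L) hn hv1 ha s k
  have hone : vs v1 a 1 = v1 := by
    unfold vs
    simp
  -- disjointness on the path
  have hdsj : ∀ s : ℝ, 1 / (8 * lam * ((n : ℝ) + 1)) ≤ s → s ≤ 1 → ∀ x ∈ K, ∀ i j, i ≠ j →
      Viol K L u lam ((1 / 2 : ℝ) • (c - vs v1 a s)) (vs v1 a s) x i →
      Viol K L u lam ((1 / 2 : ℝ) • (c - vs v1 a s)) (vs v1 a s) x j → False := by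
    intro s hs1 hs2
    have hspos : 0 < s := hs0.trans_le hs1
    have hge1 : 1 ≤ ((n : ℝ) + 1 - s) / n := by
      rw [le_div_iff₀ (by positivity)]
      linarith
    refine h1 n K L u c (vs v1 a s) lam s hn hK hL hcov hF hDP hlam hspos ?_ ?_ ?_
    · intro k
      rw [hgv]
      split_ifs
      · exact hspos
      · linarith
    · intro i' m' _
      have hone' : ∀ t : Finset (Fin (n + 1)), i ∉ t →
          1 ≤ ∏ k ∈ t, gv K L (vs v1 a s) (u k) := by
        intro t hit
        have h0 : ∏ k ∈ t, (1 : ℝ) ≤ ∏ k ∈ t, gv K L (vs v1 a s) (u k) := by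
          apply Finset.prod_le_prod (fun _ _ => zero_le_one)
          intro k hk
          have hki : k ≠ i := fun h => hit (h ▸ hk)
          rw [hgv, if_neg hki]
          exact hge1
        simpa using h0
      have hprod : ∀ t : Finset (Fin (n + 1)), s ≤ ∏ k ∈ t, gv K L (vs v1 a s) (u k) := by
        intro t
        by_cases hit : i ∈ t
        · rw [← Finset.mul_prod_erase t _ hit, hgv, if_pos rfl]
          have hp := hone' (t.erase i) (Finset.notMem_erase i t)
          nlinarith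
        · exact hs2.trans (hone' t hit)
      exact hprod _
    · refine hbig'.trans ?_
      exact mul_le_mul_of_nonneg_right hs1 hX0.le
  -- the bad set of the cluster `i` on the path
  have hl := fun (j : Fin (n + 1)) (s : ℝ) (hb : volume K / 2 < volume
      (Bad K L u c lam (vs v1 a s) j)) =>
    lsc (fun s => Bad K L u c lam (vs v1 a s) j)
      (fun s x hx => bad_open K L u c lam (vs v1 a) (vs_cont v1 a) j s x hx) s _ hb
  set s0 : ℝ := 1 / (8 * lam * ((n : ℝ) + 1)) with hs0def
  set T : Set ℝ := {s | s0 ≤ s ∧ s ≤ 1 ∧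
    volume K / 2 < volume (Bad K L u c lam (vs v1 a s) i)} with hT
  have hT1 : (1 : ℝ) ∈ T := by
    refine ⟨hs01, le_rfl, ?_⟩
    rw [hone]
    exact hi
  have hbdd : BddBelow T := ⟨s0, fun s hs => hs.1⟩
  have hne : T.Nonempty := ⟨1, hT1⟩
  have hst0 : s0 ≤ sInf T := le_csInf hne fun s hs => hs.1
  have hst1 : sInf T ≤ 1 := csInf_le hbdd hT1
  refine ⟨vs v1 a (sInf T), ?_, hdsj _ hst0 hst1⟩
  intro j
  by_contra hj
  rw [not_le] at hj
  have hj' : volume K / 2 < volume (Bad K L u c lam (vs v1 a (sInf T)) j) := hj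
  obtain ⟨e, he, hev⟩ := Metric.eventually_nhds_iff.1 (hl j (sInf T) hj')
  by_cases hji : j = i
  · subst hji
    -- the infimum is not `s0`
    have hne0 : sInf T ≠ s0 := by
      intro hc
      have hempty : Bad K L u c lam (vs v1 a s0) j = ∅ := by
        rw [Set.eq_empty_iff_forall_notMem]
        rintro x ⟨hx, hvx⟩
        refine h2 n K L u c (vs v1 a s0) lam s0 j hn hK hL hF hDP hlam hs0 ?_ ?_ ?_ x hx hvx
        · rw [hs0def, mul_one_div, div_self (by positivity)]
        · rw [hgv, if_pos rfl]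
        · intro k hk
          rw [hgv, if_neg hk]
      rw [hc, hempty, measure_empty] at hj'
      exact absurd hj' (not_lt.2 bot_le)
    have hlt : s0 < sInf T := lt_of_le_of_ne hst0 (Ne.symm hne0)
    obtain ⟨s', hs'1, hs'2⟩ := exists_between (max_lt hlt (sub_lt_self (sInf T) he))
    have ha1 : s0 < s' := (le_max_left _ _).trans_lt hs'1
    have ha2 : sInf T - e < s' := (le_max_right _ _).trans_lt hs'1
    have hmem : s' ∈ T := by
      refine ⟨ha1.le, (hs'2.le).trans hst1, ?_⟩
      apply hev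
      rw [Real.dist_eq, abs_lt]
      constructor <;> linarith
    exact absurd (csInf_le hbdd hmem) (not_le.2 hs'2)
  · obtain ⟨s', hs'T, hs'lt⟩ := exists_lt_of_csInf_lt hne (lt_add_of_pos_right (sInf T) he)
    have hge : sInf T ≤ s' := csInf_le hbdd hs'T
    have hj2 : volume K / 2 < volume (Bad K L u c lam (vs v1 a s') j) := by
      apply hev
      rw [Real.dist_eq, abs_lt]
      constructor <;> linarith
    exact not_both h4 hn hK hL hDP hlam (vs v1 a s') i j
      (fun x hx h1' h2' => hdsj s' hs'T.1 hs'T.2.1 x hx i j (Ne.symm hji) h1' h2') hs'T.2.2 hj2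

end Pool.Agent.ShadowA
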